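import Pool.Agent.Helper134_PP.Main
import Pool.Agent.Helper134_AR.CV

set_option autoImplicit false

open Polynomial Filter Topology Metric Set MeasureTheory

namespace Pool.Agent.Helper134.PP

variable {P : ℂ[X]} {M R CE L B η c0 : ℝ}

/-- the derivative of `G z = T_z z` is nearly constant on small discs -/
theorem G_near {L B ρ : ℝ} (D : Dat P L B) {n : ℕ} (hn : 1 ≤ n) {t₀ z : ℂ} (ht : ‖t₀‖ + 1 ≤ L)
    (hp : 1 / 2 ≤ ‖P.eval t₀‖) (hρ0 : 0 ≤ ρ) (hBρ : 2 * (B * ρ) ≤ 1) (hz1 : ‖z - t₀‖ ≤ ρ / n) :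
    ‖((n : ℂ) * (P.eval z) ^ (n - 1) * (derivative P).eval z + 1) -
      ((n : ℂ) * (P.eval t₀) ^ (n - 1) * (derivative P).eval t₀ + 1)‖ ≤
        n * ‖P.eval t₀‖ ^ (n - 1) * (5 * (B * (B * ρ))) := by
  have hB := D.B1
  have hn0 : (0 : ℝ) < n := by exact_mod_cast hn
  have hn1 : (1 : ℝ) ≤ n := by exact_mod_cast hn
  have hρn : ρ / n ≤ ρ := div_le_self hρ0 hn1
  have hBB : B * ρ ≤ B * (B * ρ) := le_mul_of_one_le_left (by positivity) hB
  have hρ1 : ρ ≤ 1 := by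
    have : ρ ≤ B * ρ := le_mul_of_one_le_left hρ0 hB
    linarith
  have hzL : ‖z‖ ≤ L := by
    have : ‖z‖ ≤ ‖z - t₀‖ + ‖t₀‖ := by simpa using norm_add_le (z - t₀) t₀
    linarith
  have h5 : ‖(derivative P).eval z - (derivative P).eval t₀‖ ≤ B * ρ :=
    (D.lipD (by linarith) hzL).trans (mul_le_mul_of_nonneg_left (hz1.trans hρn) (by linarith))
  have h6' : ‖P.eval z - P.eval t₀‖ ≤ B * (ρ / n) :=
    (D.lip (by linarith) hzL).trans (mul_le_mul_of_nonneg_left hz1 (by linarith))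
  have hbD := D.bD z hzL
  generalize (derivative P).eval z = dz at *
  generalize (derivative P).eval t₀ = d0 at *
  generalize P.eval z = pz at *
  generalize P.eval t₀ = p0 at *
  obtain ⟨b, hbd⟩ : ∃ b, b = ‖p0‖ ^ (n - 1) := ⟨_, rfl⟩
  rw [← hbd]
  have hb0 : 0 ≤ b := by rw [hbd]; positivity
  have hp00 : p0 ≠ 0 := by
    intro h
    rw [h, norm_zero] at hp
    linarith
  obtain ⟨e, he⟩ : ∃ e, e = (pz - p0) / p0 := ⟨_, rfl⟩
  have he1 : pz = p0 * (1 + e) := by rw [he]; field_simp; ring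
  have he2 : ‖e‖ ≤ 2 * (B * ρ) / n := by
    rw [he, norm_div, div_le_iff₀ (by linarith)]
    have h7 : 2 * (B * ρ) / n * (1 / 2) ≤ 2 * (B * ρ) / n * ‖p0‖ :=
      mul_le_mul_of_nonneg_left hp (by positivity)
    have h8 : 2 * (B * ρ) / n * (1 / 2) = B * (ρ / n) := by ring
    linarith
  have he3 : ((n - 1 : ℕ) : ℝ) * ‖e‖ ≤ 2 * (B * ρ) := by
    have h6 : ((n - 1 : ℕ) : ℝ) ≤ n := by exact_mod_cast Nat.sub_le n 1
    calc ((n - 1 : ℕ) : ℝ) * ‖e‖ ≤ n * (2 * (B * ρ) / n) := mul_le_mul h6 he2 (norm_nonneg _) hn0.le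
      _ = 2 * (B * ρ) := by field_simp
  have h6 : ‖pz ^ (n - 1) - p0 ^ (n - 1)‖ ≤ b * (4 * (B * ρ)) := by
    have e1 : pz ^ (n - 1) - p0 ^ (n - 1) = p0 ^ (n - 1) * ((1 + e) ^ (n - 1) - 1) := by
      rw [he1, mul_pow]; ring
    rw [e1, norm_mul, norm_pow, ← hbd]
    refine mul_le_mul_of_nonneg_left ((pow_sub_one e (n - 1)).trans ?_) hb0
    have hx0 : 0 ≤ ((n - 1 : ℕ) : ℝ) * ‖e‖ := by positivity
    have h7 := Real.abs_exp_sub_one_le (x := ((n - 1 : ℕ) : ℝ) * ‖e‖) (by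
      rw [abs_of_nonneg hx0]; linarith)
    rw [abs_of_nonneg hx0] at h7
    have h8 := le_abs_self (Real.exp (((n - 1 : ℕ) : ℝ) * ‖e‖) - 1)
    linarith
  have h7 : ((n : ℂ) * pz ^ (n - 1) * dz + 1) - ((n : ℂ) * p0 ^ (n - 1) * d0 + 1)
      = n * ((pz ^ (n - 1) - p0 ^ (n - 1)) * dz + p0 ^ (n - 1) * (dz - d0)) := by
    ring
  have h8 : ‖(pz ^ (n - 1) - p0 ^ (n - 1)) * dz + p0 ^ (n - 1) * (dz - d0)‖ ≤
      b * (4 * (B * ρ)) * B + b * (B * ρ) := by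
    refine (norm_add_le _ _).trans (add_le_add ?_ ?_)
    · rw [norm_mul]
      exact mul_le_mul h6 hbD (norm_nonneg _) (by positivity)
    · rw [norm_mul, norm_pow, ← hbd]
      exact mul_le_mul_of_nonneg_left h5 hb0
  have h9 : b * (4 * (B * ρ)) * B + b * (B * ρ) ≤ b * (5 * (B * (B * ρ))) := by
    have h12 := mul_le_mul_of_nonneg_left hBB hb0
    linarith
  rw [h7, norm_mul, Complex.norm_natCast, mul_assoc]
  exact mul_le_mul_of_nonneg_left (h8.trans h9) hn0.le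

/-- `log (P (G t) / P z₁)` is nearly affine -/
theorem l_near {L B c0 Δ : ℝ} (D : Dat P L B) {z₁ z g' D0 : ℂ} (hz₁ : ‖z₁‖ + 1 ≤ L) (hc0 : 0 < c0) (hc1 : c0 ≤ 1)
    (hd : c0 ≤ ‖(derivative P).eval z₁‖) (hp : 1 / 2 ≤ ‖P.eval z₁‖) (hp2 : ‖P.eval z₁‖ ≤ 3 / 2)
    (hΔ0 : 0 ≤ Δ) (hΔ : 480 * B ^ 2 * Δ ≤ c0) (hz : ‖z - z₁‖ ≤ Δ) (hg : ‖g' - D0‖ ≤ ‖D0‖ / 16) :
    ‖P.eval z / P.eval z₁ - 1‖ < 1 ∧
    ‖(derivative P).eval z * g' / P.eval z - (derivative P).eval z₁ / P.eval z₁ * D0‖ ≤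
      ‖(derivative P).eval z₁ / P.eval z₁ * D0‖ / 4 := by
  have hB := D.B1
  have hBΔ : B * (480 * (B * Δ)) ≤ c0 := by
    have : B * (480 * (B * Δ)) = 480 * B ^ 2 * Δ := by ring
    linarith
  have h480 : 480 * (B * Δ) ≤ B * (480 * (B * Δ)) := le_mul_of_one_le_left (by positivity) hB
  have hΔB : Δ ≤ B * Δ := le_mul_of_one_le_left hΔ0 hB
  have hzL : ‖z‖ ≤ L := by
    have : ‖z‖ ≤ ‖z - z₁‖ + ‖z₁‖ := by simpa using norm_add_le (z - z₁) z₁
    linarith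
  have h1 : ‖P.eval z - P.eval z₁‖ ≤ B * Δ :=
    (D.lip (by linarith) hzL).trans (mul_le_mul_of_nonneg_left hz (by linarith))
  have h2 : ‖(derivative P).eval z - (derivative P).eval z₁‖ ≤ B * Δ :=
    (D.lipD (by linarith) hzL).trans (mul_le_mul_of_nonneg_left hz (by linarith))
  have hdB : ‖(derivative P).eval z₁‖ ≤ B := D.bD _ (by linarith)
  generalize (derivative P).eval z = dz at *
  generalize (derivative P).eval z₁ = d1 at *
  generalize P.eval z = pz at *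
  generalize P.eval z₁ = p1 at *
  have hp1 : p1 ≠ 0 := by
    intro h
    rw [h, norm_zero] at hp
    linarith
  have hpz4 : 1 / 4 ≤ ‖pz‖ := by
    have : ‖p1‖ ≤ ‖pz - p1‖ + ‖pz‖ := by
      have := norm_sub_le pz (pz - p1)
      rw [sub_sub_cancel] at this
      linarith
    linarith
  have hpz : pz ≠ 0 := by
    intro h
    rw [h, norm_zero] at hpz4
    linarith
  constructor
  · have e : pz / p1 - 1 = (pz - p1) / p1 := by field_simp
    rw [e, norm_div, div_lt_one (by linarith)]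
    linarith
  · have hq : ‖dz / pz - d1 / p1‖ ≤ 20 * (B * (B * Δ)) := by
      have e : dz / pz - d1 / p1 = ((dz - d1) * p1 - d1 * (pz - p1)) / (pz * p1) := by
        field_simp
        ring
      rw [e, norm_div, norm_mul, div_le_iff₀ (by positivity)]
      have h3 : ‖(dz - d1) * p1 - d1 * (pz - p1)‖ ≤ B * Δ * (3 / 2) + B * (B * Δ) := by
        refine (norm_sub_le _ _).trans (add_le_add ?_ ?_)
        · rw [norm_mul]; exact mul_le_mul h2 hp2 (norm_nonneg _) (by positivity)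
        · rw [norm_mul]; exact mul_le_mul hdB h1 (norm_nonneg _) (by linarith)
      have h4 : (1 / 4 : ℝ) * (1 / 2) ≤ ‖pz‖ * ‖p1‖ := mul_le_mul hpz4 hp (by norm_num) (norm_nonneg _)
      have h5 : B * Δ ≤ B * (B * Δ) := le_mul_of_one_le_left (by positivity) hB
      have h6 : 20 * (B * (B * Δ)) * (1 / 4 * (1 / 2)) ≤ 20 * (B * (B * Δ)) * (‖pz‖ * ‖p1‖) :=
        mul_le_mul_of_nonneg_left h4 (by positivity)
      linarith
    have hq1 : 2 / 3 * c0 ≤ ‖d1 / p1‖ := by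
      rw [norm_div, le_div_iff₀ (by linarith)]
      have : 2 / 3 * c0 * ‖p1‖ ≤ 2 / 3 * c0 * (3 / 2) := mul_le_mul_of_nonneg_left hp2 (by positivity)
      linarith
    have hq2 : ‖dz / pz - d1 / p1‖ ≤ ‖d1 / p1‖ / 16 := by linarith
    obtain ⟨q, hq3⟩ : ∃ q, q = d1 / p1 := ⟨_, rfl⟩
    rw [← hq3] at hq2 ⊢
    have e : dz * g' / pz - q * D0 = (dz / pz - q) * g' + q * (g' - D0) := by ring
    have hg2 : ‖g'‖ ≤ ‖D0‖ * (17 / 16) := by
      have : ‖g'‖ ≤ ‖g' - D0‖ + ‖D0‖ := by simpa using norm_add_le (g' - D0) D0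
      linarith
    rw [e, norm_mul q D0]
    have h7 : ‖(dz / pz - q) * g'‖ ≤ ‖q‖ / 16 * (‖D0‖ * (17 / 16)) := by
      rw [norm_mul]; exact mul_le_mul hq2 hg2 (norm_nonneg _) (by positivity)
    have h8 : ‖q * (g' - D0)‖ ≤ ‖q‖ * (‖D0‖ / 16) := by
      rw [norm_mul]; exact mul_le_mul_of_nonneg_left hg (norm_nonneg _)
    have h9 := norm_add_le ((dz / pz - q) * g') (q * (g' - D0))
    have h10 : 0 ≤ ‖q‖ * ‖D0‖ := by positivity
    linarith

end Pool.Agent.Helper134.PP
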