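import Pool.Agent.Helper134_PP.Area

set_option autoImplicit false

open Polynomial Filter Topology Metric Set MeasureTheory

namespace Pool.Agent.Helper134.PP

variable {P : ℂ[X]} {M R CE L B η c0 : ℝ}

theorem hasDerivAt_G (P : ℂ[X]) (n : ℕ) (z : ℂ) : HasDerivAt (fun z => T P n z z)
    ((n : ℂ) * (P.eval z) ^ (n - 1) * (derivative P).eval z + 1) z :=
  ((P.hasDerivAt z).pow n).add (hasDerivAt_id z)

theorem log_window {a CE : ℝ} {n : ℕ} (hn : 1 ≤ n) (ha : 0 < a) (h1 : 1 < (n : ℝ) ^ 4 * a ^ n)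
    (h2 : a ^ n < CE) (hCE : CE ≤ n) : -(4 * Real.log n) < n * Real.log a ∧ n * Real.log a < Real.log n := by
  have hn0 : (0 : ℝ) < n := by exact_mod_cast hn
  constructor
  · have h3 := Real.log_pos h1
    rw [Real.log_mul (by positivity) (by positivity), Real.log_pow, Real.log_pow] at h3
    push_cast at h3
    linarith
  · have h3 := Real.log_lt_log (by positivity) (h2.trans_le hCE)
    rw [Real.log_pow] at h3
    exact h3

theorem Env.local_area (E : Env P M R CE L B η c0) : ∃ ρ Ka K1 : ℝ, 0 < ρ ∧ 0 < Ka ∧ 0 < K1 ∧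
    ∀ᶠ n : ℕ in atTop, ∀ t₁ : ℂ, ‖t₁‖ + 1 ≤ M → K1 * Real.log n ≤ n * ‖P.eval t₁‖ ^ n →
      ¬ HypT P n t₁ → volume {t ∈ ball t₁ (2 * ρ / n) | ¬ HypT P n t} ≤
        ENNReal.ofReal (Ka * (Real.log n / (n ^ 3 * ‖P.eval t₁‖ ^ n))) := by
  have hB := E.D.B1
  have hc0 := E.hc0
  have hc1 := E.hc1
  have hCE : 4 ≤ CE := by rw [E.hCE]; linarith [E.M1, E.RM]
  obtain ⟨ρ, hρd⟩ : ∃ ρ : ℝ, ρ = c0 / (7680 * CE * B ^ 3) := ⟨_, rfl⟩
  have hρ0 : 0 < ρ := by rw [hρd]; positivity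
  have hρ : 480 * B ^ 2 * (16 * CE * (B * ρ)) = c0 := by rw [hρd]; field_simp; norm_num
  have hBρ0 : 0 < B * ρ := by positivity
  have hBBρ : B * ρ ≤ B * (B * ρ) := le_mul_of_one_le_left hBρ0.le hB
  have hρ2 : 30720 * (B * (B * ρ)) ≤ c0 := by
    have e : 480 * B ^ 2 * (16 * CE * (B * ρ)) = 7680 * CE * B * (B * (B * ρ)) := by ring
    have h1 : (7680 * 4 * 1 : ℝ) * (B * (B * ρ)) ≤ 7680 * CE * B * (B * (B * ρ)) := by gcongr
    linarith
  refine ⟨ρ, 486 * ρ / c0 ^ 2, 3 / c0, hρ0, by positivity, by positivity, ?_⟩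
  have htop : Tendsto (fun n : ℕ => (1 + η) ^ n) atTop atTop :=
    tendsto_pow_atTop_atTop_of_one_lt (by linarith [E.hη0])
  filter_upwards [E.caseE1, E.caseE2, E.caseC1, eventually_ge_atTop 1, htop.eventually_gt_atTop CE,
    (Real.tendsto_log_atTop.comp tendsto_natCast_atTop_atTop).eventually_ge_atTop (1 : ℝ),
    ev_small (ρ := 1 - η) (by linarith [E.hη1]) (by linarith [E.hη0]) 1 (δ := 1 / 2) (by norm_num),
    ev_small (ρ := 1 - η) (by linarith [E.hη1]) (by linarith [E.hη0]) 4 (δ := 1 / 2) (by norm_num),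
    ev_ge CE]
    with n hE1 hE2 hC1 hn htopn hlog hq1 hq4 hnCE t₁ ht₁ hy hbad
  rw [pow_one] at hq1
  have hlog' : 1 ≤ Real.log n := hlog
  have hn0 : (0 : ℝ) < n := by exact_mod_cast hn
  have hn1 : (1 : ℝ) ≤ n := by exact_mod_cast hn
  -- bad parameters
  have hbadt : ∀ t : ℂ, ‖t‖ ≤ M → ¬ HypT P n t → ‖P.eval t‖ ^ n < CE ∧
      ‖P.eval (T P n t t)‖ ^ n < CE ∧ 1 < (n : ℝ) ^ 4 * ‖P.eval (T P n t t)‖ ^ n := by
    intro t ht hb
    have h1 : ‖P.eval t‖ ^ n < CE := by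
      by_contra hcon
      exact hb (hE1 t ht (not_lt.1 hcon))
    refine ⟨h1, ?_, ?_⟩
    · by_contra hcon
      exact hb (hE2 t ht (by linarith) (not_lt.1 hcon))
    · by_contra hcon
      exact hb (hC1 t ht (by linarith) (not_lt.1 hcon))
  obtain ⟨hyC, hz1C, hz1l⟩ := hbadt t₁ (by linarith) hbad
  have hringz : |‖P.eval (T P n t₁ t₁)‖ - 1| ≤ η := by
    refine ring_of (norm_nonneg _) E.hη0 ?_ (hz1C.trans htopn)
    have h4 : (0 : ℝ) < n ^ 4 := by positivity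
    have h5 : (n : ℝ) ^ 4 * (1 - η) ^ n < (n : ℝ) ^ 4 * ‖P.eval (T P n t₁ t₁)‖ ^ n := by linarith
    exact lt_of_mul_lt_mul_left h5 h4.le
  have hK13 : 3 ≤ 3 / c0 := by rw [le_div_iff₀ hc0]; linarith
  have hK1l : 3 / c0 ≤ 3 / c0 * Real.log n := le_mul_of_one_le_right (by positivity) hlog'
  have hringt : |‖P.eval t₁‖ - 1| ≤ η := by
    refine ring_of (norm_nonneg _) E.hη0 ?_ (hyC.trans htopn)
    have h5 : (n : ℝ) * (1 - η) ^ n < n * ‖P.eval t₁‖ ^ n := by linarith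
    exact lt_of_mul_lt_mul_left h5 hn0.le
  have hdz := E.lem _ hringz
  have hdt := E.lem _ hringt
  have hpz : ‖P.eval (T P n t₁ t₁)‖ ≤ 3 / 2 ∧ 1 / 2 ≤ ‖P.eval (T P n t₁ t₁)‖ := by
    rw [abs_le] at hringz
    constructor <;> linarith [E.hη1]
  have hpt : ‖P.eval t₁‖ ≤ 3 / 2 ∧ 1 / 2 ≤ ‖P.eval t₁‖ := by
    rw [abs_le] at hringt
    constructor <;> linarith [E.hη1]
  have ht1L : ‖t₁‖ + 1 ≤ L := by linarith [E.hL]
  have hz1L : ‖T P n t₁ t₁‖ + 1 ≤ L := by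
    have := T_upper (P := P) (n := n) (t := t₁) (z := t₁)
    linarith [E.hL]
  obtain ⟨b, hb⟩ : ∃ b, b = ‖P.eval t₁‖ ^ (n - 1) := ⟨_, rfl⟩
  obtain ⟨y1, hy1⟩ : ∃ y1, y1 = ‖P.eval t₁‖ ^ n := ⟨_, rfl⟩
  have hb0 : 0 ≤ b := by rw [hb]; positivity
  have hyb : y1 = b * ‖P.eval t₁‖ := by
    rw [hb, hy1, ← pow_succ, Nat.sub_add_cancel hn]
  have hyb2 : y1 ≤ 3 / 2 * b := by
    rw [hyb, mul_comm]
    exact mul_le_mul_of_nonneg_right hpt.1 hb0
  have hyb3 : b ≤ 2 * y1 := by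
    have : b * (1 / 2) ≤ b * ‖P.eval t₁‖ := mul_le_mul_of_nonneg_left hpt.2 hb0
    linarith
  rw [← hy1] at hy hyC ⊢
  have hy10 : 0 < y1 := by
    have h1 : 0 < n * y1 := by linarith
    exact (mul_pos_iff_of_pos_left hn0).1 h1
  have hnbc : 2 ≤ n * b * c0 := by
    have h8 : n * y1 ≤ n * (3 / 2 * b) := mul_le_mul_of_nonneg_left hyb2 hn0.le
    have h9 : 3 / c0 ≤ 3 / 2 * (n * b) := by linarith
    rw [div_le_iff₀ hc0] at h9
    linarith
  obtain ⟨Dc, hDc⟩ : ∃ Dc : ℂ, Dc = (n : ℂ) * (P.eval t₁) ^ (n - 1) * (derivative P).eval t₁ + 1 := ⟨_, rfl⟩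
  have hDcl : n * b * c0 / 2 ≤ ‖Dc‖ := by
    have h1 : ‖(n : ℂ) * (P.eval t₁) ^ (n - 1) * (derivative P).eval t₁‖ ≤ ‖Dc‖ + ‖(1 : ℂ)‖ := by
      have := norm_sub_le Dc 1
      rwa [hDc, add_sub_cancel_right, ← hDc] at this
    rw [norm_mul, norm_mul, Complex.norm_natCast, norm_pow, ← hb, norm_one] at h1
    have h2 : n * b * c0 ≤ n * b * ‖(derivative P).eval t₁‖ := mul_le_mul_of_nonneg_left hdt (by positivity)
    linarith
  have hnbB : n * b * c0 ≤ n * b * B := mul_le_mul_of_nonneg_left (hc1.trans hB) (by positivity)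
  have hDcu : ‖Dc‖ ≤ 2 * (n * b * B) := by
    have h1 : ‖Dc‖ ≤ ‖(n : ℂ) * (P.eval t₁) ^ (n - 1) * (derivative P).eval t₁‖ + ‖(1 : ℂ)‖ := by
      rw [hDc]; exact norm_add_le _ _
    rw [norm_mul, norm_mul, Complex.norm_natCast, norm_pow, ← hb, norm_one] at h1
    have h2 : n * b * ‖(derivative P).eval t₁‖ ≤ n * b * B :=
      mul_le_mul_of_nonneg_left (E.D.bD _ (by linarith)) (by positivity)
    linarith
  have hDc0 : 0 < ‖Dc‖ := by linarith
  obtain ⟨σ, hσ⟩ : ∃ σ : ℝ, σ = 2 * ρ / n := ⟨_, rfl⟩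
  have hσ0 : 0 < σ := by rw [hσ]; positivity
  rw [← hσ]
  have hGn : ∀ t ∈ ball t₁ σ, ‖((n : ℂ) * (P.eval t) ^ (n - 1) * (derivative P).eval t + 1) - Dc‖ ≤
      ‖Dc‖ / 16 := by
    intro t ht
    rw [mem_ball, dist_eq_norm, hσ] at ht
    have h1 := G_near (ρ := 2 * ρ) E.D hn ht1L hpt.2 (by positivity) (by linarith) ht.le
    rw [← hDc, ← hb] at h1
    have h2 : n * b * (5 * (B * (B * (2 * ρ)))) ≤ n * b * (c0 / 32) :=
      mul_le_mul_of_nonneg_left (by linarith) (by positivity)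
    linarith
  have hGL : ∀ t ∈ ball t₁ σ, ‖T P n t t - T P n t₁ t₁‖ ≤ 16 * CE * (B * ρ) := by
    intro t ht
    have h1 := (Pool.Agent.Helper134.AR.bilip (f := fun z => T P n z z) (convex_ball t₁ σ) (lam := Dc)
      (ε := ‖Dc‖ / 16) (fun x _ => (hasDerivAt_G P n x).differentiableAt)
      (fun x hx => by rw [(hasDerivAt_G P n x).deriv]; exact hGn x hx) ht (mem_ball_self hσ0)).2
    have h2 : ‖t - t₁‖ ≤ 2 * ρ / n := by
      rw [mem_ball, dist_eq_norm, hσ] at ht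
      exact ht.le
    have h3 : (‖Dc‖ + ‖Dc‖ / 16) * ‖t - t₁‖ ≤ (2 * (n * b * B) * (17 / 16)) * (2 * ρ / n) := by
      refine mul_le_mul (by linarith) h2 (norm_nonneg _) (by positivity)
    have h4 : (2 * (n * b * B) * (17 / 16)) * (2 * ρ / n) = 17 / 4 * (b * (B * ρ)) := by
      field_simp; ring
    have h5 : b * (B * ρ) ≤ 2 * CE * (B * ρ) := mul_le_mul_of_nonneg_right (by linarith) hBρ0.le
    have h6 : 0 ≤ CE * (B * ρ) := by positivity
    have h7 : ‖T P n t t - T P n t₁ t₁‖ ≤ (‖Dc‖ + ‖Dc‖ / 16) * ‖t - t₁‖ := h1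
    linarith
  obtain ⟨Λ, hΛ⟩ : ∃ Λ : ℂ, Λ = (derivative P).eval (T P n t₁ t₁) / P.eval (T P n t₁ t₁) * Dc := ⟨_, rfl⟩
  have hln : ∀ t ∈ ball t₁ σ, ‖P.eval (T P n t t) / P.eval (T P n t₁ t₁) - 1‖ < 1 ∧
      ‖(derivative P).eval (T P n t t) * ((n : ℂ) * (P.eval t) ^ (n - 1) * (derivative P).eval t + 1) /
        P.eval (T P n t t) - Λ‖ ≤ ‖Λ‖ / 4 := by
    intro t ht
    rw [hΛ]
    exact l_near E.D hz1L hc0 hc1 hdz hpz.2 hpz.1 (by positivity) hρ.le (hGL t ht) (hGn t ht)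
  have hP1 : P.eval (T P n t₁ t₁) ≠ 0 := by
    intro h
    have := hpz.2
    rw [h, norm_zero] at this
    linarith
  have hPt : ∀ t ∈ ball t₁ σ, P.eval (T P n t t) ≠ 0 := by
    intro t ht h
    have := (hln t ht).1
    rw [h, zero_div, zero_sub, norm_neg, norm_one] at this
    exact lt_irrefl _ this
  have hld : ∀ t ∈ ball t₁ σ, HasDerivAt (fun z => Complex.log (P.eval (T P n z z) / P.eval (T P n t₁ t₁)))
      ((derivative P).eval (T P n t t) * ((n : ℂ) * (P.eval t) ^ (n - 1) * (derivative P).eval t + 1) /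
        P.eval (T P n t t)) t := by
    intro t ht
    have h1 : HasDerivAt (fun z => P.eval (T P n z z) / P.eval (T P n t₁ t₁))
        ((derivative P).eval (T P n t t) * ((n : ℂ) * (P.eval t) ^ (n - 1) * (derivative P).eval t + 1) /
          P.eval (T P n t₁ t₁)) t := by
      have h2 : HasDerivAt (fun z => P.eval (T P n z z)) ((derivative P).eval (T P n t t) *
          ((n : ℂ) * (P.eval t) ^ (n - 1) * (derivative P).eval t + 1)) t :=
        HasDerivAt.comp t (h := fun z => T P n z z) (P.hasDerivAt (T P n t t)) (hasDerivAt_G P n t)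
      exact h2.div_const _
    have hsl : P.eval (T P n t t) / P.eval (T P n t₁ t₁) ∈ Complex.slitPlane := by
      have h3 := Complex.mem_slitPlane_of_norm_lt_one (hln t ht).1
      rwa [add_sub_cancel] at h3
    have h4 := h1.clog hsl
    refine h4.congr_deriv ?_
    have := hPt t ht
    field_simp
  have hΛl : n * y1 * (2 / 9 * c0 ^ 2) ≤ ‖Λ‖ := by
    rw [hΛ, norm_mul, norm_div]
    have h1 : 2 / 3 * c0 ≤ ‖(derivative P).eval (T P n t₁ t₁)‖ / ‖P.eval (T P n t₁ t₁)‖ := by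
      rw [le_div_iff₀ (by linarith [hpz.2])]
      have : 2 / 3 * c0 * ‖P.eval (T P n t₁ t₁)‖ ≤ 2 / 3 * c0 * (3 / 2) :=
        mul_le_mul_of_nonneg_left hpz.1 (by positivity)
      linarith
    have h2 : 2 / 3 * c0 * (n * b * c0 / 2) ≤
        ‖(derivative P).eval (T P n t₁ t₁)‖ / ‖P.eval (T P n t₁ t₁)‖ * ‖Dc‖ :=
      mul_le_mul h1 hDcl (by positivity) (by positivity)
    have h3 : n * y1 * (2 / 9 * c0 ^ 2) ≤ n * (3 / 2 * b) * (2 / 9 * c0 ^ 2) := by gcongr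
    have h4 : n * (3 / 2 * b) * (2 / 9 * c0 ^ 2) = 2 / 3 * c0 * (n * b * c0 / 2) := by ring
    linarith
  have hΛ0 : 0 < ‖Λ‖ := lt_of_lt_of_le (by positivity) hΛl
  have hstrip := Pool.Agent.Helper134.AR.strip_area
    (l := fun z => Complex.log (P.eval (T P n z z) / P.eval (T P n t₁ t₁))) (v := t₁) (Λ := Λ) (σ := σ)
    (h := 6 * (Real.log n / n)) hσ0 (by positivity) hΛ0
    (fun x hx => (hld x hx).differentiableAt) (fun x hx => by rw [(hld x hx).deriv]; exact (hln x hx).2)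
    (by
      show Complex.log (P.eval (T P n t₁ t₁) / P.eval (T P n t₁ t₁)) = 0
      rw [div_self hP1, Complex.log_one])
  refine (measure_mono ?_).trans (hstrip.trans (ENNReal.ofReal_le_ofReal ?_))
  · rintro t ⟨ht1, ht2⟩
    refine ⟨ht1, ?_⟩
    show |(Complex.log (P.eval (T P n t t) / P.eval (T P n t₁ t₁))).re| < 6 * (Real.log n / n)
    have htM : ‖t‖ ≤ M := by
      rw [mem_ball, dist_eq_norm, hσ] at ht1
      have h1 : ‖t‖ ≤ ‖t - t₁‖ + ‖t₁‖ := by simpa using norm_add_le (t - t₁) t₁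
      have h2 : 2 * ρ / n ≤ 1 := by
        rw [div_le_one hn0]
        have : ρ ≤ B * ρ := le_mul_of_one_le_left hρ0.le hB
        linarith
      linarith
    obtain ⟨-, h3, h4⟩ := hbadt t htM ht2
    have h5 := log_window hn (norm_pos_iff.2 (hPt t ht1)) h4 h3 hnCE
    have h6 := log_window hn (norm_pos_iff.2 hP1) hz1l hz1C hnCE
    rw [Complex.log_re, norm_div, Real.log_div (norm_ne_zero_iff.2 (hPt t ht1)) (norm_ne_zero_iff.2 hP1)]
    have h7 : n * |Real.log ‖P.eval (T P n t t)‖ - Real.log ‖P.eval (T P n t₁ t₁)‖| < 6 * Real.log n := by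
      rw [← abs_of_pos hn0, ← abs_mul, abs_of_pos hn0, mul_sub, abs_lt]
      constructor <;> linarith [h5.1, h5.2, h6.1, h6.2]
    have h8 : 6 * (Real.log n / n) = 6 * Real.log n / n := by ring
    rw [h8, lt_div_iff₀ hn0, mul_comm]
    exact h7
  · have h9 : 9 * (6 * (Real.log n / n)) * σ / ‖Λ‖ ≤
        9 * (6 * (Real.log n / n)) * σ / (n * y1 * (2 / 9 * c0 ^ 2)) := by
      have h10 : 0 < n * y1 * (2 / 9 * c0 ^ 2) := by positivity
      have h11 : 0 ≤ 9 * (6 * (Real.log n / n)) * σ := by positivity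
      exact div_le_div_of_nonneg_left h11 h10 hΛl
    refine h9.trans (le_of_eq ?_)
    rw [hσ]
    field_simp
    ring

theorem area3 {P : ℂ[X]} (hP : 0 < P.natDegree)
    (hcrit : ∀ y : ℂ, (derivative P).eval y = 0 → ‖P.eval y‖ ≠ 1) {M : ℝ} (hM : 0 ≤ M) :
    ∃ K : ℝ, 0 < K ∧ ∀ᶠ n : ℕ in atTop, ∀ t₀ : ℂ, ‖t₀‖ ≤ M →
      volume {t ∈ closedBall t₀ (1 / n) | ¬ HypT P n t} * ENNReal.ofReal (‖P.eval t₀‖ ^ n) ≤
        ENNReal.ofReal (K * Real.log n / n ^ 3) := by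
  obtain ⟨R, CE, L, B, η, c0, E⟩ := exists_env hP hcrit (M := M + 2) (by linarith)
  have hB := E.D.B1
  have hCE : 4 ≤ CE := by rw [E.hCE]; linarith [E.M1, E.RM]
  obtain ⟨ρ, Ka, K1, hρ, hKa, hK1, hloc⟩ := E.local_area
  obtain ⟨F, hFs, hFf, hF⟩ := (isCompact_closedBall (0 : ℂ) 1).finite_cover_balls hρ
  obtain ⟨X, hX⟩ : ∃ X, X = Real.exp (2 * B) := ⟨_, rfl⟩
  have hX1 : 1 ≤ X := by rw [hX]; exact Real.one_le_exp (by linarith)
  obtain ⟨K3, hK3⟩ : ∃ K3, K3 = 2 * X * K1 + 1 := ⟨_, rfl⟩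
  have hK30 : 0 < K3 := by rw [hK3]; positivity
  obtain ⟨N, hN⟩ : ∃ N : ℝ, N = hFf.toFinset.card := ⟨_, rfl⟩
  have hN0 : 0 ≤ N := by rw [hN]; positivity
  have hpi := Real.pi_pos
  refine ⟨Real.pi * K3 + N * (Ka * (2 * X)), by positivity, ?_⟩
  filter_upwards [hloc, eventually_ge_atTop 1,
    (Real.tendsto_log_atTop.comp tendsto_natCast_atTop_atTop).eventually_ge_atTop (1 : ℝ),
    ev_small (ρ := 3 / 4) (by norm_num) (by norm_num) 1 (δ := 1 / 2) (by norm_num),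
    ev_div B (δ := 1 / 4) (by norm_num), ev_div ρ one_pos] with n hloc hn hlog h34 hBn hρn t₀ ht₀
  rw [pow_one] at h34
  have hlog' : 1 ≤ Real.log n := hlog
  have hn0 : (0 : ℝ) < n := by exact_mod_cast hn
  have hn1 : (1 : ℝ) ≤ n := by exact_mod_cast hn
  have hinv1 : (1 : ℝ) / n ≤ 1 := by rw [div_le_one hn0]; exact hn1
  obtain ⟨y0, hy0⟩ : ∃ y0, y0 = ‖P.eval t₀‖ ^ n := ⟨_, rfl⟩
  have hy00 : 0 ≤ y0 := by rw [hy0]; positivity
  rw [← hy0]
  have hKN : 0 ≤ N * (Ka * (2 * X)) := by positivity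
  rcases le_or_gt (n * y0) (K3 * Real.log n) with hc | hc
  · have h1 : volume {t ∈ closedBall t₀ (1 / n) | ¬ HypT P n t} ≤ ENNReal.ofReal (Real.pi * (1 / n) ^ 2) :=
      (measure_mono (fun t ht => ht.1)).trans (Pool.Agent.Helper134.AR.volume_cball t₀ (by positivity)).le
    refine (mul_le_mul_left h1 _).trans ?_
    rw [← ENNReal.ofReal_mul (by positivity)]
    apply ENNReal.ofReal_le_ofReal
    rw [le_div_iff₀ (by positivity)]
    calc Real.pi * (1 / n) ^ 2 * y0 * n ^ 3 = Real.pi * (n * y0) := by field_simp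
      _ ≤ Real.pi * (K3 * Real.log n) := mul_le_mul_of_nonneg_left hc hpi.le
      _ ≤ (Real.pi * K3 + N * (Ka * (2 * X))) * Real.log n := by
        have : 0 ≤ N * (Ka * (2 * X)) * Real.log n := by positivity
        linarith
  -- the main case
  have hy0p : 0 < y0 := by
    have h1 : 0 < n * y0 := by
      have : 0 < K3 * Real.log n := by positivity
      linarith
    exact (mul_pos_iff_of_pos_left hn0).1 h1
  have h34y : (3 / 4 : ℝ) ^ n ≤ y0 / 2 := by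
    have h1 : 1 ≤ K3 * Real.log n := by
      have h2 : 1 ≤ K3 := by
        have : 0 ≤ 2 * X * K1 := by positivity
        linarith
      exact one_le_mul_of_one_le_of_one_le h2 hlog'
    have h3 : n * (3 / 4 : ℝ) ^ n ≤ n * (y0 / 2) := by linarith
    exact le_of_mul_le_mul_left h3 hn0
  have hpiece : ∀ f ∈ F, volume ({t ∈ closedBall t₀ (1 / n) | ¬ HypT P n t} ∩ ball (t₀ + f / n) (ρ / n)) ≤
      ENNReal.ofReal (Ka * (2 * X) * (Real.log n / (n ^ 3 * y0))) := by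
    intro f hf
    rcases ({t ∈ closedBall t₀ (1 / n) | ¬ HypT P n t} ∩ ball (t₀ + f / n) (ρ / n)).eq_empty_or_nonempty
      with h | ⟨t₁, ⟨ht1, ht2⟩, ht3⟩
    · rw [h, measure_empty]
      exact bot_le
    have hd1 : ‖t₁ - t₀‖ ≤ 1 / n := by simpa [dist_eq_norm] using ht1
    have ht1M : ‖t₁‖ + 1 ≤ M + 2 := by
      have h1 : ‖t₁‖ ≤ ‖t₁ - t₀‖ + ‖t₀‖ := by simpa using norm_add_le (t₁ - t₀) t₀
      linarith
    have hpd := E.D.pow_disc (t := t₁) (z := t₀) (r := 1 / n) (by linarith [E.hL]) hinv1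
      (by rw [mul_one_div]; exact hBn) (by rw [norm_sub_rev]; exact hd1) n
    have e1 : 2 * (n : ℝ) * (B * (1 / n)) = 2 * B := by field_simp
    rw [e1, ← hX, ← hy0] at hpd
    obtain ⟨y1, hy1⟩ : ∃ y1, y1 = ‖P.eval t₁‖ ^ n := ⟨_, rfl⟩
    rw [← hy1] at hpd
    have hy01 : y0 ≤ 2 * X * y1 := by linarith
    have hy1p : 0 < y1 := by
      by_contra hcon
      push Not at hcon
      have : 2 * X * y1 ≤ 0 := mul_nonpos_of_nonneg_of_nonpos (by linarith) hcon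
      linarith
    have hKy : K1 * Real.log n ≤ n * y1 := by
      have h1 : (2 * X) * (K1 * Real.log n) ≤ (2 * X) * (n * y1) := by
        have h2 : n * y0 ≤ n * (2 * X * y1) := mul_le_mul_of_nonneg_left hy01 hn0.le
        have h3 : K3 * Real.log n = (2 * X) * (K1 * Real.log n) + Real.log n := by rw [hK3]; ring
        linarith
      exact le_of_mul_le_mul_left h1 (by linarith)
    have h5 := hloc t₁ ht1M (by rw [← hy1]; exact hKy) ht2
    refine (measure_mono ?_).trans (h5.trans (ENNReal.ofReal_le_ofReal ?_))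
    · rintro t ⟨⟨-, ht4⟩, ht5⟩
      refine ⟨?_, ht4⟩
      rw [mem_ball] at ht3 ht5 ⊢
      have h6 := dist_triangle_right t t₁ (t₀ + f / n)
      have h7 : 2 * ρ / n = ρ / n + ρ / n := by ring
      linarith
    · rw [← hy1]
      have h8 : Real.log n / (n ^ 3 * y1) ≤ 2 * X * (Real.log n / (n ^ 3 * y0)) := by
        rw [← mul_div_assoc, div_le_div_iff₀ (by positivity) (by positivity)]
        have h9 : Real.log n * (n ^ 3 * y0) ≤ Real.log n * (n ^ 3 * (2 * X * y1)) := by gcongr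
        linarith
      calc Ka * (Real.log n / (n ^ 3 * y1)) ≤ Ka * (2 * X * (Real.log n / (n ^ 3 * y0))) :=
            mul_le_mul_of_nonneg_left h8 hKa.le
        _ = _ := by ring
  have hcover : {t ∈ closedBall t₀ (1 / n) | ¬ HypT P n t} ⊆ ⋃ f ∈ hFf.toFinset,
      ({t ∈ closedBall t₀ (1 / n) | ¬ HypT P n t} ∩ ball (t₀ + f / n) (ρ / n)) := by
    intro t ht
    have h1 : (n : ℂ) * (t - t₀) ∈ closedBall (0 : ℂ) 1 := by
      have h2 : ‖t - t₀‖ ≤ 1 / n := by simpa [dist_eq_norm] using ht.1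
      rw [mem_closedBall, dist_zero_right, norm_mul, Complex.norm_natCast]
      calc n * ‖t - t₀‖ ≤ n * (1 / n) := mul_le_mul_of_nonneg_left h2 hn0.le
        _ = 1 := by field_simp
    have h3 := hF h1
    simp only [mem_iUnion, exists_prop] at h3
    obtain ⟨f, hf, hf2⟩ := h3
    simp only [mem_iUnion, exists_prop]
    refine ⟨f, by simpa using hf, ht, ?_⟩
    rw [mem_ball, dist_eq_norm] at hf2 ⊢
    have hnC : (n : ℂ) ≠ 0 := by
      have := hn0.ne'
      exact_mod_cast this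
    have e2 : t - (t₀ + f / n) = ((n : ℂ) * (t - t₀) - f) / n := by
      field_simp
      ring
    rw [e2, norm_div, Complex.norm_natCast]
    gcongr
  have hvol : volume {t ∈ closedBall t₀ (1 / n) | ¬ HypT P n t} ≤
      ENNReal.ofReal (N * (Ka * (2 * X) * (Real.log n / (n ^ 3 * y0)))) := by
    refine (measure_mono hcover).trans ((measure_biUnion_finset_le _ _).trans ?_)
    refine (Finset.sum_le_card_nsmul _ _ _ (fun f hf => hpiece f (by simpa using hf))).trans ?_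
    rw [nsmul_eq_mul, hN, ENNReal.ofReal_mul (show (0 : ℝ) ≤ (hFf.toFinset.card : ℝ) by positivity),
      ENNReal.ofReal_natCast]
  refine (mul_le_mul_left hvol _).trans ?_
  rw [← ENNReal.ofReal_mul (by positivity)]
  apply ENNReal.ofReal_le_ofReal
  rw [le_div_iff₀ (by positivity)]
  calc N * (Ka * (2 * X) * (Real.log n / (n ^ 3 * y0))) * y0 * n ^ 3
      = N * (Ka * (2 * X)) * Real.log n := by field_simp
    _ ≤ (Real.pi * K3 + N * (Ka * (2 * X))) * Real.log n := by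
      have : 0 ≤ Real.pi * K3 * Real.log n := by positivity
      linarith

end Pool.Agent.Helper134.PP
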