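import Mathlib

/-!
# Powers of a polynomial plus a constant: attracting cycles of period two
-/

set_option autoImplicit false

open Polynomial Filter Topology Metric Set

namespace Pool.Agent.Helper134.PP

/-- escaping points -/
def Esc (f : ℂ → ℂ) (z : ℂ) : Prop := Tendsto (fun k : ℕ => ‖f^[k] z‖) atTop atTop

/-- points attracted by a sink -/
def Att (f : ℂ → ℂ) (z : ℂ) : Prop :=
  ∃ p : ℕ, 0 < p ∧ ∃ x : ℂ, f^[p] x = x ∧ ‖deriv (f^[p]) x‖ < 1 ∧
    Tendsto (fun k : ℕ => f^[p * k] z) atTop (𝓝 x)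

theorem esc_large {f : ℂ → ℂ} {R : ℝ} (hR1 : 1 ≤ R) (hR : ∀ z, R ≤ ‖z‖ → 2 * ‖z‖ ≤ ‖f z‖) {z : ℂ}
    (hz : R ≤ ‖z‖) : Esc f z := by
  have h : ∀ k : ℕ, (2 : ℝ) ^ k * R ≤ ‖f^[k] z‖ := by
    intro k
    induction k with
    | zero => simpa using hz
    | succ k ih =>
      rw [Function.iterate_succ_apply']
      have h1 : R ≤ ‖f^[k] z‖ := by
        refine le_trans ?_ ih
        have : (1 : ℝ) ≤ 2 ^ k := one_le_pow₀ (by norm_num)
        nlinarith
      have h2 := hR _ h1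
      rw [pow_succ]
      nlinarith
  refine tendsto_atTop_mono h ?_
  exact (tendsto_pow_atTop_atTop_of_one_lt (by norm_num)).atTop_mul_const (by linarith)

theorem esc_iter {f : ℂ → ℂ} {z : ℂ} (m : ℕ) (h : Esc f (f^[m] z)) : Esc f z := by
  have h1 : Tendsto (fun k : ℕ => ‖f^[k + m] z‖) atTop atTop := by
    refine h.congr fun k => ?_
    rw [Function.iterate_add_apply]
  exact (tendsto_add_atTop_iff_nat (f := fun k => ‖f^[k] z‖) m).1 h1

theorem att_disc {f : ℂ → ℂ} (hf : Differentiable ℂ f) {t : ℂ} {r : ℝ}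
    (h : ∀ z ∈ closedBall t r, f (f z) ∈ closedBall t r ∧ ‖deriv f (f z) * deriv f z‖ ≤ 1 / 2)
    {c : ℂ} (hc : f c ∈ closedBall t r) : Att f c := by
  set g : ℂ → ℂ := fun z => f (f z) with hg
  have hgd : ∀ z, HasDerivAt g (deriv f (f z) * deriv f z) z := fun z =>
    (hf (f z)).hasDerivAt.comp z (hf z).hasDerivAt
  have hmaps : MapsTo g (closedBall t r) (closedBall t r) := fun z hz => (h z hz).1
  have hlip : LipschitzOnWith (1 / 2 : NNReal) g (closedBall t r) := by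
    refine (convex_closedBall t r).lipschitzOnWith_of_nnnorm_hasDerivWithin_le
      (fun z hz => (hgd z).hasDerivWithinAt) fun z hz => ?_
    have := (h z hz).2
    rw [← NNReal.coe_le_coe]
    simpa using this
  have hcon : ContractingWith (1 / 2 : NNReal) (hmaps.restrict g (closedBall t r) (closedBall t r)) := by
    refine ⟨by
      rw [← NNReal.coe_lt_coe]; norm_num, ?_⟩
    intro x y
    exact hlip x.2 y.2
  obtain ⟨y, hy, hfix, hlim, -⟩ := ContractingWith.exists_fixedPoint' isClosed_closedBall.isComplete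
    hmaps hcon hc (edist_ne_top _ _)
  have hfix' : f (f y) = y := hfix
  have h2 : f^[2] = g := by
    funext z
    simp [hg, Function.iterate_succ, Function.comp]
  refine ⟨2, two_pos, f y, ?_, ?_, ?_⟩
  · rw [h2]
    show f (f (f y)) = f y
    rw [hfix']
  · rw [h2, (hgd (f y)).deriv, hfix', mul_comm]
    have := (h y hy).2
    linarith
  · have h3 : Tendsto (fun k : ℕ => f^[2 * (k + 1)] c) atTop (𝓝 (f y)) := by
      have h4 := ((hf y).continuousAt.tendsto).comp hlim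
      refine h4.congr fun k => ?_
      show f (g^[k] (f c)) = f^[2 * (k + 1)] c
      rw [← h2, ← Function.iterate_mul, ← Function.iterate_succ_apply' f, ← Function.iterate_succ_apply]
      rfl
    exact (tendsto_add_atTop_iff_nat (f := fun k => f^[2 * k] c) 1).1 h3

/-- perturbation of an `n`-th power -/
theorem pow_bound {a a' ε : ℝ} (ha : 0 ≤ a) (ha' : 0 ≤ a') (hε : 0 ≤ ε) (hε4 : ε ≤ 1 / 4) (h : a' ≤ a + ε) (n : ℕ) :
    a' ^ n ≤ a ^ n * Real.exp (2 * n * ε) + (3 / 4) ^ n := by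
  rcases le_or_gt (1 / 2) a with h1 | h1
  · have h2 : a' ≤ a * Real.exp (2 * ε) := by
      have := Real.add_one_le_exp (2 * ε)
      nlinarith
    have h3 : a' ^ n ≤ (a * Real.exp (2 * ε)) ^ n := pow_le_pow_left₀ ha' h2 n
    rw [mul_pow, ← Real.exp_nat_mul] at h3
    have h4 : (0 : ℝ) ≤ (3 / 4) ^ n := by positivity
    have e : (n : ℝ) * (2 * ε) = 2 * n * ε := by ring
    rw [e] at h3
    linarith
  · have h3 : a' ^ n ≤ (3 / 4) ^ n := pow_le_pow_left₀ ha' (by linarith) n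
    have h4 : 0 ≤ a ^ n * Real.exp (2 * n * ε) := by positivity
    linarith

/-- lower perturbation of an `n`-th power -/
theorem pow_lower {a a' x : ℝ} (ha : 1 ≤ a) (hx0 : 0 ≤ x) {n : ℕ} (hx : (n : ℝ) * x ≤ 1 / 2) (hx1 : x ≤ 1)
    (h : a - x ≤ a') : a ^ n / 2 ≤ a' ^ n := by
  have h1 : a * (1 - x) ≤ a' := by nlinarith
  have h2 : (a * (1 - x)) ^ n ≤ a' ^ n := pow_le_pow_left₀ (by
    apply mul_nonneg <;> linarith) h1 n
  have h3 : 1 + (n : ℝ) * (-x) ≤ (1 + (-x)) ^ n := one_add_mul_le_pow (by linarith) n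
  rw [mul_pow] at h2
  have h4 : (0 : ℝ) < a ^ n := by positivity
  have h5 : (1 + -x) ^ n = (1 - x) ^ n := by ring_nf
  rw [h5] at h3
  nlinarith

/-- the map -/
def T (P : ℂ[X]) (n : ℕ) (t : ℂ) : ℂ → ℂ := fun z => (P.eval z) ^ n + t

theorem hasDerivAt_T (P : ℂ[X]) (n : ℕ) (t z : ℂ) :
    HasDerivAt (T P n t) (n * (P.eval z) ^ (n - 1) * (derivative P).eval z) z := by
  have h := (P.hasDerivAt z).pow n
  exact h.add_const t

theorem diff_T (P : ℂ[X]) (n : ℕ) (t : ℂ) : Differentiable ℂ (T P n t) := fun z =>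
  (hasDerivAt_T P n t z).differentiableAt

theorem deriv_T (P : ℂ[X]) (n : ℕ) (t z : ℂ) :
    deriv (T P n t) z = n * (P.eval z) ^ (n - 1) * (derivative P).eval z := (hasDerivAt_T P n t z).deriv

theorem deriv_bound {P : ℂ[X]} {n : ℕ} (hn : 1 ≤ n) {t z : ℂ} {B : ℝ} (hB : ‖(derivative P).eval z‖ ≤ B) :
    ‖deriv (T P n t) z‖ ≤ 2 * n * B * (‖P.eval z‖ ^ n + (1 / 2) ^ n) := by
  rw [deriv_T, norm_mul, norm_mul, norm_pow, Complex.norm_natCast]
  have hB0 : 0 ≤ B := (norm_nonneg _).trans hB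
  have h1 : ‖P.eval z‖ ^ (n - 1) ≤ 2 * (‖P.eval z‖ ^ n + (1 / 2) ^ n) := by
    obtain ⟨k, rfl⟩ : ∃ k, n = k + 1 := ⟨n - 1, by omega⟩
    rw [Nat.add_sub_cancel]
    set u := ‖P.eval z‖
    have hu : 0 ≤ u := norm_nonneg _
    rcases le_or_gt (1 / 2) u with h | h
    · have h3 : (0 : ℝ) ≤ (1 / 2) ^ (k + 1) := by positivity
      have h4 : 0 ≤ u ^ k := by positivity
      rw [pow_succ u]
      nlinarith
    · have h3 : u ^ k ≤ (1 / 2) ^ k := pow_le_pow_left₀ hu h.le k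
      have h4 : 0 ≤ u ^ (k + 1) := by positivity
      rw [pow_succ (1 / 2 : ℝ)]
      linarith
  have h2 : (0 : ℝ) ≤ n := Nat.cast_nonneg n
  calc (n : ℝ) * ‖P.eval z‖ ^ (n - 1) * ‖(derivative P).eval z‖
      ≤ n * (2 * (‖P.eval z‖ ^ n + (1 / 2) ^ n)) * B := by gcongr
    _ = 2 * n * B * (‖P.eval z‖ ^ n + (1 / 2) ^ n) := by ring

end Pool.Agent.Helper134.PP
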