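import Pool.Agent.Helper134_PP.Cases

set_option autoImplicit false

open Polynomial Filter Topology Metric Set

namespace Pool.Agent.Helper134.PP

variable {P : ℂ[X]} {M R CE L B η c0 : ℝ}

theorem ev_log (k : ℕ) (c : ℝ) {δ : ℝ} (hδ : 0 < δ) : ∀ᶠ n : ℕ in atTop, c * (Real.log n ^ k / n) ≤ δ := by
  have h := (Real.tendsto_pow_log_div_mul_add_atTop 1 0 k one_ne_zero).comp
    (tendsto_natCast_atTop_atTop (R := ℝ))
  have h2 := h.const_mul c
  rw [mul_zero] at h2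
  filter_upwards [h2.eventually (gt_mem_nhds hδ)] with n hn
  have e : ((fun x : ℝ => Real.log x ^ k / (1 * x + 0)) ∘ Nat.cast) n = Real.log n ^ k / (n : ℝ) := by
    simp [Function.comp]
  rw [e] at hn
  exact hn.le

theorem Env.caseC2 (E : Env P M R CE L B η c0) {κ : ℝ} (hκ : 0 < κ) : ∃ C3 : ℝ, 1 ≤ C3 ∧ ∀ K2 : ℝ, 0 ≤ K2 →
    ∀ᶠ n : ℕ in atTop, ∀ t : ℂ, ‖t‖ ≤ M → ∀ l : ℝ, C3 ≤ l → l ≤ K2 * Real.log n →
      n * ‖P.eval t‖ ^ n ≤ κ * l → ‖P.eval (T P n t t)‖ ^ n ≤ ‖P.eval t‖ ^ n * Real.exp (2 - l) →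
      ‖P.eval t‖ ^ n ≤ 2 * CE → HypT P n t := by
  have hB := E.D.B1
  have hCE : 1 ≤ CE := by rw [E.hCE]; linarith [E.M1, E.RM]
  set X0 := Real.exp (2 * B) with hX0
  set κ2 := 2 * B * (κ * X0 + 1) with hκ2
  have hκ20 : 0 < κ2 := by positivity
  set X := Real.exp (2 * B * κ2) with hX
  set κ3 := κ * (Real.exp 2 * X) + 1 with hκ3
  have hκ30 : 0 < κ3 := by positivity
  set W := 4 * B * κ2 * (κ3 + 1) + κ3 with hW
  have hW0 : 0 < W := by positivity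
  obtain ⟨a, ha⟩ := eventually_atTop.1 ((Real.tendsto_pow_mul_exp_neg_atTop_nhds_zero 2).eventually
    (gt_mem_nhds (show (0 : ℝ) < 1 / W by positivity)))
  refine ⟨max a 1, le_max_right _ _, fun K2 hK2 => ?_⟩
  obtain ⟨k, hk⟩ := exists_nat_ge K2
  filter_upwards [E.hypAtt, eventually_ge_atTop 1, ev_div B (δ := 1 / 4) (by norm_num),
    ev_div (B * κ2) (δ := 1 / 4) (by norm_num),
    ev_small (ρ := 3 / 4) (by norm_num) (by norm_num) 1 (δ := 1 / 2) (by norm_num),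
    ev_small (ρ := 3 / 4) (by norm_num) (by norm_num) (k + 1) (δ := 1) (by norm_num),
    ev_small (ρ := 1 - η) (by linarith [E.hη1]) (by linarith [E.hη0]) 2 (δ := 1 / (K2 + 1)) (by positivity)]
    with n h1 hn hBn hBd h34 hk34 hq t ht l hl hlK hy hy2 hyC
  have hn0 : (0 : ℝ) < n := by exact_mod_cast hn
  have hn1 : (1 : ℝ) ≤ n := by exact_mod_cast hn
  have hl1 : 1 ≤ l := (le_max_right _ _).trans hl
  have hl0 : 0 < l := by linarith
  have hla : l ^ 2 * Real.exp (-l) ≤ 1 / W := (ha l ((le_max_left _ _).trans hl)).le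
  rw [pow_one] at h34
  have h1234 : (1 / 2 : ℝ) ^ n ≤ (3 / 4) ^ n := pow_le_pow_left₀ (by norm_num) (by norm_num) n
  have hlogn : 0 ≤ Real.log n := Real.log_nonneg hn1
  have hexpn : 1 ≤ (n : ℝ) ^ k * Real.exp (-l) := by
    have e : (n : ℝ) ^ k = Real.exp (k * Real.log n) := by
      rw [mul_comm, Real.exp_mul, Real.exp_log hn0, Real.rpow_natCast]
    rw [e, ← Real.exp_add]
    apply Real.one_le_exp
    have : K2 * Real.log n ≤ k * Real.log n := by gcongr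
    linarith
  have hsm : n * (3 / 4 : ℝ) ^ n ≤ Real.exp (-l) := by
    have h2 : (n * (3 / 4 : ℝ) ^ n) * (n : ℝ) ^ k ≤ 1 := by
      calc (n * (3 / 4 : ℝ) ^ n) * (n : ℝ) ^ k = (n : ℝ) ^ (k + 1) * (3 / 4) ^ n := by ring
        _ ≤ 1 := hk34
    have hnk : 0 < (n : ℝ) ^ k := by positivity
    have h3 : (n * (3 / 4 : ℝ) ^ n) * (n : ℝ) ^ k ≤ Real.exp (-l) * (n : ℝ) ^ k := by linarith
    exact le_of_mul_le_mul_right h3 hnk
  set y1 := ‖P.eval t‖ ^ n with hy1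
  have hy10 : 0 ≤ y1 := by positivity
  set y2 := ‖P.eval (T P n t t)‖ ^ n with hy2d
  have hy20 : 0 ≤ y2 := by positivity
  set r : ℝ := 1 / (n * l) with hr
  have hr0 : 0 ≤ r := by positivity
  have hrn : r ≤ 1 / n := one_div_le_one_div_of_le hn0 (le_mul_of_one_le_right hn0.le hl1)
  have hr1 : r ≤ 1 := hrn.trans (by rw [div_le_one hn0]; exact hn1)
  have hBr : B * r ≤ 1 / 4 := by
    calc B * r ≤ B * (1 / n) := by gcongr
      _ ≤ 1 / 4 := by rw [mul_one_div]; exact hBn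
  have ht1 : ‖t‖ + 1 ≤ L := by linarith [E.hL]
  have hz0 : ‖T P n t t‖ + 1 ≤ L := by
    have := T_upper (P := P) (n := n) (t := t) (z := t)
    linarith [E.hL]
  have hexp : Real.exp (2 * n * (B * r)) ≤ X0 := by
    apply Real.exp_le_exp.2
    have : 2 * n * (B * r) ≤ 2 * n * (B * (1 / n)) := by gcongr
    have e : 2 * n * (B * (1 / n)) = 2 * B := by field_simp
    linarith
  have hd : 2 * n * B * ((y1 * Real.exp (2 * n * (B * r)) + (3 / 4) ^ n) + (1 / 2) ^ n) ≤ κ2 * l := by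
    calc 2 * n * B * ((y1 * Real.exp (2 * n * (B * r)) + (3 / 4) ^ n) + (1 / 2) ^ n)
        ≤ 2 * n * B * ((y1 * X0 + (3 / 4) ^ n) + (3 / 4) ^ n) := by gcongr
      _ = 2 * B * ((n * y1) * X0 + 2 * (n * (3 / 4) ^ n)) := by ring
      _ ≤ 2 * B * ((κ * l) * X0 + 2 * (1 / 2)) := by gcongr
      _ ≤ 2 * B * ((κ * l) * X0 + l) := by gcongr; linarith
      _ = κ2 * l := by rw [hκ2]; ring
  have e2 : 2 * n * (B * (κ2 * l * r)) = 2 * B * κ2 := by
    rw [hr]; field_simp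
  have hnb : n * (y2 * X + (3 / 4) ^ n) ≤ κ3 * (l * Real.exp (-l)) := by
    have h5 : n * y2 ≤ κ * l * (Real.exp 2 * Real.exp (-l)) := by
      calc n * y2 ≤ n * (y1 * Real.exp (2 - l)) := by gcongr
        _ = (n * y1) * (Real.exp 2 * Real.exp (-l)) := by rw [← Real.exp_add, sub_eq_add_neg]; ring
        _ ≤ _ := by gcongr
    have h6 : Real.exp (-l) ≤ l * Real.exp (-l) := le_mul_of_one_le_left (Real.exp_pos _).le hl1
    calc n * (y2 * X + (3 / 4) ^ n) = (n * y2) * X + n * (3 / 4) ^ n := by ring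
      _ ≤ κ * l * (Real.exp 2 * Real.exp (-l)) * X + l * Real.exp (-l) :=
        add_le_add (by gcongr) (hsm.trans h6)
      _ = κ3 * (l * Real.exp (-l)) := by rw [hκ3]; ring
  have hWκ : κ3 * (1 / W) ≤ 1 := by
    rw [mul_one_div, div_le_one hW0, hW]
    have : 0 ≤ 4 * B * κ2 * (κ3 + 1) := by positivity
    linarith
  have hWκ2 : 2 * B * κ2 * (κ3 + 1) * (1 / W) ≤ 1 / 2 := by
    rw [mul_one_div, div_le_iff₀ hW0, hW]
    have : 0 ≤ κ3 := hκ30.le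
    nlinarith
  refine h1 t ht r ?_ (E.D.two (d := κ2 * l) hn ht1 hz0 hr1 hr0 hBr hd ?_ ?_ ?_)
  · rw [hr, le_div_iff₀ (by positivity)]
    have hln : l ≤ K2 * n := hlK.trans (by
      gcongr
      exact (Real.log_le_sub_one_of_pos hn0).trans (by linarith))
    have hq0 : 0 ≤ (1 - η) ^ n := pow_nonneg (by linarith [E.hη1]) n
    calc (1 - η) ^ n * (n * l) ≤ (1 - η) ^ n * (n * (K2 * n)) := by gcongr
      _ = (n ^ 2 * (1 - η) ^ n) * K2 := by ring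
      _ ≤ 1 / (K2 + 1) * K2 := by gcongr
      _ ≤ 1 := by rw [div_mul_eq_mul_div, one_mul, div_le_one (by positivity)]; linarith
  · have e : B * (κ2 * l * r) = B * κ2 / n := by rw [hr]; field_simp
    rw [e]; exact hBd
  · rw [e2, hr, le_div_iff₀ (by positivity)]
    calc (y2 * X + (3 / 4) ^ n) * (n * l) = l * (n * (y2 * X + (3 / 4) ^ n)) := by ring
      _ ≤ l * (κ3 * (l * Real.exp (-l))) := by gcongr
      _ = κ3 * (l ^ 2 * Real.exp (-l)) := by ring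
      _ ≤ κ3 * (1 / W) := by gcongr
      _ ≤ 1 := hWκ
  · rw [e2]
    have h6 : Real.exp (-l) ≤ l * Real.exp (-l) := le_mul_of_one_le_left (Real.exp_pos _).le hl1
    calc κ2 * l * (2 * n * B * (y2 * X + (3 / 4) ^ n + (1 / 2) ^ n))
        ≤ κ2 * l * (2 * n * B * (y2 * X + (3 / 4) ^ n + (3 / 4) ^ n)) := by gcongr
      _ = 2 * B * κ2 * l * (n * (y2 * X + (3 / 4) ^ n) + n * (3 / 4) ^ n) := by ring
      _ ≤ 2 * B * κ2 * l * (κ3 * (l * Real.exp (-l)) + l * Real.exp (-l)) :=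
        mul_le_mul_of_nonneg_left (add_le_add hnb (hsm.trans h6)) (by positivity)
      _ = 2 * B * κ2 * (κ3 + 1) * (l ^ 2 * Real.exp (-l)) := by ring
      _ ≤ 2 * B * κ2 * (κ3 + 1) * (1 / W) := by gcongr
      _ ≤ 1 / 2 := hWκ2

/-- `|1 + W| ≤ exp (Re W + |W|² / 2)` -/
theorem norm_one_add_le (W : ℂ) : ‖1 + W‖ ≤ Real.exp (W.re + ‖W‖ ^ 2 / 2) := by
  have h1 : ‖1 + W‖ ^ 2 = 1 + (2 * W.re + ‖W‖ ^ 2) := by
    rw [Complex.sq_norm, Complex.sq_norm, Complex.normSq_apply, Complex.normSq_apply]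
    simp
    ring
  have h2 : ‖1 + W‖ ^ 2 ≤ Real.exp (W.re + ‖W‖ ^ 2 / 2) ^ 2 := by
    rw [h1, ← Real.exp_nat_mul]
    have := Real.add_one_le_exp (2 * W.re + ‖W‖ ^ 2)
    have e : ((2 : ℕ) : ℝ) * (W.re + ‖W‖ ^ 2 / 2) = 2 * W.re + ‖W‖ ^ 2 := by push_cast; ring
    rw [e]
    linarith
  exact le_of_sq_le_sq h2 (Real.exp_pos _).le

/-- `|(1 + e)^k - 1| ≤ exp (k |e|) - 1` -/
theorem pow_sub_one (e : ℂ) (k : ℕ) : ‖(1 + e) ^ k - 1‖ ≤ Real.exp (k * ‖e‖) - 1 := by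
  have h : ‖(1 + e) ^ k - 1‖ ≤ (1 + ‖e‖) ^ k - 1 := by
    induction k with
    | zero => simp
    | succ k ih =>
      have e1 : (1 + e) ^ (k + 1) - 1 = ((1 + e) ^ k - 1) * (1 + e) + e := by ring
      rw [e1]
      have h1 : ‖1 + e‖ ≤ 1 + ‖e‖ := (norm_add_le _ _).trans (by simp)
      calc ‖((1 + e) ^ k - 1) * (1 + e) + e‖ ≤ ‖((1 + e) ^ k - 1)‖ * ‖1 + e‖ + ‖e‖ :=
            (norm_add_le _ _).trans (by rw [norm_mul])
        _ ≤ ((1 + ‖e‖) ^ k - 1) * (1 + ‖e‖) + ‖e‖ := by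
          have h0 : 0 ≤ (1 + ‖e‖) ^ k - 1 := (norm_nonneg _).trans ih
          have h2 := mul_le_mul ih h1 (norm_nonneg _) h0
          linarith
        _ = (1 + ‖e‖) ^ (k + 1) - 1 := by ring
  refine h.trans ?_
  have h2 : (1 + ‖e‖) ^ k ≤ Real.exp ‖e‖ ^ k := by
    apply pow_le_pow_left₀ (by positivity)
    linarith [Real.add_one_le_exp ‖e‖]
  rw [← Real.exp_nat_mul] at h2
  linarith

end Pool.Agent.Helper134.PP
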