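import Pool.Agent.Helper134_PP.Disc

set_option autoImplicit false

open Polynomial Filter Topology Metric Set

namespace Pool.Agent.Helper134.PP

/-- all the constants -/
structure Env (P : ℂ[X]) (M R CE L B η c0 : ℝ) : Prop where
  D : Dat P L B
  M1 : 1 ≤ M
  RM : M ≤ R
  hCE : CE = 2 * (R + M)
  hL : M + 2 * CE + 2 ≤ L
  gr : ∀ z : ℂ, R ≤ ‖z‖ → 2 ≤ ‖P.eval z‖ ∧ ‖z‖ ≤ ‖P.eval z‖ ^ 2
  hη0 : 0 < η
  hη1 : η ≤ 1 / 2
  hc0 : 0 < c0
  hc1 : c0 ≤ 1
  lem : ∀ z : ℂ, |‖P.eval z‖ - 1| ≤ η → c0 ≤ ‖(derivative P).eval z‖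
  cr : ∀ c : ℂ, (derivative P).eval c = 0 → ‖P.eval c‖ ≤ 1 - η ∨ 1 + η ≤ ‖P.eval c‖

variable {P : ℂ[X]} {M R CE L B η c0 : ℝ}

theorem ev_small {ρ : ℝ} (h0 : 0 ≤ ρ) (h1 : ρ < 1) (k : ℕ) {δ : ℝ} (hδ : 0 < δ) :
    ∀ᶠ n : ℕ in atTop, (n : ℝ) ^ k * ρ ^ n ≤ δ := by
  have h := tendsto_pow_const_mul_const_pow_of_abs_lt_one k (r := ρ) (by rw [abs_of_nonneg h0]; exact h1)
  exact (h.eventually (gt_mem_nhds hδ)).mono fun n hn => hn.le

theorem ev_div (c : ℝ) {δ : ℝ} (hδ : 0 < δ) : ∀ᶠ n : ℕ in atTop, c / n ≤ δ := by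
  have h := tendsto_const_div_atTop_nhds_zero_nat c
  exact (h.eventually (gt_mem_nhds hδ)).mono fun n hn => hn.le

theorem ev_ge (c : ℝ) : ∀ᶠ n : ℕ in atTop, c ≤ (n : ℝ) := tendsto_natCast_atTop_atTop.eventually_ge_atTop c

theorem norm_pow_sub {P : ℂ[X]} {n : ℕ} {t : ℂ} (z : ℂ) : ‖T P n t z - t‖ = ‖P.eval z‖ ^ n := by
  rw [← norm_pow]
  congr 1
  show (P.eval z) ^ n + t - t = _
  ring

theorem T_lower {P : ℂ[X]} {n : ℕ} {t z : ℂ} : ‖P.eval z‖ ^ n - ‖t‖ ≤ ‖T P n t z‖ := by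
  have h1 : ‖T P n t z - t‖ ≤ ‖T P n t z‖ + ‖t‖ := norm_sub_le _ _
  rw [norm_pow_sub] at h1
  linarith

theorem T_upper {P : ℂ[X]} {n : ℕ} {t z : ℂ} : ‖T P n t z‖ ≤ ‖P.eval z‖ ^ n + ‖t‖ := by
  have h1 : ‖T P n t z‖ ≤ ‖T P n t z - t‖ + ‖t‖ := by simpa using norm_add_le (T P n t z - t) t
  rw [norm_pow_sub] at h1
  linarith

theorem Env.grow (E : Env P M R CE L B η c0) {n : ℕ} (hn : 5 ≤ n) {t : ℂ} (ht : ‖t‖ ≤ M) (z : ℂ)
    (hz : R ≤ ‖z‖) : 2 * ‖z‖ ≤ ‖T P n t z‖ := by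
  obtain ⟨h1, h2⟩ := E.gr z hz
  have h3 : ‖P.eval z‖ ^ 2 * 2 ^ 3 ≤ ‖P.eval z‖ ^ n := by
    obtain ⟨k, rfl⟩ : ∃ k, n = 2 + 3 + k := ⟨n - 5, by omega⟩
    rw [pow_add, pow_add]
    have h4 : (2 : ℝ) ^ 3 ≤ ‖P.eval z‖ ^ 3 := pow_le_pow_left₀ (by norm_num) h1 3
    have h5 : (1 : ℝ) ≤ ‖P.eval z‖ ^ k := one_le_pow₀ (by linarith)
    have h6 : 0 ≤ ‖P.eval z‖ ^ 2 := by positivity
    calc ‖P.eval z‖ ^ 2 * 2 ^ 3 ≤ ‖P.eval z‖ ^ 2 * ‖P.eval z‖ ^ 3 := by gcongr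
      _ ≤ ‖P.eval z‖ ^ 2 * ‖P.eval z‖ ^ 3 * ‖P.eval z‖ ^ k := by
        exact le_mul_of_one_le_right (by positivity) h5
  have h7 := T_lower (P := P) (n := n) (t := t) (z := z)
  have h8 := E.RM
  nlinarith [norm_nonneg z]

theorem Env.hyp (E : Env P M R CE L B η c0) : ∀ᶠ n : ℕ in atTop, ∀ t : ℂ, ‖t‖ ≤ M →
    (∀ c : ℂ, T P n t c ∈ closedBall t ((1 - η) ^ n) → Esc (T P n t) c ∨ Att (T P n t) c) →
      HypT P n t := by
  have h1 : Tendsto (fun n : ℕ => (1 + η) ^ n) atTop atTop :=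
    tendsto_pow_atTop_atTop_of_one_lt (by linarith [E.hη0])
  filter_upwards [eventually_ge_atTop 5, h1.eventually_ge_atTop (R + M)] with n hn5 hn t ht X
  refine hyp_of (R := R) (M := M) (s := (1 - η) ^ n) (by omega) (E.M1.trans E.RM) ht (E.grow hn5 ht)
    (pow_nonneg (by linarith [E.hη1]) n) (fun c hc => ?_) X
  rcases E.cr c hc with h | h
  · left
    exact pow_le_pow_left₀ (norm_nonneg _) h n
  · right
    exact hn.trans (pow_le_pow_left₀ (by linarith [E.hη0]) h n)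

theorem Env.hypAtt (E : Env P M R CE L B η c0) : ∀ᶠ n : ℕ in atTop, ∀ t : ℂ, ‖t‖ ≤ M → ∀ r : ℝ,
    (1 - η) ^ n ≤ r → (∀ z ∈ closedBall t r, T P n t (T P n t z) ∈ closedBall t r ∧
      ‖deriv (T P n t) (T P n t z) * deriv (T P n t) z‖ ≤ 1 / 2) → HypT P n t := by
  filter_upwards [E.hyp] with n hn t ht r hr h
  exact hn t ht fun c hc => Or.inr (att_disc (diff_T P n t) h (closedBall_subset_closedBall hr hc))

/-- no attraction needed: the fixed point near `t` -/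
theorem Env.caseA (E : Env P M R CE L B η c0) : ∃ ε : ℝ, 0 < ε ∧ ∀ᶠ n : ℕ in atTop, ∀ t : ℂ, ‖t‖ ≤ M →
    n * ‖P.eval t‖ ^ n ≤ ε → HypT P n t := by
  have hB := E.D.B1
  have hCE : 0 ≤ CE := by rw [E.hCE]; linarith [E.M1, E.RM]
  set X := Real.exp (2 * B) with hX
  have hX1 : 1 ≤ X := Real.one_le_exp (by linarith)
  refine ⟨1 / (32 * B * X ^ 2), by positivity, ?_⟩
  have hδ : 0 < 1 / (32 * B * X) := by positivity
  filter_upwards [E.hypAtt, eventually_ge_atTop 1, ev_div B (δ := 1 / 4) (by norm_num),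
    ev_small (ρ := 3 / 4) (by norm_num) (by norm_num) 1 hδ,
    ev_small (ρ := 1 - η) (by linarith [E.hη1]) (by linarith [E.hη0]) 1 one_pos] with n h1 hn hBn h3 hq t ht hy
  have hn0 : (0 : ℝ) < n := by exact_mod_cast hn
  have hn1 : (1 : ℝ) ≤ n := by exact_mod_cast hn
  rw [pow_one] at h3 hq
  set y := ‖P.eval t‖ ^ n with hy1
  have hy0 : 0 ≤ y := by positivity
  have hε1 : 1 / (32 * B * X ^ 2) ≤ 1 := by
    rw [div_le_one (by positivity)]
    have : 1 ≤ X ^ 2 := one_le_pow₀ hX1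
    nlinarith
  have hBr : B * (1 / n) ≤ 1 / 4 := by rw [mul_one_div]; exact hBn
  have hr1 : (1 : ℝ) / n ≤ 1 := by rw [div_le_one hn0]; exact hn1
  have e1 : 2 * (n : ℝ) * (B * (1 / n)) = 2 * B := by field_simp
  have h34 : (1 / 2 : ℝ) ^ n ≤ (3 / 4) ^ n := pow_le_pow_left₀ (by norm_num) (by norm_num) n
  have ht1 : ‖t‖ + 1 ≤ L := by linarith [E.hL]
  have hyn : y ≤ 1 / n := by
    rw [le_div_iff₀ hn0, mul_comm]
    exact hy.trans hε1
  have hTt : ‖T P n t t‖ + 1 ≤ L := by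
    have := T_upper (P := P) (n := n) (t := t) (z := t)
    linarith [E.hL]
  have h5 : n * (y * X) ≤ 1 / (32 * B * X) := by
    calc n * (y * X) = (n * y) * X := by ring
      _ ≤ 1 / (32 * B * X ^ 2) * X := by gcongr
      _ = 1 / (32 * B * X) := by field_simp
  have e3 : B * (1 / (32 * B * X)) = 1 / (32 * X) := by field_simp
  have e4 : X * (1 / (32 * B * X)) = 1 / (32 * B) := by field_simp
  have e5 : 1 / (32 * X) ≤ 1 / 32 := one_div_le_one_div_of_le (by norm_num) (by linarith)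
  have e6 : 1 / (32 * B) ≤ 1 / 32 := one_div_le_one_div_of_le (by norm_num) (by linarith)
  have e7 : 1 / (32 * B * X) ≤ 1 / (32 * B) := one_div_le_one_div_of_le (by positivity)
    (le_mul_of_one_le_right (by positivity) hX1)
  have hz0 : ‖P.eval (T P n t t)‖ ^ n ≤ y * X + (3 / 4) ^ n := by
    have h := E.D.pow_disc (z := T P n t t) ht1 hr1 hBr (by rw [norm_pow_sub]; exact hyn) n
    rw [e1] at h
    exact h
  have hz0' : n * (‖P.eval (T P n t t)‖ ^ n * X + (3 / 4) ^ n) ≤ 3 * (1 / (32 * B)) := by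
    calc n * (‖P.eval (T P n t t)‖ ^ n * X + (3 / 4) ^ n)
        ≤ n * ((y * X + (3 / 4) ^ n) * X + (3 / 4) ^ n) := by gcongr
      _ = X * (n * (y * X)) + X * (n * (3 / 4) ^ n) + n * (3 / 4) ^ n := by ring
      _ ≤ X * (1 / (32 * B * X)) + X * (1 / (32 * B * X)) + 1 / (32 * B * X) := by gcongr
      _ ≤ 3 * (1 / (32 * B)) := by rw [e4]; linarith
  refine h1 t ht (1 / n) ?_ (E.D.two (d := 1) hn ht1 hTt hr1 (by positivity) hBr ?_ ?_ ?_ ?_)
  · rw [le_div_iff₀ hn0, mul_comm]; exact hq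
  · rw [e1]
    calc 2 * n * B * ((y * X + (3 / 4) ^ n) + (1 / 2) ^ n)
        ≤ 2 * n * B * ((y * X + (3 / 4) ^ n) + (3 / 4) ^ n) := by gcongr
      _ = 2 * (B * (n * (y * X))) + 4 * (B * (n * (3 / 4) ^ n)) := by ring
      _ ≤ 2 * (B * (1 / (32 * B * X))) + 4 * (B * (1 / (32 * B * X))) := by gcongr
      _ ≤ 1 := by rw [e3]; linarith
  · rw [one_mul]; exact hBr
  · rw [one_mul, e1, le_div_iff₀ hn0, mul_comm]
    linarith
  · rw [one_mul, one_mul, e1]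
    calc 2 * n * B * (‖P.eval (T P n t t)‖ ^ n * X + (3 / 4) ^ n + (1 / 2) ^ n)
        ≤ 2 * n * B * (‖P.eval (T P n t t)‖ ^ n * X + (3 / 4) ^ n + (3 / 4) ^ n) := by gcongr
      _ = 2 * B * (n * (‖P.eval (T P n t t)‖ ^ n * X + (3 / 4) ^ n)) + 2 * (B * (n * (3 / 4) ^ n)) := by ring
      _ ≤ 2 * B * (3 * (1 / (32 * B))) + 2 * (B * (1 / (32 * B * X))) := by gcongr
      _ ≤ 1 / 2 := by
        rw [e3]
        have : 2 * B * (3 * (1 / (32 * B))) = 6 / 32 := by field_simp; norm_num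
        linarith

/-- escape at the first step -/
theorem Env.caseE1 (E : Env P M R CE L B η c0) : ∀ᶠ n : ℕ in atTop, ∀ t : ℂ, ‖t‖ ≤ M →
    CE ≤ ‖P.eval t‖ ^ n → HypT P n t := by
  have hB := E.D.B1
  have hCE : 1 ≤ CE := by rw [E.hCE]; linarith [E.M1, E.RM]
  filter_upwards [E.hyp, eventually_ge_atTop 5,
    ev_small (ρ := 1 - η) (by linarith [E.hη1]) (by linarith [E.hη0]) 1 (δ := 1 / (2 * B)) (by positivity)]
    with n h1 hn hq t ht hy
  rw [pow_one] at hq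
  have hn0 : (0 : ℝ) < n := by exact_mod_cast (by omega : 0 < n)
  have hn1 : (1 : ℝ) ≤ n := by exact_mod_cast (by omega : 1 ≤ n)
  refine h1 t ht fun c hc => Or.inl ?_
  set s := (1 - η) ^ n with hs
  have hs0 : 0 ≤ s := pow_nonneg (by linarith [E.hη1]) n
  have hs1 : s ≤ 1 := pow_le_one₀ (by linarith [E.hη1]) (by linarith [E.hη0])
  set w := T P n t c with hw
  rw [mem_closedBall, dist_eq_norm] at hc
  have hnBs : n * (B * s) ≤ 1 / 2 := by
    calc n * (B * s) = B * (n * s) := by ring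
      _ ≤ B * (1 / (2 * B)) := by gcongr
      _ = 1 / 2 := by field_simp
  have hwL : ‖w‖ ≤ L := by
    have : ‖w‖ ≤ ‖w - t‖ + ‖t‖ := by simpa using norm_add_le (w - t) t
    linarith [E.hL]
  have hP1 : 1 ≤ ‖P.eval t‖ := by
    by_contra hcon
    push Not at hcon
    have : ‖P.eval t‖ ^ n < 1 := pow_lt_one₀ (norm_nonneg _) hcon (by omega)
    linarith
  have h2 : ‖P.eval t‖ - B * s ≤ ‖P.eval w‖ := by
    have h3 := E.D.lip (z := w) (w := t) hwL (by linarith [E.hL])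
    have h4 : ‖P.eval t‖ ≤ ‖P.eval t - P.eval w‖ + ‖P.eval w‖ := by
      simpa using norm_add_le (P.eval t - P.eval w) (P.eval w)
    rw [norm_sub_rev t w] at h3
    have : B * ‖w - t‖ ≤ B * s := by gcongr
    linarith
  have hBs1 : B * s ≤ 1 := by
    have : B * s ≤ n * (B * s) := le_mul_of_one_le_left (by positivity) hn1
    linarith
  have h5 := pow_lower hP1 (by positivity) hnBs hBs1 h2
  refine esc_iter 2 (esc_large (E.M1.trans E.RM) (E.grow hn ht) ?_)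
  show R ≤ ‖T P n t (T P n t c)‖
  have h6 := T_lower (P := P) (n := n) (t := t) (z := w)
  have := E.hCE
  linarith

/-- escape at the second step -/
theorem Env.caseE2 (E : Env P M R CE L B η c0) : ∀ᶠ n : ℕ in atTop, ∀ t : ℂ, ‖t‖ ≤ M →
    ‖P.eval t‖ ^ n ≤ 2 * CE → CE ≤ ‖P.eval (T P n t t)‖ ^ n → HypT P n t := by
  have hB := E.D.B1
  have hCE : 1 ≤ CE := by rw [E.hCE]; linarith [E.M1, E.RM]
  set dd := 2 * B * ((2 * CE * Real.exp 1 + 1) + 1) with hdd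
  have hdd0 : 0 < dd := by positivity
  filter_upwards [E.hyp, eventually_ge_atTop 5,
    ev_small (ρ := 1 - η) (by linarith [E.hη1]) (by linarith [E.hη0]) 2 (δ := 1 / (4 * B * (dd + 1))) (by positivity)]
    with n h1 hn hq t ht hy hy2
  have hn0 : (0 : ℝ) < n := by exact_mod_cast (by omega : 0 < n)
  have hn1 : (1 : ℝ) ≤ n := by exact_mod_cast (by omega : 1 ≤ n)
  refine h1 t ht fun c hc => Or.inl ?_
  set s := (1 - η) ^ n with hs
  have hs0 : 0 ≤ s := pow_nonneg (by linarith [E.hη1]) n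
  have hs1 : s ≤ 1 := pow_le_one₀ (by linarith [E.hη1]) (by linarith [E.hη0])
  set w := T P n t c with hw
  rw [mem_closedBall, dist_eq_norm] at hc
  have hq1 : n ^ 2 * s * (B * (dd + 1)) ≤ 1 / 4 := by
    calc n ^ 2 * s * (B * (dd + 1)) ≤ 1 / (4 * B * (dd + 1)) * (B * (dd + 1)) := by gcongr
      _ = 1 / 4 := by field_simp
  have hns : (n : ℝ) * s ≤ n ^ 2 * s := by
    have : (n : ℝ) ≤ n ^ 2 := by nlinarith
    gcongr
  have hnBs : n * (B * s) ≤ 1 / 4 := by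
    have h3 : n * (B * s) = n * s * B := by ring
    have h4 : n * s * B ≤ n ^ 2 * s * (B * (dd + 1)) := by
      have : B ≤ B * (dd + 1) := by nlinarith
      gcongr
    linarith
  have hBs : B * s ≤ 1 / 4 := by
    have : B * s ≤ n * (B * s) := le_mul_of_one_le_left (by positivity) hn1
    linarith
  have ht1 : ‖t‖ + 1 ≤ L := by linarith [E.hL]
  have h34 : (3 / 4 : ℝ) ^ n ≤ 1 := pow_le_one₀ (by norm_num) (by norm_num)
  have h12 : (1 / 2 : ℝ) ^ n ≤ 1 := pow_le_one₀ (by norm_num) (by norm_num)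
  have hexp : Real.exp (2 * n * (B * s)) ≤ Real.exp 1 := Real.exp_le_exp.2 (by nlinarith)
  have hd : 2 * n * B * ((‖P.eval t‖ ^ n * Real.exp (2 * n * (B * s)) + (3 / 4) ^ n) + (1 / 2) ^ n)
      ≤ n * dd := by
    calc 2 * n * B * ((‖P.eval t‖ ^ n * Real.exp (2 * n * (B * s)) + (3 / 4) ^ n) + (1 / 2) ^ n)
        ≤ 2 * n * B * ((2 * CE * Real.exp 1 + 1) + 1) := by gcongr
      _ = n * dd := by rw [hdd]; ring
  obtain ⟨-, h2⟩ := E.D.T_lip (s := t) (by omega) ht1 hs1 hs0 hBs hd w hc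
  have h3 : ‖T P n t w - T P n t t‖ ≤ n * dd * s := h2.trans (by gcongr)
  have hz0 : ‖T P n t t‖ + 1 ≤ L := by
    have := T_upper (P := P) (n := n) (t := t) (z := t)
    linarith [E.hL]
  have hx : n * (B * (n * dd * s)) ≤ 1 / 2 := by
    have h4 : n * (B * (n * dd * s)) = n ^ 2 * s * (B * dd) := by ring
    have h5 : n ^ 2 * s * (B * dd) ≤ n ^ 2 * s * (B * (dd + 1)) := by
      have : B * dd ≤ B * (dd + 1) := by nlinarith
      gcongr
    linarith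
  have hx1 : B * (n * dd * s) ≤ 1 / 2 := by
    have : B * (n * dd * s) ≤ n * (B * (n * dd * s)) := le_mul_of_one_le_left (by positivity) hn1
    linarith
  have hx2 : n * dd * s ≤ 1 / 2 := by
    have : n * dd * s ≤ B * (n * dd * s) := le_mul_of_one_le_left (by positivity) hB
    linarith
  have hTwL : ‖T P n t w‖ ≤ L := by
    have : ‖T P n t w‖ ≤ ‖T P n t w - T P n t t‖ + ‖T P n t t‖ := by
      simpa using norm_add_le (T P n t w - T P n t t) (T P n t t)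
    linarith
  have hP1 : 1 ≤ ‖P.eval (T P n t t)‖ := by
    by_contra hcon
    push Not at hcon
    have : ‖P.eval (T P n t t)‖ ^ n < 1 := pow_lt_one₀ (norm_nonneg _) hcon (by omega)
    linarith
  have h6 : ‖P.eval (T P n t t)‖ - B * (n * dd * s) ≤ ‖P.eval (T P n t w)‖ := by
    have h3' := E.D.lip (z := T P n t w) (w := T P n t t) hTwL (by linarith)
    have h4 : ‖P.eval (T P n t t)‖ ≤ ‖P.eval (T P n t t) - P.eval (T P n t w)‖ + ‖P.eval (T P n t w)‖ := by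
      simpa using norm_add_le (P.eval (T P n t t) - P.eval (T P n t w)) (P.eval (T P n t w))
    rw [norm_sub_rev (T P n t t) (T P n t w)] at h3'
    have : B * ‖T P n t w - T P n t t‖ ≤ B * (n * dd * s) := by gcongr
    linarith
  have h7 := pow_lower hP1 (by positivity) hx (by linarith) h6
  refine esc_iter 3 (esc_large (E.M1.trans E.RM) (E.grow hn ht) ?_)
  show R ≤ ‖T P n t (T P n t (T P n t c))‖
  have h8 := T_lower (P := P) (n := n) (t := t) (z := T P n t w)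
  have := E.hCE
  linarith

/-- superattracting two-cycle -/
theorem Env.caseC1 (E : Env P M R CE L B η c0) : ∀ᶠ n : ℕ in atTop, ∀ t : ℂ, ‖t‖ ≤ M →
    ‖P.eval t‖ ^ n ≤ 2 * CE → (n : ℝ) ^ 4 * ‖P.eval (T P n t t)‖ ^ n ≤ 1 → HypT P n t := by
  have hB := E.D.B1
  have hCE : 1 ≤ CE := by rw [E.hCE]; linarith [E.M1, E.RM]
  set dd := 2 * B * ((2 * CE * Real.exp (2 * B) + 1) + 1) with hdd
  have hdd0 : 0 < dd := by positivity
  set X := Real.exp (2 * B * dd) with hX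
  have hX1 : 1 ≤ X := Real.one_le_exp (by positivity)
  have hδ : 0 < 1 / (16 * B * (dd + 1)) := by positivity
  filter_upwards [E.hypAtt, eventually_ge_atTop 1, ev_div X hδ, ev_div B (δ := 1 / 4) (by norm_num),
    ev_div (B * dd) (δ := 1 / 4) (by norm_num),
    ev_small (ρ := 3 / 4) (by norm_num) (by norm_num) 2 hδ,
    ev_small (ρ := 1 - η) (by linarith [E.hη1]) (by linarith [E.hη0]) 2 one_pos] with n h1 hn hXn hBn hBd h3 hq t ht
      hy hy2
  have hn0 : (0 : ℝ) < n := by exact_mod_cast hn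
  have hn1 : (1 : ℝ) ≤ n := by exact_mod_cast hn
  have hnn : (n : ℝ) ≤ n ^ 2 := by nlinarith
  set r : ℝ := 1 / n ^ 2 with hr
  have hr0 : 0 ≤ r := by positivity
  have hr1 : r ≤ 1 := by rw [hr, div_le_one (by positivity)]; exact hn1.trans hnn
  have hrn : r ≤ 1 / n := one_div_le_one_div_of_le hn0 hnn
  have hBr : B * r ≤ 1 / 4 := by
    calc B * r ≤ B * (1 / n) := by gcongr
      _ ≤ 1 / 4 := by rw [mul_one_div]; exact hBn
  have ht1 : ‖t‖ + 1 ≤ L := by linarith [E.hL]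
  have hz0 : ‖T P n t t‖ + 1 ≤ L := by
    have := T_upper (P := P) (n := n) (t := t) (z := t)
    linarith [E.hL]
  have h34 : (3 / 4 : ℝ) ^ n ≤ 1 := pow_le_one₀ (by norm_num) (by norm_num)
  have h12 : (1 / 2 : ℝ) ^ n ≤ 1 := pow_le_one₀ (by norm_num) (by norm_num)
  have h1234 : (1 / 2 : ℝ) ^ n ≤ (3 / 4) ^ n := pow_le_pow_left₀ (by norm_num) (by norm_num) n
  have hexp : Real.exp (2 * n * (B * r)) ≤ Real.exp (2 * B) := by
    apply Real.exp_le_exp.2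
    have : 2 * n * (B * r) ≤ 2 * n * (B * (1 / n)) := by gcongr
    have e : 2 * n * (B * (1 / n)) = 2 * B := by field_simp
    linarith
  have hd : 2 * n * B * ((‖P.eval t‖ ^ n * Real.exp (2 * n * (B * r)) + (3 / 4) ^ n) + (1 / 2) ^ n)
      ≤ n * dd := by
    calc 2 * n * B * ((‖P.eval t‖ ^ n * Real.exp (2 * n * (B * r)) + (3 / 4) ^ n) + (1 / 2) ^ n)
        ≤ 2 * n * B * ((2 * CE * Real.exp (2 * B) + 1) + 1) := by gcongr
      _ = n * dd := by rw [hdd]; ring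
  have e2 : 2 * n * (B * (n * dd * r)) = 2 * B * dd := by
    rw [hr]; field_simp
  have hδ1 : 1 / (16 * B * (dd + 1)) ≤ 1 / 16 := by
    apply one_div_le_one_div_of_le (by norm_num)
    have : 1 ≤ B * (dd + 1) := by nlinarith
    nlinarith
  set y2 := ‖P.eval (T P n t t)‖ ^ n with hy2d
  have hy20 : 0 ≤ y2 := by positivity
  have h5 : n ^ 2 * (y2 * X) ≤ 1 / (16 * B * (dd + 1)) := by
    have h6 : n ^ 2 * (y2 * X) * n ^ 2 ≤ X := by
      calc n ^ 2 * (y2 * X) * n ^ 2 = (n ^ 4 * y2) * X := by ring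
        _ ≤ 1 * X := by gcongr
        _ = X := one_mul X
    have h7 : n ^ 2 * (y2 * X) ≤ X / n ^ 2 := by rw [le_div_iff₀ (by positivity)]; exact h6
    have h8 : X / n ^ 2 ≤ X / n := div_le_div_of_nonneg_left (by positivity) hn0 hnn
    exact h7.trans (h8.trans hXn)
  refine h1 t ht r ?_ (E.D.two (d := n * dd) hn ht1 hz0 hr1 hr0 hBr hd ?_ ?_ ?_)
  · rw [hr, le_div_iff₀ (by positivity), mul_comm]; exact hq
  · have e : B * (n * dd * r) = B * dd / n := by rw [hr]; field_simp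
    rw [e]; exact hBd
  · rw [e2, hr, le_div_iff₀ (by positivity)]
    calc (y2 * X + (3 / 4) ^ n) * n ^ 2 = n ^ 2 * (y2 * X) + n ^ 2 * (3 / 4) ^ n := by ring
      _ ≤ 1 / 16 + 1 / 16 := by linarith
      _ ≤ 1 := by norm_num
  · rw [e2]
    calc n * dd * (2 * n * B * (y2 * X + (3 / 4) ^ n + (1 / 2) ^ n))
        ≤ n * dd * (2 * n * B * (y2 * X + (3 / 4) ^ n + (3 / 4) ^ n)) := by gcongr
      _ = 2 * B * dd * (n ^ 2 * (y2 * X)) + 4 * B * dd * (n ^ 2 * (3 / 4) ^ n) := by ring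
      _ ≤ 2 * B * dd * (1 / (16 * B * (dd + 1))) + 4 * B * dd * (1 / (16 * B * (dd + 1))) := by gcongr
      _ = 6 / 16 * (dd / (dd + 1)) := by field_simp; ring
      _ ≤ 6 / 16 * 1 := by
        have : dd / (dd + 1) ≤ 1 := by rw [div_le_one (by positivity)]; linarith
        gcongr
      _ ≤ 1 / 2 := by norm_num

end Pool.Agent.Helper134.PP
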