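import Pool.Agent.Helper134_PP.Basic

set_option autoImplicit false

open Polynomial Filter Topology Metric Set

namespace Pool.Agent.Helper134.PP

/-- bounds on a disc of radius `L` -/
structure Dat (P : ℂ[X]) (L B : ℝ) : Prop where
  B1 : 1 ≤ B
  bP : ∀ z : ℂ, ‖z‖ ≤ L → ‖P.eval z‖ ≤ B
  bD : ∀ z : ℂ, ‖z‖ ≤ L → ‖(derivative P).eval z‖ ≤ B
  bDD : ∀ z : ℂ, ‖z‖ ≤ L → ‖(derivative (derivative P)).eval z‖ ≤ B

theorem exists_bound (P : ℂ[X]) (L : ℝ) : ∃ B : ℝ, ∀ z : ℂ, ‖z‖ ≤ L → ‖P.eval z‖ ≤ B := by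
  obtain ⟨B, hB⟩ := (isCompact_closedBall (0 : ℂ) L).exists_bound_of_continuousOn P.continuous.continuousOn
  exact ⟨B, fun z hz => hB z (by simpa using hz)⟩

theorem exists_dat (P : ℂ[X]) (L : ℝ) : ∃ B : ℝ, Dat P L B := by
  obtain ⟨B0, h0⟩ := exists_bound P L
  obtain ⟨B1, h1⟩ := exists_bound (derivative P) L
  obtain ⟨B2, h2⟩ := exists_bound (derivative (derivative P)) L
  refine ⟨max 1 (max B0 (max B1 B2)), le_max_left _ _, fun z hz => (h0 z hz).trans ?_,
    fun z hz => (h1 z hz).trans ?_, fun z hz => (h2 z hz).trans ?_⟩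
  · exact (le_max_left _ _).trans (le_max_right _ _)
  · exact ((le_max_left _ _).trans (le_max_right _ _)).trans (le_max_right _ _)
  · exact ((le_max_right _ _).trans (le_max_right _ _)).trans (le_max_right _ _)

theorem Dat.lip {P : ℂ[X]} {L B : ℝ} (D : Dat P L B) {z w : ℂ} (hz : ‖z‖ ≤ L) (hw : ‖w‖ ≤ L) :
    ‖P.eval w - P.eval z‖ ≤ B * ‖w - z‖ := by
  refine (convex_closedBall (0 : ℂ) L).norm_image_sub_le_of_norm_hasDerivWithin_le
    (fun x _ => (P.hasDerivAt x).hasDerivWithinAt) (fun x hx => D.bD x (by simpa using hx))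
    (by simpa using hz) (by simpa using hw)

theorem Dat.lipD {P : ℂ[X]} {L B : ℝ} (D : Dat P L B) {z w : ℂ} (hz : ‖z‖ ≤ L) (hw : ‖w‖ ≤ L) :
    ‖(derivative P).eval w - (derivative P).eval z‖ ≤ B * ‖w - z‖ := by
  refine (convex_closedBall (0 : ℂ) L).norm_image_sub_le_of_norm_hasDerivWithin_le
    (fun x _ => ((derivative P).hasDerivAt x).hasDerivWithinAt) (fun x hx => D.bDD x (by simpa using hx))
    (by simpa using hz) (by simpa using hw)

theorem Dat.quad {P : ℂ[X]} {L B : ℝ} (D : Dat P L B) {z w : ℂ} (hz : ‖z‖ ≤ L) (hw : ‖w‖ ≤ L) :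
    ‖P.eval w - P.eval z - (derivative P).eval z * (w - z)‖ ≤ B * ‖w - z‖ * ‖w - z‖ := by
  have hB0 : 0 ≤ B := by linarith [D.B1]
  have h := (convex_segment z w).norm_image_sub_le_of_norm_hasDerivWithin_le
    (f := fun x => P.eval x - (derivative P).eval z * (x - z)) (C := B * ‖w - z‖)
    (f' := fun x => (derivative P).eval x - (derivative P).eval z) (x := z) (y := w)
    (fun x _ => (((P.hasDerivAt x).sub (((hasDerivAt_id x).sub_const z).const_mul _)).congr_deriv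
      (by simp)).hasDerivWithinAt) (fun x hx => by
        have h1 : ‖x - z‖ ≤ ‖w - z‖ := by
          obtain ⟨a, b, ha, hb, hab, rfl⟩ := hx
          have : a • z + b • w - z = b • (w - z) := by
            have : a = 1 - b := by linarith
            subst this
            simp only [Complex.real_smul]
            push_cast
            ring
          rw [this, norm_smul, Real.norm_of_nonneg hb]
          nlinarith [norm_nonneg (w - z)]
        have h2 : ‖x‖ ≤ L := by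
          have : x ∈ closedBall (0 : ℂ) L := (convex_closedBall (0 : ℂ) L).segment_subset
            (by simpa using hz) (by simpa using hw) hx
          simpa using this
        exact (D.lipD hz h2).trans (by gcongr)) (left_mem_segment ℝ z w) (right_mem_segment ℝ z w)
  simpa [sub_sub, add_comm, sub_right_comm] using h

theorem Dat.pow_disc {P : ℂ[X]} {L B : ℝ} (D : Dat P L B) {t z : ℂ} {r : ℝ} (ht : ‖t‖ + 1 ≤ L) (hr1 : r ≤ 1)
    (hBr : B * r ≤ 1 / 4) (hz : ‖z - t‖ ≤ r) (n : ℕ) :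
    ‖P.eval z‖ ^ n ≤ ‖P.eval t‖ ^ n * Real.exp (2 * n * (B * r)) + (3 / 4) ^ n := by
  have hr0 : 0 ≤ r := (norm_nonneg _).trans hz
  have hB0 : 0 ≤ B := by linarith [D.B1]
  refine pow_bound (norm_nonneg _) (norm_nonneg _) (by positivity) hBr ?_ n
  have hz1 : ‖z‖ ≤ L := by
    have : ‖z‖ ≤ ‖z - t‖ + ‖t‖ := by simpa using norm_add_le (z - t) t
    linarith
  have h1 := D.lip (z := t) (w := z) (by linarith) hz1
  have h2 : ‖P.eval z‖ ≤ ‖P.eval z - P.eval t‖ + ‖P.eval t‖ := by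
    simpa using norm_add_le (P.eval z - P.eval t) (P.eval t)
  have h3 : B * ‖z - t‖ ≤ B * r := by gcongr
  linarith

theorem Dat.T_lip {P : ℂ[X]} {L B : ℝ} (D : Dat P L B) {t s : ℂ} {r d : ℝ} {n : ℕ} (hn : 1 ≤ n)
    (ht : ‖t‖ + 1 ≤ L) (hr1 : r ≤ 1) (hr0 : 0 ≤ r) (hBr : B * r ≤ 1 / 4)
    (hd : 2 * n * B * ((‖P.eval t‖ ^ n * Real.exp (2 * n * (B * r)) + (3 / 4) ^ n) + (1 / 2) ^ n) ≤ d) :
    ∀ z : ℂ, ‖z - t‖ ≤ r → ‖deriv (T P n s) z‖ ≤ d ∧ ‖T P n s z - T P n s t‖ ≤ d * ‖z - t‖ := by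
  have hB0 : 0 ≤ B := by linarith [D.B1]
  have key : ∀ z : ℂ, ‖z - t‖ ≤ r → ‖deriv (T P n s) z‖ ≤ d := by
    intro z hz
    have hz1 : ‖z‖ ≤ L := by
      have : ‖z‖ ≤ ‖z - t‖ + ‖t‖ := by simpa using norm_add_le (z - t) t
      linarith
    refine (deriv_bound hn (D.bD z hz1)).trans (le_trans ?_ hd)
    have := D.pow_disc ht hr1 hBr hz n
    gcongr
  intro z hz
  refine ⟨key z hz, ?_⟩
  refine (convex_closedBall t r).norm_image_sub_le_of_norm_deriv_le
    (fun x _ => (diff_T P n s x)) (fun x hx => key x (by simpa [dist_eq_norm] using hx))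
    (by simpa using hr0) (by simpa [dist_eq_norm] using hz)

theorem Dat.two {P : ℂ[X]} {L B : ℝ} (D : Dat P L B) {t : ℂ} {r d : ℝ} {n : ℕ} (hn : 1 ≤ n)
    (ht : ‖t‖ + 1 ≤ L) (hz0 : ‖T P n t t‖ + 1 ≤ L) (hr1 : r ≤ 1) (hr0 : 0 ≤ r) (hBr : B * r ≤ 1 / 4)
    (hd : 2 * n * B * ((‖P.eval t‖ ^ n * Real.exp (2 * n * (B * r)) + (3 / 4) ^ n) + (1 / 2) ^ n) ≤ d)
    (hBdr : B * (d * r) ≤ 1 / 4)
    (hb : ‖P.eval (T P n t t)‖ ^ n * Real.exp (2 * n * (B * (d * r))) + (3 / 4) ^ n ≤ r)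
    (hprod : d * (2 * n * B * ((‖P.eval (T P n t t)‖ ^ n * Real.exp (2 * n * (B * (d * r))) + (3 / 4) ^ n) +
      (1 / 2) ^ n)) ≤ 1 / 2) :
    ∀ z ∈ closedBall t r, T P n t (T P n t z) ∈ closedBall t r ∧
      ‖deriv (T P n t) (T P n t z) * deriv (T P n t) z‖ ≤ 1 / 2 := by
  intro z hz
  have hB0 : 0 ≤ B := by linarith [D.B1]
  have hz' : ‖z - t‖ ≤ r := by simpa [dist_eq_norm] using hz
  obtain ⟨h1, h2⟩ := D.T_lip (s := t) hn ht hr1 hr0 hBr hd z hz'
  have hd0 : 0 ≤ d := (norm_nonneg _).trans h1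
  have h3 : ‖T P n t z - T P n t t‖ ≤ d * r := h2.trans (by gcongr)
  have hdr1 : d * r ≤ 1 := by
    have : d * r ≤ B * (d * r) := by nlinarith [D.B1, mul_nonneg hd0 hr0]
    linarith
  have h4 := D.pow_disc hz0 hdr1 hBdr h3 n
  have h5 : ‖T P n t z‖ ≤ L := by
    have : ‖T P n t z‖ ≤ ‖T P n t z - T P n t t‖ + ‖T P n t t‖ := by
      simpa using norm_add_le (T P n t z - T P n t t) (T P n t t)
    linarith
  constructor
  · have e : T P n t (T P n t z) - t = (P.eval (T P n t z)) ^ n := by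
      show (P.eval (T P n t z)) ^ n + t - t = _
      ring
    rw [mem_closedBall, dist_eq_norm, e, norm_pow]
    exact h4.trans hb
  · rw [norm_mul]
    have h6 : ‖deriv (T P n t) (T P n t z)‖ ≤ _ := deriv_bound (t := t) hn (D.bD _ h5)
    have h7 : ‖deriv (T P n t) (T P n t z)‖ ≤ 2 * n * B * ((‖P.eval (T P n t t)‖ ^ n *
        Real.exp (2 * n * (B * (d * r))) + (3 / 4) ^ n) + (1 / 2) ^ n) := h6.trans (by gcongr)
    calc ‖deriv (T P n t) (T P n t z)‖ * ‖deriv (T P n t) z‖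
        ≤ (2 * n * B * ((‖P.eval (T P n t t)‖ ^ n *
          Real.exp (2 * n * (B * (d * r))) + (3 / 4) ^ n) + (1 / 2) ^ n)) * d := by
            gcongr
      _ ≤ 1 / 2 := by rw [mul_comm]; exact hprod

/-- hyperbolicity of the map -/
def HypT (P : ℂ[X]) (n : ℕ) (t : ℂ) : Prop :=
  ∀ c : ℂ, (n : ℂ) * (P.eval c) ^ (n - 1) * (derivative P).eval c = 0 → Esc (T P n t) c ∨ Att (T P n t) c

theorem hyp_of {P : ℂ[X]} {n : ℕ} (hn : 2 ≤ n) {t : ℂ} {R M s : ℝ} (hR1 : 1 ≤ R) (ht : ‖t‖ ≤ M)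
    (hR : ∀ z, R ≤ ‖z‖ → 2 * ‖z‖ ≤ ‖T P n t z‖) (hs : 0 ≤ s)
    (hcrit : ∀ c : ℂ, (derivative P).eval c = 0 → ‖P.eval c‖ ^ n ≤ s ∨ R + M ≤ ‖P.eval c‖ ^ n)
    (X : ∀ c : ℂ, T P n t c ∈ closedBall t s → Esc (T P n t) c ∨ Att (T P n t) c) : HypT P n t := by
  intro c hc
  have hn0 : (n : ℂ) ≠ 0 := by
    have : n ≠ 0 := by omega
    exact_mod_cast this
  have e : ∀ c, T P n t c - t = (P.eval c) ^ n := fun c => by
    show (P.eval c) ^ n + t - t = _
    ring
  rcases mul_eq_zero.1 hc with h | h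
  · rcases mul_eq_zero.1 h with h | h
    · exact absurd h hn0
    · have h1 : P.eval c = 0 := pow_eq_zero_iff (by omega) |>.1 h
      apply X
      rw [mem_closedBall, dist_eq_norm, e, h1, zero_pow (by omega), norm_zero]
      exact hs
  · rcases hcrit c h with h1 | h1
    · apply X
      rw [mem_closedBall, dist_eq_norm, e, norm_pow]
      exact h1
    · left
      refine esc_iter 1 (esc_large hR1 hR ?_)
      rw [Function.iterate_one]
      have h2 : ‖T P n t c - t‖ ≤ ‖T P n t c‖ + ‖t‖ := norm_sub_le _ _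
      rw [e, norm_pow] at h2
      linarith

/-- solving an equation on a small disc -/
theorem solve {g g' : ℂ → ℂ} {t w D : ℂ} (hD : D ≠ 0)
    (h : ∀ z : ℂ, ‖z - t‖ ≤ 2 * ‖w - g t‖ / ‖D‖ → HasDerivAt g (g' z) z ∧ ‖g' z - D‖ ≤ ‖D‖ / 2) :
    ∃ z : ℂ, ‖z - t‖ ≤ 2 * ‖w - g t‖ / ‖D‖ ∧ g z = w := by
  have hD0 : 0 < ‖D‖ := norm_pos_iff.2 hD
  set ρ := 2 * ‖w - g t‖ / ‖D‖ with hρ
  have hρ0 : 0 ≤ ρ := by positivity
  set F : ℂ → ℂ := fun z => z - (g z - w) / D with hF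
  have hFd : ∀ z ∈ closedBall t ρ, HasDerivWithinAt F (1 - g' z / D) (closedBall t ρ) z := by
    intro z hz
    have h1 := (h z (by simpa [dist_eq_norm] using hz)).1
    exact ((hasDerivAt_id z).sub ((h1.sub_const w).div_const D)).hasDerivWithinAt
  have hFb : ∀ z ∈ closedBall t ρ, ‖1 - g' z / D‖₊ ≤ (1 / 2 : NNReal) := by
    intro z hz
    have h1 := (h z (by simpa [dist_eq_norm] using hz)).2
    rw [← NNReal.coe_le_coe]
    have e : 1 - g' z / D = - ((g' z - D) / D) := by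
      field_simp
      ring
    rw [coe_nnnorm, e, norm_neg, norm_div, div_le_iff₀ hD0]
    push_cast
    linarith
  have hlip : LipschitzOnWith (1 / 2 : NNReal) F (closedBall t ρ) :=
    (convex_closedBall t ρ).lipschitzOnWith_of_nnnorm_hasDerivWithin_le hFd hFb
  have hmaps : MapsTo F (closedBall t ρ) (closedBall t ρ) := by
    intro z hz
    have h1 := hlip.dist_le_mul z hz t (mem_closedBall_self hρ0)
    have h2 : dist (F t) t = ρ / 2 := by
      rw [dist_eq_norm]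
      have : F t - t = - ((g t - w) / D) := by simp only [hF]; ring
      rw [this, norm_neg, norm_div, norm_sub_rev, hρ]
      ring
    rw [mem_closedBall] at hz ⊢
    have h3 := dist_triangle (F z) (F t) t
    push_cast at h1
    linarith
  have hcon : ContractingWith (1 / 2 : NNReal) (hmaps.restrict F (closedBall t ρ) (closedBall t ρ)) := by
    refine ⟨by
      rw [← NNReal.coe_lt_coe]; norm_num, ?_⟩
    intro x y
    exact hlip x.2 y.2
  obtain ⟨y, hy, hfix, -, -⟩ := ContractingWith.exists_fixedPoint' isClosed_closedBall.isComplete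
    hmaps hcon (mem_closedBall_self hρ0) (edist_ne_top _ _)
  refine ⟨y, by simpa [dist_eq_norm] using hy, ?_⟩
  have h4 : y - (g y - w) / D = y := hfix
  have h5 : (g y - w) / D = 0 := by linear_combination -h4
  rcases div_eq_zero_iff.1 h5 with h6 | h6
  · exact sub_eq_zero.1 h6
  · exact absurd h6 hD

end Pool.Agent.Helper134.PP
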