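import Pool.Agent.Helper134_PP.CaseC

set_option autoImplicit false

open Polynomial Filter Topology Metric Set

namespace Pool.Agent.Helper134.PP

/-- the value of `|P|^n` after one step, close to the lemniscate -/
theorem est {P : ℂ[X]} {L B : ℝ} (D : Dat P L B) {n : ℕ} (hn0 : (0 : ℝ) < n) {t : ℂ} {y1 l κ : ℝ} {ξ : ℂ}
    (htL : ‖t‖ ≤ L) (hTL : ‖T P n t t‖ ≤ L) (hu12 : 1 / 2 ≤ ‖P.eval t‖) (hun : ‖P.eval t‖ ^ n = y1)
    (hy1h : y1 ≤ 1 / 2) (hl0 : 0 < l)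
    (hprin : (n : ℂ) * ((derivative P).eval t * (P.eval t) ^ n / P.eval t) = -(l : ℂ) * ξ)
    (hξ1 : ‖ξ - 1‖ ≤ κ / n) (hlκ : l * (κ / n) ≤ 1)
    (hyy : (2 * B + 8 * B ^ 2) * (n * (y1 * y1)) ≤ 1) :
    ‖P.eval (T P n t t)‖ ^ n ≤ y1 * Real.exp (2 - l) := by
  have hB := D.B1
  have hdB : ‖(derivative P).eval t‖ ≤ B := D.bD t htL
  have hq := D.quad (z := t) (w := T P n t t) htL hTL
  have hTt : T P n t t - t = (P.eval t) ^ n := by
    show (P.eval t) ^ n + t - t = _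
    ring
  generalize P.eval (T P n t t) = pT at *
  rw [hTt, norm_pow, hun] at hq
  generalize (derivative P).eval t = dt at *
  generalize P.eval t = u at *
  have hy10 : 0 ≤ y1 := by rw [← hun]; positivity
  have hu0 : u ≠ 0 := by
    intro h
    rw [h, norm_zero] at hu12
    linarith
  obtain ⟨y, hyd⟩ : ∃ y, y = u ^ n := ⟨_, rfl⟩
  have hyn : ‖y‖ = y1 := by rw [hyd, norm_pow, hun]
  rw [← hyd] at hprin hq
  obtain ⟨Ee, hEe⟩ : ∃ Ee, Ee = pT - u - dt * y := ⟨_, rfl⟩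
  rw [← hEe] at hq
  obtain ⟨Wc, hWc⟩ : ∃ Wc, Wc = (dt * y + Ee) / u := ⟨_, rfl⟩
  have hWc2 : Wc = dt * y / u + Ee / u := by rw [hWc]; ring
  have hPT : pT = u * (1 + Wc) := by
    have e1 : u * (1 + Wc) = u + (dt * y + Ee) := by
      rw [hWc]; field_simp
    rw [e1, hEe]
    ring
  have hre1 : ((n : ℂ) * (dt * y / u)).re ≤ -l + 1 := by
    rw [hprin]
    have e1 : -(l : ℂ) * ξ = ((-l : ℝ) : ℂ) + (-(l : ℂ)) * (ξ - 1) := by push_cast; ring
    rw [e1, Complex.add_re, Complex.ofReal_re]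
    have h2 : ((-(l : ℂ)) * (ξ - 1)).re ≤ l * (κ / n) := by
      refine (Complex.re_le_norm _).trans ?_
      rw [norm_mul, norm_neg, Complex.norm_real, Real.norm_of_nonneg hl0.le]
      exact mul_le_mul_of_nonneg_left hξ1 hl0.le
    linarith
  have hby : 0 ≤ B * (y1 * y1) := by positivity
  have hEu : ‖Ee / u‖ ≤ 2 * B * (y1 * y1) := by
    rw [norm_div, div_le_iff₀ (by linarith)]
    have h2 : B * (y1 * y1) * (1 / 2) ≤ B * (y1 * y1) * ‖u‖ := mul_le_mul_of_nonneg_left hu12 hby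
    have h3 : B * y1 * y1 = B * (y1 * y1) := by ring
    rw [h3] at hq
    linarith
  have hWn : ‖Wc‖ ≤ 4 * B * y1 := by
    have h2 : ‖dt * y / u‖ ≤ 2 * B * y1 := by
      rw [norm_div, norm_mul, hyn, div_le_iff₀ (by linarith)]
      have h3 : ‖dt‖ * y1 ≤ B * y1 := mul_le_mul_of_nonneg_right hdB hy10
      have h4 : B * y1 * (1 / 2) ≤ B * y1 * ‖u‖ := mul_le_mul_of_nonneg_left hu12 (by positivity)
      linarith
    have h5 : ‖Wc‖ ≤ ‖dt * y / u‖ + ‖Ee / u‖ := by rw [hWc2]; exact norm_add_le _ _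
    have h6 : y1 * y1 ≤ y1 * 1 := mul_le_mul_of_nonneg_left (by linarith) hy10
    have h7 : B * (y1 * y1) ≤ B * (y1 * 1) := mul_le_mul_of_nonneg_left h6 (by linarith)
    linarith
  have hexpo : n * (Wc.re + ‖Wc‖ ^ 2 / 2) ≤ 2 - l := by
    have e1 : (n : ℝ) * Wc.re = ((n : ℂ) * (dt * y / u)).re + n * (Ee / u).re := by
      rw [hWc2, Complex.add_re, mul_add]
      congr 1
      have : ((n : ℂ) * (dt * y / u)) = ((n : ℝ) : ℂ) * (dt * y / u) := by norm_cast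
      rw [this, Complex.re_ofReal_mul]
    have h2 : (Ee / u).re ≤ 2 * B * (y1 * y1) := (Complex.re_le_norm _).trans hEu
    have h3 : ‖Wc‖ ^ 2 ≤ (4 * B * y1) ^ 2 := pow_le_pow_left₀ (norm_nonneg _) hWn 2
    have h4 : n * (Ee / u).re ≤ n * (2 * B * (y1 * y1)) := mul_le_mul_of_nonneg_left h2 hn0.le
    have h5 : n * (‖Wc‖ ^ 2 / 2) ≤ n * ((4 * B * y1) ^ 2 / 2) :=
      mul_le_mul_of_nonneg_left (by linarith) hn0.le
    have h6 : n * (2 * B * (y1 * y1)) + n * ((4 * B * y1) ^ 2 / 2) = (2 * B + 8 * B ^ 2) * (n * (y1 * y1)) := by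
      ring
    rw [mul_add, e1]
    linarith
  rw [hPT, norm_mul, mul_pow, hun]
  have h8 : ‖1 + Wc‖ ^ n ≤ Real.exp (Wc.re + ‖Wc‖ ^ 2 / 2) ^ n :=
    pow_le_pow_left₀ (norm_nonneg _) (norm_one_add_le Wc) n
  rw [← Real.exp_nat_mul] at h8
  have h9 : Real.exp (n * (Wc.re + ‖Wc‖ ^ 2 / 2)) ≤ Real.exp (2 - l) := Real.exp_le_exp.2 hexpo
  exact mul_le_mul_of_nonneg_left (h8.trans h9) hy10

end Pool.Agent.Helper134.PP
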