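import Pool.Agent.Helper134_PP.Est

set_option autoImplicit false

open Polynomial Filter Topology Metric Set

namespace Pool.Agent.Helper134.PP

variable {P : ℂ[X]} {M R CE L B η c0 : ℝ}

theorem exists_rot (w : ℂ) : ∃ θ : ℝ, |θ| ≤ 7 ∧ w * Complex.exp (θ * Complex.I) = -(‖w‖ : ℂ) := by
  refine ⟨Real.pi - w.arg, ?_, ?_⟩
  · have h1 := Complex.abs_arg_le_pi w
    have h2 := Real.pi_lt_d2
    have h3 := Real.pi_pos
    rw [abs_le] at h1 ⊢
    constructor <;> linarith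
  · nth_rewrite 1 [← Complex.norm_mul_exp_arg_mul_I w]
    rw [mul_assoc, ← Complex.exp_add]
    have e : (w.arg : ℂ) * Complex.I + ((Real.pi - w.arg : ℝ) : ℂ) * Complex.I = Real.pi * Complex.I := by
      push_cast
      ring
    rw [e, Complex.exp_pi_mul_I]
    ring

/-- the rotation `v` -/
theorem exists_v {A : ℝ} (hA1 : 0 ≤ A) {n : ℕ} (hn0 : (0 : ℝ) < n) (lam : ℂ) : ∃ v : ℂ,
    ‖v‖ ≤ (A + 7) / n ∧ (n : ℝ) * v.re = A ∧
      lam * Complex.exp (n * v) = -((Real.exp A * ‖lam‖ : ℝ) : ℂ) := by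
  obtain ⟨θ, hθ, hrot⟩ := exists_rot lam
  have hnC : (n : ℂ) ≠ 0 := by
    have := hn0.ne'
    exact_mod_cast this
  have hnv : (n : ℂ) * (((A : ℂ) + θ * Complex.I) / n) = A + θ * Complex.I := by
    field_simp
  refine ⟨((A : ℂ) + θ * Complex.I) / n, ?_, ?_, ?_⟩
  · rw [norm_div, Complex.norm_natCast]
    gcongr
    calc ‖(A : ℂ) + θ * Complex.I‖ ≤ ‖(A : ℂ)‖ + ‖(θ : ℂ) * Complex.I‖ := norm_add_le _ _
      _ = A + |θ| := by
        rw [norm_mul, Complex.norm_I, mul_one, Complex.norm_real, Complex.norm_real, Real.norm_eq_abs,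
          Real.norm_eq_abs, abs_of_nonneg hA1]
      _ ≤ A + 7 := by linarith
  · have := congrArg Complex.re hnv
    simpa using this
  · rw [hnv, Complex.exp_add, mul_comm (Complex.exp A), ← mul_assoc, hrot]
    push_cast
    ring

/-- the identity for the principal part -/
theorem prin {n : ℕ} {p0 d0 dt v lam : ℂ} {l : ℝ} (hp : p0 ≠ 0) (hd : d0 ≠ 0)
    (hlam : lam = n * d0 * p0 ^ n / p0) (h : lam * Complex.exp (n * v) = -(l : ℂ)) :
    (n : ℂ) * (dt * (p0 * Complex.exp v) ^ n / (p0 * Complex.exp v)) =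
      -(l : ℂ) * (dt / d0 * Complex.exp (-v)) := by
  rw [← h, mul_pow, ← Complex.exp_nat_mul, hlam, Complex.exp_neg]
  have h5 : Complex.exp v ≠ 0 := Complex.exp_ne_zero _
  field_simp

theorem xi_bound {n : ℕ} (hn0 : (0 : ℝ) < n) {d0 dt v : ℂ} {A B ρ1 c0 : ℝ} (hc0 : 0 < c0) (hd : c0 ≤ ‖d0‖)
    (hdt : ‖dt - d0‖ ≤ B * (ρ1 / n)) (hv : ‖v‖ ≤ (A + 7) / n) (hv1 : ‖v‖ ≤ 1) :
    ‖dt / d0 * Complex.exp (-v) - 1‖ ≤ (3 * (B * ρ1 / c0) + 2 * (A + 7)) / n := by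
  have hd0 : d0 ≠ 0 := by
    intro h
    rw [h, norm_zero] at hd
    linarith
  have e1 : dt / d0 * Complex.exp (-v) - 1 = (dt - d0) / d0 * Complex.exp (-v) + (Complex.exp (-v) - 1) := by
    field_simp
    ring
  have h3 : ‖Complex.exp (-v)‖ ≤ 3 := by
    rw [Complex.norm_exp]
    have h4 : (-v).re ≤ 1 := (Complex.re_le_norm _).trans (by rw [norm_neg]; exact hv1)
    have h5 : Real.exp (-v).re ≤ Real.exp 1 := Real.exp_le_exp.2 h4
    have h6 := Real.exp_one_lt_d9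
    linarith
  have h4 : ‖Complex.exp (-v) - 1‖ ≤ 2 * ((A + 7) / n) := by
    refine (Complex.norm_exp_sub_one_le (by rw [norm_neg]; exact hv1)).trans ?_
    rw [norm_neg]
    gcongr
  have h0 : 0 ≤ B * (ρ1 / n) := (norm_nonneg _).trans hdt
  calc ‖dt / d0 * Complex.exp (-v) - 1‖
      ≤ ‖(dt - d0) / d0 * Complex.exp (-v)‖ + ‖Complex.exp (-v) - 1‖ := by
        rw [e1]; exact norm_add_le _ _
    _ = ‖dt - d0‖ / ‖d0‖ * ‖Complex.exp (-v)‖ + ‖Complex.exp (-v) - 1‖ := by rw [norm_mul, norm_div]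
    _ ≤ (B * (ρ1 / n)) / c0 * 3 + 2 * ((A + 7) / n) := by gcongr
    _ = (3 * (B * ρ1 / c0) + 2 * (A + 7)) / n := by ring

theorem Env.exist1 (E : Env P M R CE L B η c0) {ε K1 : ℝ} (hε : 0 < ε) (hK1 : 0 < K1) :
    ∃ Kc : ℝ, 0 < Kc ∧ ∀ᶠ n : ℕ in atTop, ∀ t₀ : ℂ, ‖t₀‖ + 1 ≤ M → ε ≤ n * ‖P.eval t₀‖ ^ n →
      n * ‖P.eval t₀‖ ^ n ≤ K1 * Real.log n → ∃ t : ℂ, ‖t - t₀‖ ≤ Kc / n ∧ HypT P n t := by
  have hB := E.D.B1
  have hc0 := E.hc0
  have hCE : 1 ≤ CE := by rw [E.hCE]; linarith [E.M1, E.RM]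
  obtain ⟨C3, hC31, hC3⟩ := E.caseC2 (κ := 1 / c0) (by positivity)
  -- the factor `exp A`
  obtain ⟨A, hA1, hAexp⟩ : ∃ A : ℝ, 0 ≤ A ∧ C3 ≤ Real.exp A * (c0 * ε) := by
    refine ⟨Real.log (1 + C3 / (c0 * ε)), Real.log_nonneg (by
      have : 0 ≤ C3 / (c0 * ε) := by positivity
      linarith), ?_⟩
    rw [Real.exp_log (by positivity)]
    have : C3 / (c0 * ε) * (c0 * ε) = C3 := by field_simp
    nlinarith [mul_pos hc0 hε]
  obtain ⟨X, hX⟩ : ∃ X, X = Real.exp A := ⟨_, rfl⟩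
  have hX1 : 1 ≤ X := by rw [hX]; exact Real.one_le_exp hA1
  obtain ⟨K2, hK2⟩ : ∃ K2 : ℝ, K2 = 2 * X * B * K1 := ⟨_, rfl⟩
  have hK20 : 0 < K2 := by rw [hK2]; positivity
  obtain ⟨ρ1, hρ1⟩ : ∃ ρ1 : ℝ, ρ1 = 4 * (A + 7) / c0 := ⟨_, rfl⟩
  have hρ10 : 0 < ρ1 := by rw [hρ1]; positivity
  obtain ⟨κξ, hκξ⟩ : ∃ κξ : ℝ, κξ = 3 * (B * ρ1 / c0) + 2 * (A + 7) := ⟨_, rfl⟩
  have hκξ0 : 0 < κξ := by rw [hκξ]; positivity
  refine ⟨ρ1, hρ10, ?_⟩
  filter_upwards [hC3 K2 hK20.le, eventually_ge_atTop 1, ev_log 1 (X * K1) (δ := 1 / 2) (by norm_num),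
    ev_small (ρ := 1 - η) (by linarith [E.hη1]) (by linarith [E.hη0]) 1 (δ := ε / 2) (by positivity),
    ev_div (A + 7) one_pos, ev_div (B * ρ1) (δ := c0 / 2) (by positivity), ev_div ρ1 one_pos,
    ev_log 1 (K2 * κξ) one_pos, ev_log 2 ((2 * B + 8 * B ^ 2) * (X * K1) ^ 2) one_pos]
    with n h1 hn hl1 hq hv hBρ hρn hlκ hl2 t₀ ht₀ hy hyK
  rw [pow_one] at hl1 hq hlκ
  have hn0 : (0 : ℝ) < n := by exact_mod_cast hn
  have hn1 : (1 : ℝ) ≤ n := by exact_mod_cast hn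
  have hlogn : 0 ≤ Real.log n := Real.log_nonneg hn1
  obtain ⟨p0, hp0⟩ : ∃ p0, p0 = P.eval t₀ := ⟨_, rfl⟩
  obtain ⟨d0, hd0⟩ : ∃ d0, d0 = (derivative P).eval t₀ := ⟨_, rfl⟩
  rw [← hp0] at hy hyK
  obtain ⟨y0, hy0⟩ : ∃ y0, y0 = ‖p0‖ ^ n := ⟨_, rfl⟩
  rw [← hy0] at hy hyK
  have hy00 : 0 ≤ y0 := by rw [hy0]; positivity
  have hy0le : y0 ≤ K1 * (Real.log n / n) := by
    rw [← mul_div_assoc, le_div_iff₀ hn0, mul_comm]
    exact hyK
  have hXy0 : X * y0 ≤ 1 / 2 := by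
    calc X * y0 ≤ X * (K1 * (Real.log n / n)) := mul_le_mul_of_nonneg_left hy0le (by linarith)
      _ = X * K1 * (Real.log n / n) := by ring
      _ ≤ 1 / 2 := hl1
  have hy0h : y0 ≤ 1 / 2 := (le_mul_of_one_le_left hy00 hX1).trans hXy0
  have hp01 : ‖p0‖ ≤ 1 := by
    by_contra hcon
    push Not at hcon
    have : 1 ≤ y0 := by rw [hy0]; exact one_le_pow₀ hcon.le
    linarith
  have hp0η : 1 - η ≤ ‖p0‖ := by
    by_contra hcon
    push Not at hcon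
    have h2 : y0 ≤ (1 - η) ^ n := by rw [hy0]; exact pow_le_pow_left₀ (norm_nonneg _) hcon.le n
    have h3 : n * y0 ≤ n * (1 - η) ^ n := mul_le_mul_of_nonneg_left h2 hn0.le
    linarith
  have hp0h : 1 / 2 ≤ ‖p0‖ := by linarith [E.hη1]
  have hp00 : p0 ≠ 0 := by
    intro h
    rw [h, norm_zero] at hp0h
    linarith
  have hd0c : c0 ≤ ‖d0‖ := by
    rw [hd0]
    refine E.lem t₀ ?_
    rw [← hp0, abs_le]
    constructor <;> linarith [E.hη0]
  have hd00 : d0 ≠ 0 := by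
    intro h
    rw [h, norm_zero] at hd0c
    linarith
  have ht₀L : ‖t₀‖ ≤ L := by linarith [E.hL]
  obtain ⟨lam, hlam⟩ : ∃ lam : ℂ, lam = n * d0 * p0 ^ n / p0 := ⟨_, rfl⟩
  obtain ⟨v, hvn, hvre, hrot⟩ := exists_v hA1 hn0 lam
  rw [← hX] at hrot
  have hv1 : ‖v‖ ≤ 1 := hvn.trans hv
  obtain ⟨u, hu⟩ : ∃ u, u = p0 * Complex.exp v := ⟨_, rfl⟩
  have hexpv : ‖Complex.exp v - 1‖ ≤ 2 * ((A + 7) / n) :=
    (Complex.norm_exp_sub_one_le hv1).trans (mul_le_mul_of_nonneg_left hvn (by norm_num))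
  have hup : ‖u - p0‖ ≤ 2 * ((A + 7) / n) := by
    have e : u - p0 = p0 * (Complex.exp v - 1) := by rw [hu]; ring
    rw [e, norm_mul]
    calc ‖p0‖ * ‖Complex.exp v - 1‖ ≤ 1 * (2 * ((A + 7) / n)) :=
          mul_le_mul hp01 hexpv (norm_nonneg _) zero_le_one
      _ = _ := one_mul _
  have hρle : 2 * ‖u - P.eval t₀‖ / ‖d0‖ ≤ ρ1 / n := by
    rw [← hp0]
    calc 2 * ‖u - p0‖ / ‖d0‖ ≤ 2 * (2 * ((A + 7) / n)) / c0 := by gcongr
      _ = ρ1 / n := by rw [hρ1]; ring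
  obtain ⟨t, ht1, ht2⟩ := solve (g := fun z => P.eval z) (g' := fun z => (derivative P).eval z) (t := t₀)
    (w := u) (D := d0) hd00 (fun z hz => by
      refine ⟨P.hasDerivAt z, ?_⟩
      have hz1 : ‖z - t₀‖ ≤ ρ1 / n := hz.trans hρle
      have hzL : ‖z‖ ≤ L := by
        have : ‖z‖ ≤ ‖z - t₀‖ + ‖t₀‖ := by simpa using norm_add_le (z - t₀) t₀
        linarith [E.hL]
      have h2 : ‖(derivative P).eval z - d0‖ ≤ B * ‖z - t₀‖ := by rw [hd0]; exact E.D.lipD ht₀L hzL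
      have h3 : B * ‖z - t₀‖ ≤ B * (ρ1 / n) := mul_le_mul_of_nonneg_left hz1 (by linarith)
      have h4 : B * (ρ1 / n) = B * ρ1 / n := by ring
      have h5 : ‖(derivative P).eval z - d0‖ ≤ ‖d0‖ / 2 := by linarith
      exact h5)
  have ht3 : ‖t - t₀‖ ≤ ρ1 / n := ht1.trans hρle
  refine ⟨t, ht3, ?_⟩
  have htu : P.eval t = u := ht2
  have htM : ‖t‖ ≤ M := by
    have : ‖t‖ ≤ ‖t - t₀‖ + ‖t₀‖ := by simpa using norm_add_le (t - t₀) t₀
    linarith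
  have htL : ‖t‖ ≤ L := by linarith [E.hL]
  -- sizes
  obtain ⟨y1, hy1⟩ : ∃ y1, y1 = X * y0 := ⟨_, rfl⟩
  have hy10 : 0 ≤ y1 := by rw [hy1]; exact mul_nonneg (by linarith) hy00
  have hun : ‖P.eval t‖ ^ n = y1 := by
    rw [htu, hu, norm_mul, mul_pow, Complex.norm_exp, ← Real.exp_nat_mul, hvre, ← hX, hy1, hy0]
    ring
  have hu12 : 1 / 2 ≤ ‖P.eval t‖ := by
    rw [htu, hu, norm_mul, Complex.norm_exp]
    have h2 : 0 ≤ v.re := by
      by_contra hcon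
      push Not at hcon
      have : (n : ℝ) * v.re < 0 := mul_neg_of_pos_of_neg hn0 hcon
      linarith
    have h3 : 1 ≤ Real.exp v.re := Real.one_le_exp h2
    have h4 : ‖p0‖ * 1 ≤ ‖p0‖ * Real.exp v.re := mul_le_mul_of_nonneg_left h3 (norm_nonneg _)
    linarith
  obtain ⟨l, hl⟩ : ∃ l : ℝ, l = X * ‖lam‖ := ⟨_, rfl⟩
  rw [← hl] at hrot
  have hlamn : ‖lam‖ = n * ‖d0‖ * y0 / ‖p0‖ := by
    rw [hlam, norm_div, norm_mul, norm_mul, Complex.norm_natCast, norm_pow, ← hy0]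
  have hlam_lower : c0 * (n * y0) ≤ ‖lam‖ := by
    rw [hlamn, le_div_iff₀ (by linarith)]
    calc c0 * (n * y0) * ‖p0‖ ≤ c0 * (n * y0) * 1 := mul_le_mul_of_nonneg_left hp01 (by positivity)
      _ = (n * y0) * c0 := by ring
      _ ≤ (n * y0) * ‖d0‖ := mul_le_mul_of_nonneg_left hd0c (by positivity)
      _ = n * ‖d0‖ * y0 := by ring
  have hd0B : ‖d0‖ ≤ B := by rw [hd0]; exact E.D.bD t₀ ht₀L
  have hKl : 0 ≤ K1 * Real.log n := by positivity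
  have hlam_upper : ‖lam‖ ≤ 2 * B * (K1 * Real.log n) := by
    rw [hlamn, div_le_iff₀ (by linarith)]
    have h2 : ‖d0‖ * (n * y0) ≤ B * (K1 * Real.log n) :=
      mul_le_mul hd0B hyK (by positivity) (by linarith)
    have h3 : 2 * B * (K1 * Real.log n) * (1 / 2) ≤ 2 * B * (K1 * Real.log n) * ‖p0‖ :=
      mul_le_mul_of_nonneg_left hp0h (by positivity)
    linarith
  have hlC3 : C3 ≤ l := by
    rw [← hX] at hAexp
    have h2 : c0 * ε ≤ c0 * (n * y0) := mul_le_mul_of_nonneg_left hy hc0.le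
    have h3 : X * (c0 * ε) ≤ X * ‖lam‖ := mul_le_mul_of_nonneg_left (h2.trans hlam_lower) (by linarith)
    rw [hl]
    exact hAexp.trans h3
  have hlK2 : l ≤ K2 * Real.log n := by
    calc l ≤ X * (2 * B * (K1 * Real.log n)) := by
          rw [hl]; exact mul_le_mul_of_nonneg_left hlam_upper (by linarith)
      _ = K2 * Real.log n := by rw [hK2]; ring
  have hl0 : 0 < l := by linarith
  have hlnn : 0 ≤ Real.log n / n := by positivity
  refine h1 t htM l hlC3 hlK2 ?_ ?_ ?_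
  · rw [hun, hy1, hl]
    calc n * (X * y0) = 1 / c0 * (X * (c0 * (n * y0))) := by field_simp
      _ ≤ 1 / c0 * (X * ‖lam‖) := mul_le_mul_of_nonneg_left
        (mul_le_mul_of_nonneg_left hlam_lower (by linarith)) (by positivity)
  · rw [hun]
    have hTL : ‖T P n t t‖ ≤ L := by
      have := T_upper (P := P) (n := n) (t := t) (z := t)
      rw [hun] at this
      linarith [E.hL]
    have hyy : (2 * B + 8 * B ^ 2) * (n * (y1 * y1)) ≤ 1 := by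
      have h2 : n * y1 ≤ X * K1 * Real.log n := by
        calc n * y1 = X * (n * y0) := by rw [hy1]; ring
          _ ≤ X * (K1 * Real.log n) := mul_le_mul_of_nonneg_left hyK (by linarith)
          _ = _ := by ring
      have h3 : (n * y1) ^ 2 ≤ (X * K1 * Real.log n) ^ 2 := pow_le_pow_left₀ (by positivity) h2 2
      have h4 : n * (y1 * y1) ≤ (X * K1) ^ 2 * (Real.log n ^ 2 / n) := by
        rw [← mul_div_assoc, le_div_iff₀ hn0]
        calc n * (y1 * y1) * n = (n * y1) ^ 2 := by ring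
          _ ≤ (X * K1 * Real.log n) ^ 2 := h3
          _ = _ := by ring
      calc (2 * B + 8 * B ^ 2) * (n * (y1 * y1))
          ≤ (2 * B + 8 * B ^ 2) * ((X * K1) ^ 2 * (Real.log n ^ 2 / n)) :=
            mul_le_mul_of_nonneg_left h4 (by positivity)
        _ = (2 * B + 8 * B ^ 2) * (X * K1) ^ 2 * (Real.log n ^ 2 / n) := by ring
        _ ≤ 1 := hl2
    have hdt : ‖(derivative P).eval t - d0‖ ≤ B * (ρ1 / n) := by
      rw [hd0]
      exact (E.D.lipD ht₀L htL).trans (mul_le_mul_of_nonneg_left ht3 (by linarith))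
    have hxi := xi_bound hn0 hc0 hd0c hdt hvn hv1
    rw [← hκξ] at hxi
    refine est E.D hn0 htL hTL hu12 hun (by linarith) hl0 ?_ hxi ?_ hyy
    · rw [htu, hu]
      exact prin hp00 hd00 hlam hrot
    · calc l * (κξ / n) ≤ (K2 * Real.log n) * (κξ / n) := mul_le_mul_of_nonneg_right hlK2 (by positivity)
        _ = K2 * κξ * (Real.log n / n) := by ring
        _ ≤ 1 := hlκ
  · rw [hun]
    linarith

end Pool.Agent.Helper134.PP
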