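import Pool.Agent.Helper134_PP.CaseC

set_option autoImplicit false

open Polynomial Filter Topology Metric Set

namespace Pool.Agent.Helper134.PP

variable {P : ℂ[X]} {M R CE L B η c0 : ℝ}

theorem ring_of {a η : ℝ} {n : ℕ} (ha : 0 ≤ a) (hη : 0 < η) (h1 : (1 - η) ^ n < a ^ n)
    (h2 : a ^ n < (1 + η) ^ n) : |a - 1| ≤ η := by
  have h3 := lt_of_pow_lt_pow_left₀ n ha h1
  have h4 := lt_of_pow_lt_pow_left₀ n (by linarith) h2
  rw [abs_le]
  constructor <;> linarith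

theorem step2 {L B c0 s : ℝ} (D : Dat P L B) {z₀ : ℂ} (hz : ‖z₀‖ + 1 ≤ L) (hc0 : 0 < c0)
    (hd : c0 ≤ ‖(derivative P).eval z₀‖) (hp : ‖P.eval z₀‖ ≤ 3 / 2) (hs : 0 ≤ s) (h1 : 3 * s / c0 ≤ 1)
    (h2 : B * (3 * s / c0) ≤ c0 / 2) :
    ∃ z' : ℂ, ‖z' - z₀‖ ≤ 3 * s / c0 ∧ P.eval z' = P.eval z₀ * Real.exp (-s) := by
  have hB := D.B1
  have hd0 : (derivative P).eval z₀ ≠ 0 := by
    intro h
    rw [h, norm_zero] at hd
    linarith
  have hu : ‖P.eval z₀ * Real.exp (-s) - P.eval z₀‖ ≤ 3 / 2 * s := by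
    have e : P.eval z₀ * Real.exp (-s) - P.eval z₀ = P.eval z₀ * ((Real.exp (-s) - 1 : ℝ) : ℂ) := by
      push_cast; ring
    rw [e, norm_mul, Complex.norm_real, Real.norm_eq_abs]
    have h3 := Real.add_one_le_exp (-s)
    have h4 : Real.exp (-s) ≤ 1 := Real.exp_le_one_iff.2 (by linarith)
    have h5 : |Real.exp (-s) - 1| ≤ s := by
      rw [abs_le]
      constructor <;> linarith
    exact mul_le_mul hp h5 (abs_nonneg _) (by norm_num)
  have hρ : 2 * ‖P.eval z₀ * Real.exp (-s) - P.eval z₀‖ / ‖(derivative P).eval z₀‖ ≤ 3 * s / c0 := by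
    calc 2 * ‖P.eval z₀ * Real.exp (-s) - P.eval z₀‖ / ‖(derivative P).eval z₀‖
        ≤ 2 * (3 / 2 * s) / c0 := by gcongr
      _ = 3 * s / c0 := by ring
  obtain ⟨z', h3, h4⟩ := solve (g := fun z => P.eval z) (g' := fun z => (derivative P).eval z) (t := z₀)
    (w := P.eval z₀ * Real.exp (-s)) (D := (derivative P).eval z₀) hd0 (fun z hz' => by
      refine ⟨P.hasDerivAt z, ?_⟩
      have hz1 : ‖z - z₀‖ ≤ 3 * s / c0 := hz'.trans hρ
      have hzL : ‖z‖ ≤ L := by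
        have : ‖z‖ ≤ ‖z - z₀‖ + ‖z₀‖ := by simpa using norm_add_le (z - z₀) z₀
        linarith
      have h5 : ‖(derivative P).eval z - (derivative P).eval z₀‖ ≤ B * ‖z - z₀‖ := D.lipD (by linarith) hzL
      have h6 : B * ‖z - z₀‖ ≤ B * (3 * s / c0) := mul_le_mul_of_nonneg_left hz1 (by linarith)
      have h7 : ‖(derivative P).eval z - (derivative P).eval z₀‖ ≤ ‖(derivative P).eval z₀‖ / 2 := by linarith
      exact h7)
  exact ⟨z', h3.trans hρ, h4⟩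

theorem step3 {L B c0 ρ : ℝ} (D : Dat P L B) {n : ℕ} (hn : 1 ≤ n) {t₀ z' : ℂ} (ht : ‖t₀‖ + 1 ≤ L) (hc0 : 0 < c0)
    (hc1 : c0 ≤ 1) (hd : c0 ≤ ‖(derivative P).eval t₀‖) (hp : 1 / 2 ≤ ‖P.eval t₀‖) (hρ0 : 0 ≤ ρ)
    (hρ : 20 * B ^ 2 * ρ ≤ c0) (hb : 2 ≤ n * ‖P.eval t₀‖ ^ (n - 1) * c0)
    (hδ : 4 * ‖z' - T P n t₀ t₀‖ / (n * ‖P.eval t₀‖ ^ (n - 1) * c0) ≤ ρ / n) :
    ∃ t : ℂ, ‖t - t₀‖ ≤ 4 * ‖z' - T P n t₀ t₀‖ / (n * ‖P.eval t₀‖ ^ (n - 1) * c0) ∧ T P n t t = z' := by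
  have hB := D.B1
  have hn0 : (0 : ℝ) < n := by exact_mod_cast hn
  have hn1 : (1 : ℝ) ≤ n := by exact_mod_cast hn
  obtain ⟨p0, hp0⟩ : ∃ p0, p0 = P.eval t₀ := ⟨_, rfl⟩
  obtain ⟨d0, hd0⟩ : ∃ d0, d0 = (derivative P).eval t₀ := ⟨_, rfl⟩
  rw [← hp0] at hp hb hδ ⊢
  rw [← hd0] at hd
  obtain ⟨b, hbd⟩ : ∃ b, b = ‖p0‖ ^ (n - 1) := ⟨_, rfl⟩
  rw [← hbd] at hb hδ ⊢
  have hb0 : 0 ≤ b := by rw [hbd]; positivity
  have hp00 : p0 ≠ 0 := by
    intro h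
    rw [h, norm_zero] at hp
    linarith
  have hnbc : 0 < n * b * c0 := by linarith
  have hDl : n * b * c0 / 2 ≤ ‖(n : ℂ) * p0 ^ (n - 1) * d0 + 1‖ := by
    have h1 : ‖(n : ℂ) * p0 ^ (n - 1) * d0‖ ≤ ‖(n : ℂ) * p0 ^ (n - 1) * d0 + 1‖ + ‖(1 : ℂ)‖ := by
      simpa using norm_sub_le ((n : ℂ) * p0 ^ (n - 1) * d0 + 1) 1
    rw [norm_mul, norm_mul, Complex.norm_natCast, norm_pow, ← hbd, norm_one] at h1
    have h2 : n * b * c0 ≤ n * b * ‖d0‖ := mul_le_mul_of_nonneg_left hd (by positivity)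
    linarith
  obtain ⟨Dc, hDc⟩ : ∃ Dc : ℂ, Dc = (n : ℂ) * p0 ^ (n - 1) * d0 + 1 := ⟨_, rfl⟩
  rw [← hDc] at hDl
  have hDc0 : Dc ≠ 0 := by
    intro h
    rw [h, norm_zero] at hDl
    linarith
  have hrad : 2 * ‖z' - (fun z : ℂ => (P.eval z) ^ n + z) t₀‖ / ‖Dc‖ ≤ 4 * ‖z' - T P n t₀ t₀‖ / (n * b * c0) := by
    have e : (fun z : ℂ => (P.eval z) ^ n + z) t₀ = T P n t₀ t₀ := rfl
    rw [e, div_le_div_iff₀ (by linarith) hnbc]
    have h2 : 2 * ‖z' - T P n t₀ t₀‖ * (n * b * c0) ≤ 2 * ‖z' - T P n t₀ t₀‖ * (2 * ‖Dc‖) :=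
      mul_le_mul_of_nonneg_left (by linarith) (by positivity)
    linarith
  have hρB : 20 * B * (B * ρ) ≤ c0 := by
    have : 20 * B * (B * ρ) = 20 * B ^ 2 * ρ := by ring
    linarith
  have hBρ : B * ρ ≤ 1 / 20 := by
    have h3 : 20 * 1 * (B * ρ) ≤ 20 * B * (B * ρ) := by gcongr
    linarith
  obtain ⟨t, h3, h4⟩ := solve (g := fun z => (P.eval z) ^ n + z)
    (g' := fun z => (n : ℂ) * (P.eval z) ^ (n - 1) * (derivative P).eval z + 1) (t := t₀)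
    (w := z') (D := Dc) hDc0 (fun z hz' => by
      refine ⟨((P.hasDerivAt z).pow n).add (hasDerivAt_id z), ?_⟩
      have hz1 : ‖z - t₀‖ ≤ ρ / n := (hz'.trans hrad).trans hδ
      have hρn : ρ / n ≤ ρ := div_le_self hρ0 hn1
      have hρ1 : ρ ≤ 1 := by
        have : ρ ≤ B * ρ := le_mul_of_one_le_left hρ0 hB
        linarith
      have hzL : ‖z‖ ≤ L := by
        have : ‖z‖ ≤ ‖z - t₀‖ + ‖t₀‖ := by simpa using norm_add_le (z - t₀) t₀
        linarith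
      have h5 : ‖(derivative P).eval z - d0‖ ≤ B * ρ := by
        rw [hd0]
        exact (D.lipD (by linarith) hzL).trans (mul_le_mul_of_nonneg_left (hz1.trans hρn) (by linarith))
      obtain ⟨e, he⟩ : ∃ e, e = (P.eval z - p0) / p0 := ⟨_, rfl⟩
      have he1 : P.eval z = p0 * (1 + e) := by rw [he]; field_simp; ring
      have he2 : ‖e‖ ≤ 2 * (B * ρ) / n := by
        rw [he, norm_div, div_le_iff₀ (by linarith)]
        have h6 : ‖P.eval z - p0‖ ≤ B * (ρ / n) := by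
          rw [hp0]
          exact (D.lip (by linarith) hzL).trans (mul_le_mul_of_nonneg_left hz1 (by linarith))
        have h7 : 2 * (B * ρ) / n * (1 / 2) ≤ 2 * (B * ρ) / n * ‖p0‖ :=
          mul_le_mul_of_nonneg_left hp (by positivity)
        have h8 : 2 * (B * ρ) / n * (1 / 2) = B * (ρ / n) := by ring
        linarith
      have he3 : ((n - 1 : ℕ) : ℝ) * ‖e‖ ≤ 2 * (B * ρ) := by
        have h6 : ((n - 1 : ℕ) : ℝ) ≤ n := by exact_mod_cast Nat.sub_le n 1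
        calc ((n - 1 : ℕ) : ℝ) * ‖e‖ ≤ n * (2 * (B * ρ) / n) := mul_le_mul h6 he2 (norm_nonneg _) hn0.le
          _ = 2 * (B * ρ) := by field_simp
      have h6 : ‖(P.eval z) ^ (n - 1) - p0 ^ (n - 1)‖ ≤ b * (4 * (B * ρ)) := by
        have e1 : (P.eval z) ^ (n - 1) - p0 ^ (n - 1) = p0 ^ (n - 1) * ((1 + e) ^ (n - 1) - 1) := by
          rw [he1, mul_pow]; ring
        rw [e1, norm_mul, norm_pow, ← hbd]
        refine mul_le_mul_of_nonneg_left ((pow_sub_one e (n - 1)).trans ?_) hb0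
        have hx0 : 0 ≤ ((n - 1 : ℕ) : ℝ) * ‖e‖ := by positivity
        have h7 := Real.abs_exp_sub_one_le (x := ((n - 1 : ℕ) : ℝ) * ‖e‖) (by
          rw [abs_of_nonneg hx0]; linarith)
        rw [abs_of_nonneg hx0] at h7
        have h8 := le_abs_self (Real.exp (((n - 1 : ℕ) : ℝ) * ‖e‖) - 1)
        linarith
      have h7 : (n : ℂ) * (P.eval z) ^ (n - 1) * (derivative P).eval z + 1 - Dc
          = n * (((P.eval z) ^ (n - 1) - p0 ^ (n - 1)) * (derivative P).eval z +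
            p0 ^ (n - 1) * ((derivative P).eval z - d0)) := by
        rw [hDc]; ring
      have h8 : ‖((P.eval z) ^ (n - 1) - p0 ^ (n - 1)) * (derivative P).eval z +
            p0 ^ (n - 1) * ((derivative P).eval z - d0)‖ ≤ b * (4 * (B * ρ)) * B + b * (B * ρ) := by
        refine (norm_add_le _ _).trans (add_le_add ?_ ?_)
        · rw [norm_mul]
          exact mul_le_mul h6 (D.bD z hzL) (norm_nonneg _) (by positivity)
        · rw [norm_mul, norm_pow, ← hbd]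
          exact mul_le_mul_of_nonneg_left h5 hb0
      have h9 : b * (4 * (B * ρ)) * B + b * (B * ρ) ≤ b * (c0 / 4) := by
        have h10 : B * ρ ≤ B * (B * ρ) := le_mul_of_one_le_left (by positivity) hB
        have h11 : 4 * (B * ρ) * B + B * ρ ≤ c0 / 4 := by linarith
        have h12 := mul_le_mul_of_nonneg_left h11 hb0
        linarith
      have h13 : ‖(n : ℂ) * (P.eval z) ^ (n - 1) * (derivative P).eval z + 1 - Dc‖ ≤ ‖Dc‖ / 2 := by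
        rw [h7, norm_mul, Complex.norm_natCast]
        have h14 := mul_le_mul_of_nonneg_left (h8.trans h9) hn0.le
        linarith
      exact h13)
  exact ⟨t, h3.trans hrad, h4⟩

theorem Env.exist2 (E : Env P M R CE L B η c0) :
    ∃ K1 : ℝ, 0 < K1 ∧ ∃ Kd : ℝ, 0 < Kd ∧ ∀ᶠ n : ℕ in atTop, ∀ t₀ : ℂ, ‖t₀‖ + 1 ≤ M →
      K1 * Real.log n ≤ n * ‖P.eval t₀‖ ^ n → ‖P.eval t₀‖ ^ n ≤ CE →
      ∃ t : ℂ, ‖t - t₀‖ * (n * ‖P.eval t₀‖ ^ n) ≤ Kd * (Real.log n / n) ∧ ‖t - t₀‖ ≤ Kd / n ∧ HypT P n t := by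
  have hB := E.D.B1
  have hc0 := E.hc0
  have hc1 := E.hc1
  have hCE : 4 ≤ CE := by rw [E.hCE]; linarith [E.M1, E.RM]
  obtain ⟨K1, hK1⟩ : ∃ K1 : ℝ, K1 = 1800 * B ^ 2 / c0 ^ 3 := ⟨_, rfl⟩
  have hK1c : 1800 * B ^ 2 ≤ K1 * c0 := by
    have h1 : K1 * c0 * c0 ^ 2 = 1800 * B ^ 2 := by rw [hK1]; field_simp
    have h2 : c0 ^ 2 ≤ 1 := pow_le_one₀ hc0.le hc1
    have h3 : 0 ≤ K1 * c0 := by rw [hK1]; positivity
    nlinarith
  have hB2 : 1 ≤ B ^ 2 := one_le_pow₀ hB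
  have hK10 : 0 < K1 := by rw [hK1]; positivity
  have hK1c0 : 1800 ≤ K1 * c0 := by linarith
  have hK11 : 1 ≤ K1 := by
    have : K1 * c0 ≤ K1 * 1 := mul_le_mul_of_nonneg_left hc1 hK10.le
    linarith
  obtain ⟨Kd, hKd⟩ : ∃ Kd : ℝ, Kd = 90 / c0 ^ 2 := ⟨_, rfl⟩
  have hKd1 : 90 ≤ Kd := by
    rw [hKd, le_div_iff₀ (by positivity)]
    have h2 : c0 ^ 2 ≤ 1 := pow_le_one₀ hc0.le hc1
    linarith
  refine ⟨K1, hK10, Kd, by linarith, ?_⟩
  obtain ⟨ρ, hρd⟩ : ∃ ρ : ℝ, ρ = c0 / (20 * B ^ 2) := ⟨_, rfl⟩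
  have hρ0 : 0 < ρ := by rw [hρd]; positivity
  have hρ : 20 * B ^ 2 * ρ = c0 := by rw [hρd]; field_simp
  have hρK : 90 = ρ * (c0 ^ 2 * K1) := by rw [hρd, hK1]; field_simp; norm_num
  have htop : Tendsto (fun n : ℕ => (1 + η) ^ n) atTop atTop :=
    tendsto_pow_atTop_atTop_of_one_lt (by linarith [E.hη0])
  filter_upwards [E.caseE2, E.caseC1, eventually_ge_atTop 1, htop.eventually_gt_atTop CE,
    (Real.tendsto_log_atTop.comp tendsto_natCast_atTop_atTop).eventually_ge_atTop (1 : ℝ),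
    ev_small (ρ := 1 - η) (by linarith [E.hη1]) (by linarith [E.hη0]) 1 (δ := 1 / 2) (by norm_num),
    ev_small (ρ := 1 - η) (by linarith [E.hη1]) (by linarith [E.hη0]) 4 (δ := 1 / 2) (by norm_num),
    ev_log 1 (15 / c0) one_pos, ev_log 1 (B * (15 / c0)) (δ := c0 / 2) (by positivity), ev_ge CE]
    with n hE2 hC1 hn htopn hlog hq1 hq4 hl1 hl2 hnCE t₀ ht₀ hy hyC
  rw [pow_one] at hl1 hl2 hq1
  have hlog' : 1 ≤ Real.log n := hlog
  have hn0 : (0 : ℝ) < n := by exact_mod_cast hn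
  have hn1 : (1 : ℝ) ≤ n := by exact_mod_cast hn
  have htM : ‖t₀‖ ≤ M := by linarith
  have hlnn : 0 ≤ Real.log n / n := by positivity
  have htriv : ∀ h : HypT P n t₀, ∃ t : ℂ, ‖t - t₀‖ * (n * ‖P.eval t₀‖ ^ n) ≤ Kd * (Real.log n / n) ∧
      ‖t - t₀‖ ≤ Kd / n ∧ HypT P n t := fun h => by
    refine ⟨t₀, ?_, ?_, h⟩
    · rw [sub_self, norm_zero, zero_mul]
      exact mul_nonneg (by linarith) hlnn
    · rw [sub_self, norm_zero]
      exact div_nonneg (by linarith) hn0.le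
  rcases le_or_gt CE (‖P.eval (T P n t₀ t₀)‖ ^ n) with hc | hc
  · exact htriv (hE2 t₀ htM (by linarith) hc)
  rcases le_or_gt ((n : ℝ) ^ 4 * ‖P.eval (T P n t₀ t₀)‖ ^ n) 1 with hd | hd
  · exact htriv (hC1 t₀ htM (by linarith) hd)
  -- the remaining case
  have hz0L : ‖T P n t₀ t₀‖ + 1 ≤ L := by
    have := T_upper (P := P) (n := n) (t := t₀) (z := t₀)
    linarith [E.hL]
  have hringz : |‖P.eval (T P n t₀ t₀)‖ - 1| ≤ η := by
    refine ring_of (norm_nonneg _) E.hη0 ?_ (hc.trans htopn)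
    have h4 : (0 : ℝ) < n ^ 4 := by positivity
    have h5 : (n : ℝ) ^ 4 * (1 - η) ^ n < (n : ℝ) ^ 4 * ‖P.eval (T P n t₀ t₀)‖ ^ n := by linarith
    exact lt_of_mul_lt_mul_left h5 h4.le
  have hK1l : K1 ≤ K1 * Real.log n := le_mul_of_one_le_right hK10.le hlog'
  have hringt : |‖P.eval t₀‖ - 1| ≤ η := by
    refine ring_of (norm_nonneg _) E.hη0 ?_ (hyC.trans_lt htopn)
    have h5 : (n : ℝ) * (1 - η) ^ n < n * ‖P.eval t₀‖ ^ n := by linarith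
    exact lt_of_mul_lt_mul_left h5 hn0.le
  have hdz := E.lem _ hringz
  have hdt := E.lem _ hringt
  have hpz : ‖P.eval (T P n t₀ t₀)‖ ≤ 3 / 2 := by
    rw [abs_le] at hringz
    linarith [E.hη1]
  have hpt : ‖P.eval t₀‖ ≤ 3 / 2 ∧ 1 / 2 ≤ ‖P.eval t₀‖ := by
    rw [abs_le] at hringt
    constructor <;> linarith [E.hη1]
  obtain ⟨s, hs⟩ : ∃ s : ℝ, s = 5 * (Real.log n / n) := ⟨_, rfl⟩
  have hs0 : 0 ≤ s := by rw [hs]; positivity
  have hsc : 3 * s / c0 = 15 / c0 * (Real.log n / n) := by rw [hs]; ring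
  have hns : n * s = 5 * Real.log n := by rw [hs]; field_simp
  obtain ⟨z', hz1, hz2⟩ := step2 (s := s) E.D hz0L hc0 hdz hpz hs0 (by rw [hsc]; exact hl1) (by
    rw [hsc, ← mul_assoc]; exact hl2)
  rw [hsc] at hz1
  have hPz' : (n : ℝ) ^ 4 * ‖P.eval z'‖ ^ n ≤ 1 := by
    have e1 : ‖P.eval z'‖ ^ n = ‖P.eval (T P n t₀ t₀)‖ ^ n * Real.exp (-(5 * Real.log n)) := by
      rw [hz2, norm_mul, mul_pow, Complex.norm_real, Real.norm_of_nonneg (Real.exp_pos _).le,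
        ← Real.exp_nat_mul, ← hns]
      congr 2
      ring
    have e2 : Real.exp (-(5 * Real.log n)) * (n : ℝ) ^ 5 = 1 := by
      have : (n : ℝ) ^ 5 = Real.exp (5 * Real.log n) := by
        rw [mul_comm, Real.exp_mul, Real.exp_log hn0]
        norm_cast
      rw [this, ← Real.exp_add]
      simp
    have h6 : (n : ℝ) ^ 4 * ‖P.eval z'‖ ^ n * n = ‖P.eval (T P n t₀ t₀)‖ ^ n := by
      rw [e1]
      calc (n : ℝ) ^ 4 * (‖P.eval (T P n t₀ t₀)‖ ^ n * Real.exp (-(5 * Real.log n))) * n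
          = ‖P.eval (T P n t₀ t₀)‖ ^ n * (Real.exp (-(5 * Real.log n)) * (n : ℝ) ^ 5) := by ring
        _ = _ := by rw [e2, mul_one]
    have h7 : (n : ℝ) ^ 4 * ‖P.eval z'‖ ^ n * n ≤ 1 * n := by rw [h6]; linarith
    exact le_of_mul_le_mul_right h7 hn0
  obtain ⟨b, hb⟩ : ∃ b, b = ‖P.eval t₀‖ ^ (n - 1) := ⟨_, rfl⟩
  obtain ⟨y0, hy0⟩ : ∃ y0, y0 = ‖P.eval t₀‖ ^ n := ⟨_, rfl⟩
  have hb0 : 0 ≤ b := by rw [hb]; positivity
  have hyb : y0 = b * ‖P.eval t₀‖ := by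
    rw [hb, hy0, ← pow_succ, Nat.sub_add_cancel hn]
  have hyb2 : y0 ≤ 3 / 2 * b := by
    rw [hyb, mul_comm]
    exact mul_le_mul_of_nonneg_right hpt.1 hb0
  rw [← hy0] at hy hyC
  have hnbc : 2 / 3 * c0 * (K1 * Real.log n) ≤ n * b * c0 := by
    have h8 : n * y0 ≤ n * (3 / 2 * b) := mul_le_mul_of_nonneg_left hyb2 hn0.le
    have h9 : K1 * Real.log n ≤ 3 / 2 * (n * b) := by linarith
    have h10 := mul_le_mul_of_nonneg_left h9 (show 0 ≤ 2 / 3 * c0 by positivity)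
    linarith
  have hnbc2 : 2 ≤ n * b * c0 := by
    have h11 : K1 * c0 * 1 ≤ K1 * c0 * Real.log n := mul_le_mul_of_nonneg_left hlog' (by linarith)
    linarith
  have hδ : 4 * ‖z' - T P n t₀ t₀‖ / (n * b * c0) ≤ ρ / n := by
    rw [div_le_div_iff₀ (by linarith) hn0]
    have h12 : 4 * ‖z' - T P n t₀ t₀‖ * n ≤ 4 * (15 / c0 * Real.log n) := by
      have h13 := mul_le_mul_of_nonneg_right hz1 hn0.le
      have e : 15 / c0 * (Real.log n / n) * n = 15 / c0 * Real.log n := by field_simp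
      linarith
    have h14 : ρ * (2 / 3 * c0 * (K1 * Real.log n)) ≤ ρ * (n * b * c0) :=
      mul_le_mul_of_nonneg_left hnbc hρ0.le
    have e2 : ρ * (2 / 3 * c0 * (K1 * Real.log n)) * c0 = 4 * (15 / c0 * Real.log n) * c0 := by
      have e3 : 4 * (15 / c0 * Real.log n) * c0 = 60 * Real.log n := by field_simp; norm_num
      rw [e3]
      calc ρ * (2 / 3 * c0 * (K1 * Real.log n)) * c0 = 2 / 3 * (ρ * (c0 ^ 2 * K1)) * Real.log n := by ring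
        _ = 60 * Real.log n := by rw [← hρK]; ring
    have e4 := mul_right_cancel₀ hc0.ne' e2
    linarith
  rw [hb] at hnbc2 hδ
  obtain ⟨t, ht1, ht2⟩ := step3 (c0 := c0) (ρ := ρ) E.D hn (by linarith [E.hL]) hc0 hc1 hdt hpt.2 hρ0.le hρ.le
    hnbc2 hδ
  rw [← hb] at ht1 hnbc2 hδ
  have ht3 : ‖t - t₀‖ ≤ ρ / n := ht1.trans hδ
  have hBρ : B * ρ ≤ 1 / 20 := by
    have h3 : 20 * 1 * (B * ρ) ≤ 20 * B * (B * ρ) := by gcongr
    have h4 : 20 * B * (B * ρ) = 20 * B ^ 2 * ρ := by ring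
    linarith
  have hρ1 : ρ ≤ 1 / 20 := by
    have : ρ ≤ B * ρ := le_mul_of_one_le_left hρ0.le hB
    linarith
  have hρn : ρ / n ≤ ρ := div_le_self hρ0.le hn1
  have htM' : ‖t‖ ≤ M := by
    have : ‖t‖ ≤ ‖t - t₀‖ + ‖t₀‖ := by simpa using norm_add_le (t - t₀) t₀
    linarith
  refine ⟨t, ?_, ?_, hC1 t htM' ?_ ?_⟩
  · rw [← hy0]
    have h15 : ‖t - t₀‖ * (n * b * c0) ≤ 4 * ‖z' - T P n t₀ t₀‖ := by
      rw [le_div_iff₀ (by linarith)] at ht1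
      exact ht1
    have h16 : ‖t - t₀‖ * (n * y0) ≤ ‖t - t₀‖ * (n * (3 / 2 * b)) := by gcongr
    have h17 : ‖t - t₀‖ * (n * (3 / 2 * b)) * c0 ≤ 6 * (15 / c0 * (Real.log n / n)) := by
      calc ‖t - t₀‖ * (n * (3 / 2 * b)) * c0 = 3 / 2 * (‖t - t₀‖ * (n * b * c0)) := by ring
        _ ≤ 3 / 2 * (4 * ‖z' - T P n t₀ t₀‖) := by linarith
        _ ≤ 6 * (15 / c0 * (Real.log n / n)) := by linarith
    have h18 : Kd * (Real.log n / n) * c0 = 6 * (15 / c0 * (Real.log n / n)) := by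
      rw [hKd]; field_simp; norm_num
    have h19 : ‖t - t₀‖ * (n * (3 / 2 * b)) ≤ Kd * (Real.log n / n) := by
      rw [← h18] at h17
      exact le_of_mul_le_mul_right h17 hc0
    exact h16.trans h19
  · refine ht3.trans ?_
    gcongr
    linarith
  · have h20 := E.D.pow_disc (t := t₀) (z := t) (r := ρ / n) (by linarith [E.hL]) (by linarith) (by
      have : B * (ρ / n) ≤ B * ρ := mul_le_mul_of_nonneg_left hρn (by linarith)
      linarith) ht3 n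
    have e5 : 2 * (n : ℝ) * (B * (ρ / n)) = 2 * (B * ρ) := by field_simp
    rw [e5, ← hy0] at h20
    have h21 := Real.abs_exp_sub_one_le (x := 2 * (B * ρ)) (by
      rw [abs_of_nonneg (by positivity)]; linarith)
    rw [abs_of_nonneg (show 0 ≤ 2 * (B * ρ) by positivity)] at h21
    have h22 := le_abs_self (Real.exp (2 * (B * ρ)) - 1)
    have h23 : Real.exp (2 * (B * ρ)) ≤ 6 / 5 := by linarith
    have h24 : y0 * Real.exp (2 * (B * ρ)) ≤ CE * (6 / 5) :=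
      mul_le_mul hyC h23 (Real.exp_pos _).le (by linarith)
    have h25 : (3 / 4 : ℝ) ^ n ≤ 1 := pow_le_one₀ (by norm_num) (by norm_num)
    linarith
  · rw [ht2]
    exact hPz'

end Pool.Agent.Helper134.PP
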