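import Pool.Agent.Helper134_PP.Area2

set_option autoImplicit false

open Polynomial Filter Topology Metric Set MeasureTheory

namespace Pool.Agent.Helper134.PP

theorem final {P : ℂ[X]} (hP : 0 < P.natDegree)
    (hcrit : ∀ y : ℂ, (derivative P).eval y = 0 → ‖P.eval y‖ ≠ 1) {M : ℝ} (hM : 0 ≤ M) :
    ∃ K : ℝ, 0 < K ∧ ∀ᶠ n : ℕ in atTop, ∀ t₀ : ℂ, ‖t₀‖ ≤ M →
      (¬ HypT P n t₀ → 1 / K ≤ n * ‖P.eval t₀‖ ^ n ∧ ‖P.eval t₀‖ ^ n ≤ K) ∧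
      (∃ t : ℂ, ‖t - t₀‖ ≤ K / n ∧ ‖t - t₀‖ * ‖P.eval t₀‖ ^ n ≤ K * Real.log n / n ^ 2 ∧ HypT P n t) ∧
      volume {t ∈ closedBall t₀ (1 / n) | ¬ HypT P n t} * ENNReal.ofReal (‖P.eval t₀‖ ^ n) ≤
        ENNReal.ofReal (K * Real.log n / n ^ 3) := by
  obtain ⟨K1, hK1, h1⟩ := main hP hcrit hM
  obtain ⟨K2, hK2, h2⟩ := area3 hP hcrit hM
  refine ⟨K1 + K2, by positivity, ?_⟩
  filter_upwards [h1, h2, eventually_ge_atTop 1] with n h1 h2 hn t₀ ht₀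
  have hn1 : (1 : ℝ) ≤ n := by exact_mod_cast hn
  have hn0 : (0 : ℝ) < n := by linarith
  have hlog0 : 0 ≤ Real.log n := Real.log_nonneg hn1
  obtain ⟨ha, t, hb, hc, hd⟩ := h1 t₀ ht₀
  refine ⟨fun hh => ?_, ⟨t, hb.trans ?_, hc.trans ?_, hd⟩, (h2 t₀ ht₀).trans ?_⟩
  · obtain ⟨h3, h4⟩ := ha hh
    refine ⟨le_trans ?_ h3, h4.trans (by linarith)⟩
    exact one_div_le_one_div_of_le hK1 (by linarith)
  · gcongr
    linarith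
  · gcongr
    linarith
  · apply ENNReal.ofReal_le_ofReal
    gcongr
    linarith

end Pool.Agent.Helper134.PP
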