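import Pool.Agent.Helper134_PP.Exist1
import Pool.Agent.Helper134_PP.Exist2

set_option autoImplicit false

open Polynomial Filter Topology Metric Set

namespace Pool.Agent.Helper134.PP

theorem large {Q : ℂ[X]} (hQ : 0 < Q.natDegree) (c : ℝ) : ∃ R : ℝ, ∀ z : ℂ, R ≤ ‖z‖ → c ≤ ‖Q.eval z‖ := by
  have h := Q.tendsto_norm_atTop (natDegree_pos_iff_degree_pos.1 hQ) (l := comap (fun z : ℂ => ‖z‖) atTop)
    (z := fun z => z) tendsto_comap
  have h2 := h.eventually_ge_atTop c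
  rw [eventually_comap] at h2
  obtain ⟨R, hR⟩ := eventually_atTop.1 h2
  exact ⟨R, fun z hz => hR ‖z‖ hz z rfl⟩

theorem growth {P : ℂ[X]} (hP : 0 < P.natDegree) (M : ℝ) : ∃ R : ℝ, M ≤ R ∧
    ∀ z : ℂ, R ≤ ‖z‖ → 2 ≤ ‖P.eval z‖ ∧ ‖z‖ ≤ ‖P.eval z‖ ^ 2 := by
  obtain ⟨R1, h1⟩ := large hP 2
  have hQ : 0 < (divX (P ^ 2)).natDegree := by
    rw [natDegree_divX_eq_natDegree_tsub_one, natDegree_pow]
    omega
  obtain ⟨R2, h2⟩ := large hQ 2
  refine ⟨max M (max R1 (max R2 ‖(P ^ 2).coeff 0‖)), le_max_left _ _, fun z hz => ?_⟩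
  have hz1 : R1 ≤ ‖z‖ := ((le_max_left _ _).trans (le_max_right _ _)).trans hz
  have hz2 : R2 ≤ ‖z‖ := (((le_max_left _ _).trans (le_max_right _ _)).trans (le_max_right _ _)).trans hz
  have hz3 : ‖(P ^ 2).coeff 0‖ ≤ ‖z‖ :=
    (((le_max_right _ _).trans (le_max_right _ _)).trans (le_max_right _ _)).trans hz
  refine ⟨h1 z hz1, ?_⟩
  have e : (P.eval z) ^ 2 = (divX (P ^ 2)).eval z * z + (P ^ 2).coeff 0 := by
    have := congrArg (fun q : ℂ[X] => q.eval z) (divX_mul_X_add (P ^ 2))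
    simp only [eval_add, eval_mul, eval_X, eval_C, eval_pow] at this
    exact this.symm
  rw [← norm_pow, e]
  have h3 := h2 z hz2
  have h4 : ‖(divX (P ^ 2)).eval z * z‖ ≤ ‖(divX (P ^ 2)).eval z * z + (P ^ 2).coeff 0‖ + ‖(P ^ 2).coeff 0‖ := by
    have h := norm_sub_le ((divX (P ^ 2)).eval z * z + (P ^ 2).coeff 0) ((P ^ 2).coeff 0)
    rw [add_sub_cancel_right] at h
    exact h
  rw [norm_mul] at h4
  have h5 : 2 * ‖z‖ ≤ ‖(divX (P ^ 2)).eval z‖ * ‖z‖ := by gcongr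
  linarith

theorem lemniscate {P : ℂ[X]} (hP : 0 < P.natDegree)
    (hcrit : ∀ y : ℂ, (derivative P).eval y = 0 → ‖P.eval y‖ ≠ 1) :
    ∃ η c0 : ℝ, 0 < η ∧ η ≤ 1 / 2 ∧ 0 < c0 ∧ c0 ≤ 1 ∧
      (∀ z : ℂ, |‖P.eval z‖ - 1| ≤ η → c0 ≤ ‖(derivative P).eval z‖) ∧
      ∀ c : ℂ, (derivative P).eval c = 0 → ‖P.eval c‖ ≤ 1 - η ∨ 1 + η ≤ ‖P.eval c‖ := by
  obtain ⟨R, hR⟩ := large hP 3
  obtain ⟨φ, hφ⟩ : ∃ φ : ℂ → ℝ, φ = fun z => max |‖P.eval z‖ - 1| ‖(derivative P).eval z‖ := ⟨_, rfl⟩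
  have hcont : Continuous φ := by
    rw [hφ]
    exact ((P.continuous.norm.sub continuous_const).abs).max (derivative P).continuous.norm
  have hpos : ∀ z, 0 < φ z := by
    intro z
    rw [hφ]
    by_cases h : (derivative P).eval z = 0
    · refine lt_max_of_lt_left (abs_pos.2 (sub_ne_zero.2 (hcrit z h)))
    · exact lt_max_of_lt_right (norm_pos_iff.2 h)
  obtain ⟨δ, hδ0, hδ⟩ : ∃ δ : ℝ, 0 < δ ∧ ∀ z : ℂ, ‖z‖ ≤ R → δ ≤ φ z := by
    rcases (closedBall (0 : ℂ) R).eq_empty_or_nonempty with h | h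
    · refine ⟨1, one_pos, fun z hz => ?_⟩
      have : z ∈ closedBall (0 : ℂ) R := by simpa using hz
      rw [h] at this
      exact absurd this (by simp)
    · obtain ⟨x, -, hx⟩ := (isCompact_closedBall (0 : ℂ) R).exists_isMinOn h hcont.continuousOn
      exact ⟨φ x, hpos x, fun z hz => hx (by simpa using hz)⟩
  have key : ∀ z : ℂ, |‖P.eval z‖ - 1| < min δ 1 → min δ 1 ≤ ‖(derivative P).eval z‖ := by
    intro z hz
    have hzR : ‖z‖ ≤ R := by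
      by_contra hcon
      push Not at hcon
      have h1 := hR z hcon.le
      have h2 := (abs_lt.1 (hz.trans_le (min_le_right _ _))).2
      linarith
    have h3 := hδ z hzR
    rw [hφ] at h3
    rcases le_max_iff.1 h3 with h4 | h4
    · exact absurd (h4.trans_lt hz) (not_lt.2 (min_le_left _ _))
    · exact (min_le_left _ _).trans h4
  have hm : 0 < min δ 1 := lt_min hδ0 one_pos
  refine ⟨min δ 1 / 2, min δ 1, by linarith, by linarith [min_le_right δ 1], hm, min_le_right _ _,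
    fun z hz => key z (by linarith), fun c hc => ?_⟩
  by_contra hcon
  push Not at hcon
  have h1 : |‖P.eval c‖ - 1| < min δ 1 := by
    rw [abs_lt]
    constructor <;> linarith [hcon.1, hcon.2]
  have h2 := key c h1
  rw [hc, norm_zero] at h2
  linarith

theorem exists_env {P : ℂ[X]} (hP : 0 < P.natDegree)
    (hcrit : ∀ y : ℂ, (derivative P).eval y = 0 → ‖P.eval y‖ ≠ 1) {M : ℝ} (hM : 1 ≤ M) :
    ∃ R CE L B η c0 : ℝ, Env P M R CE L B η c0 := by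
  obtain ⟨R, hMR, hR⟩ := growth hP M
  obtain ⟨η, c0, h1, h2, h3, h4, h5, h6⟩ := lemniscate hP hcrit
  obtain ⟨B, hB⟩ := exists_dat P (M + 2 * (2 * (R + M)) + 2)
  exact ⟨R, 2 * (R + M), M + 2 * (2 * (R + M)) + 2, B, η, c0, ⟨hB, hM, hMR, rfl, le_rfl, hR, h1, h2, h3, h4,
    h5, h6⟩⟩

theorem main {P : ℂ[X]} (hP : 0 < P.natDegree)
    (hcrit : ∀ y : ℂ, (derivative P).eval y = 0 → ‖P.eval y‖ ≠ 1) {M : ℝ} (hM : 0 ≤ M) :
    ∃ K : ℝ, 0 < K ∧ ∀ᶠ n : ℕ in atTop, ∀ t₀ : ℂ, ‖t₀‖ ≤ M →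
      (¬ HypT P n t₀ → 1 / K ≤ n * ‖P.eval t₀‖ ^ n ∧ ‖P.eval t₀‖ ^ n ≤ K) ∧
      ∃ t : ℂ, ‖t - t₀‖ ≤ K / n ∧ ‖t - t₀‖ * ‖P.eval t₀‖ ^ n ≤ K * Real.log n / n ^ 2 ∧ HypT P n t := by
  obtain ⟨R, CE, L, B, η, c0, E⟩ := exists_env hP hcrit (M := M + 1) (by linarith)
  obtain ⟨ε, hε, hA⟩ := E.caseA
  obtain ⟨K1, hK1, Kd, hKd, h2⟩ := E.exist2
  obtain ⟨Kc, hKc, h1⟩ := E.exist1 hε hK1
  have hCE : 4 ≤ CE := by rw [E.hCE]; linarith [E.M1, E.RM]
  refine ⟨1 / ε + CE + Kd + Kc + Kc * K1, by positivity, ?_⟩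
  filter_upwards [hA, h1, h2, E.caseE1, eventually_ge_atTop 3] with n hA h1 h2 hE hn t₀ ht₀
  have hn0 : (0 : ℝ) < n := by exact_mod_cast (by omega : 0 < n)
  have hn1 : (1 : ℝ) ≤ n := by exact_mod_cast (by omega : 1 ≤ n)
  have hlog0 : 0 ≤ Real.log n := Real.log_nonneg hn1
  have ht1 : ‖t₀‖ + 1 ≤ M + 1 := by linarith
  have ht2 : ‖t₀‖ ≤ M + 1 := by linarith
  obtain ⟨K, hK⟩ : ∃ K, K = 1 / ε + CE + Kd + Kc + Kc * K1 := ⟨_, rfl⟩
  rw [← hK]
  have hKK : 0 < Kc * K1 := by positivity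
  have hε1 : 0 < 1 / ε := by positivity
  have hK0 : 0 < K := by rw [hK]; positivity
  obtain ⟨y, hy⟩ : ∃ y, y = ‖P.eval t₀‖ ^ n := ⟨_, rfl⟩
  have hy0 : 0 ≤ y := by rw [hy]; positivity
  rw [← hy]
  have hquot : 0 ≤ K * Real.log n / n ^ 2 := by positivity
  have htriv : ∀ h : HypT P n t₀, ∃ t : ℂ, ‖t - t₀‖ ≤ K / n ∧ ‖t - t₀‖ * y ≤ K * Real.log n / n ^ 2 ∧
      HypT P n t := fun h => by
    refine ⟨t₀, ?_, ?_, h⟩
    · rw [sub_self, norm_zero]; positivity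
    · rw [sub_self, norm_zero, zero_mul]; exact hquot
  rcases le_or_gt (n * y) ε with ha | ha
  · have hh : HypT P n t₀ := hA t₀ ht2 (by rw [← hy]; exact ha)
    exact ⟨fun hc => absurd hh hc, htriv hh⟩
  rcases le_or_gt CE y with hb | hb
  · have hh : HypT P n t₀ := hE t₀ ht2 (by rw [← hy]; exact hb)
    exact ⟨fun hc => absurd hh hc, htriv hh⟩
  refine ⟨fun _ => ⟨?_, ?_⟩, ?_⟩
  · have h3 : 1 / K ≤ ε := by
      rw [div_le_iff₀ hK0]
      have h4 : ε * (1 / ε) = 1 := by field_simp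
      have h5 : ε * (1 / ε) ≤ ε * K := mul_le_mul_of_nonneg_left (by rw [hK]; linarith) hε.le
      linarith
    linarith
  · rw [hK]; linarith
  · rcases le_or_gt (K1 * Real.log n) (n * y) with hc | hc
    · obtain ⟨t, h3, h4, h5⟩ := h2 t₀ ht1 (by rw [← hy]; exact hc) (by rw [← hy]; exact hb.le)
      rw [← hy] at h3
      refine ⟨t, h4.trans ?_, ?_, h5⟩
      · gcongr
        rw [hK]; linarith
      · rw [le_div_iff₀ (by positivity)]
        have h6 : ‖t - t₀‖ * (n * y) * n ≤ Kd * (Real.log n / n) * n := by gcongr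
        have h7 : Kd * (Real.log n / n) * n = Kd * Real.log n := by field_simp
        have h8 : Kd * Real.log n ≤ K * Real.log n := by
          gcongr
          rw [hK]; linarith
        calc ‖t - t₀‖ * y * n ^ 2 = ‖t - t₀‖ * (n * y) * n := by ring
          _ ≤ K * Real.log n := by linarith
    · obtain ⟨t, h3, h5⟩ := h1 t₀ ht1 (by rw [← hy]; exact ha.le) (by rw [← hy]; exact hc.le)
      refine ⟨t, h3.trans ?_, ?_, h5⟩
      · gcongr
        rw [hK]; linarith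
      · rw [le_div_iff₀ (by positivity)]
        have h6 : ‖t - t₀‖ * (n * y) * n ≤ Kc / n * (K1 * Real.log n) * n := by
          gcongr
        have h7 : Kc / n * (K1 * Real.log n) * n = Kc * K1 * Real.log n := by field_simp
        have h8 : Kc * K1 * Real.log n ≤ K * Real.log n := by
          gcongr
          rw [hK]; linarith
        calc ‖t - t₀‖ * y * n ^ 2 = ‖t - t₀‖ * (n * y) * n := by ring
          _ ≤ K * Real.log n := by linarith

end Pool.Agent.Helper134.PP
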