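import Pool.Agent.Helper134_PP.Final

set_option autoImplicit false

open Polynomial Filter Topology Metric Set MeasureTheory

namespace Pool.Agent.Helper134.PP

theorem cell_bound {P : ℂ[X]} {n : ℕ} {M b ys : ℝ} {Z : Set ℂ} (hb : 0 ≤ b) (hys : 0 < ys)
    (hZd : ∀ t ∈ Z, ∀ t' ∈ Z, ‖t - t'‖ ≤ 1 / n) (hZb : ∀ t ∈ Z, ‖t‖ ≤ M ∧ ¬ HypT P n t)
    (hloc : ∀ t₀ : ℂ, ‖t₀‖ ≤ M → volume {t ∈ closedBall t₀ (1 / n) | ¬ HypT P n t} *
      ENNReal.ofReal (‖P.eval t₀‖ ^ n) ≤ ENNReal.ofReal b)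
    (hy : ∀ t ∈ Z, ys ≤ ‖P.eval t‖ ^ n) : volume Z ≤ ENNReal.ofReal (b / ys) := by
  rcases Z.eq_empty_or_nonempty with h | ⟨t', ht'⟩
  · rw [h, measure_empty]; exact bot_le
  have h1 : Z ⊆ {t ∈ closedBall t' (1 / (n : ℝ)) | ¬ HypT P n t} := fun t ht =>
    ⟨by rw [mem_closedBall, dist_eq_norm]; exact hZd t ht t' ht', (hZb t ht).2⟩
  have h2 := hloc t' (hZb t' ht').1
  have h3 := hy t' ht'
  have h4 : 0 < ‖P.eval t'‖ ^ n := hys.trans_le h3
  refine (measure_mono h1).trans ?_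
  have h5 : volume {t ∈ closedBall t' (1 / (n : ℝ)) | ¬ HypT P n t} ≤
      ENNReal.ofReal b / ENNReal.ofReal (‖P.eval t'‖ ^ n) := by
    rw [ENNReal.le_div_iff_mul_le (Or.inl (ENNReal.ofReal_pos.2 h4).ne') (Or.inl ENNReal.ofReal_ne_top)]
    exact h2
  refine h5.trans ?_
  rw [← ENNReal.ofReal_div_of_pos h4]
  apply ENNReal.ofReal_le_ofReal
  exact div_le_div_of_nonneg_left hb hys h3

theorem cell_triv {n : ℕ} (hn : 1 ≤ n) {Z : Set ℂ} (hZd : ∀ t ∈ Z, ∀ t' ∈ Z, ‖t - t'‖ ≤ 1 / n) :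
    volume Z ≤ ENNReal.ofReal (Real.pi / n ^ 2) := by
  rcases Z.eq_empty_or_nonempty with h | ⟨t', ht'⟩
  · rw [h, measure_empty]; exact bot_le
  have h1 : Z ⊆ closedBall t' (1 / (n : ℝ)) := fun t ht => by
    rw [mem_closedBall, dist_eq_norm]; exact hZd t ht t' ht'
  refine (measure_mono h1).trans ?_
  rw [Pool.Agent.Helper134.AR.volume_cball t' (by positivity)]
  apply ENNReal.ofReal_le_ofReal
  apply le_of_eq
  ring

/-- the bad parameters in one disc -/
theorem one_disc {P : ℂ[X]} {n : ℕ} (hn : 3 ≤ n) {M K1 c0 σ : ℝ} {c : ℂ} {l : ℂ → ℂ} (hc0 : 0 < c0)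
    (hK1 : 1 ≤ K1) (hlog : 1 ≤ Real.log n) (hll : 1 ≤ Real.log (Real.log n))
    (hsep : ∀ t ∈ ball c σ, ∀ t' ∈ ball c σ, ‖t - t'‖ ≤ 2 / c0 * ‖l t - l t'‖)
    (hre : ∀ t ∈ ball c σ, 0 < ‖P.eval t‖ ∧ (l t).re = Real.log ‖P.eval t‖ - Real.log ‖P.eval c‖)
    (him : ∀ t ∈ ball c σ, |(l t).im| ≤ 4)
    (hwin : ∀ t : ℂ, ‖t‖ ≤ M → ¬ HypT P n t → 1 / K1 ≤ n * ‖P.eval t‖ ^ n ∧ ‖P.eval t‖ ^ n ≤ K1)
    (hloc : ∀ t₀ : ℂ, ‖t₀‖ ≤ M → volume {t ∈ closedBall t₀ (1 / n) | ¬ HypT P n t} *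
      ENNReal.ofReal (‖P.eval t₀‖ ^ n) ≤ ENNReal.ofReal (K1 * Real.log n / n ^ 3)) :
    volume {t ∈ ball c σ | ‖t‖ ≤ M ∧ ¬ HypT P n t} ≤ ENNReal.ofReal
      ((40 / c0 + 5) * 2 * (K1 / (1 - Real.exp (-(c0 / 4))) + Real.pi * (4 / c0 * (1 + Real.log K1) + 2)) *
        (Real.log (Real.log n) / n)) := by
  have hn0 : (0 : ℝ) < n := by exact_mod_cast (by omega : 0 < n)
  have hn1 : (1 : ℝ) ≤ n := by exact_mod_cast (by omega : 1 ≤ n)
  have hpi := Real.pi_pos
  obtain ⟨κ, hκ⟩ : ∃ κ : ℝ, κ = c0 / 4 := ⟨_, rfl⟩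
  have hκ0 : 0 < κ := by rw [hκ]; positivity
  have hlK : 0 ≤ Real.log K1 := Real.log_nonneg hK1
  obtain ⟨s, hs⟩ : ∃ s : ℝ, s = Real.log n - Real.log (Real.log n) := ⟨_, rfl⟩
  obtain ⟨v, hv⟩ : ∃ v : ℂ → ℝ, v = fun t => -(n * Real.log ‖P.eval t‖) := ⟨_, rfl⟩
  have hvy : ∀ t ∈ ball c σ, ‖P.eval t‖ ^ n = Real.exp (-v t) := by
    intro t ht
    rw [hv]
    show _ = Real.exp (- -(n * Real.log ‖P.eval t‖))
    rw [neg_neg, mul_comm, Real.exp_mul, Real.exp_log (hre t ht).1, Real.rpow_natCast]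
  obtain ⟨q, hq⟩ : ∃ q : ℝ, q = Real.exp (-κ) := ⟨_, rfl⟩
  have hq0 : 0 < q := by rw [hq]; exact Real.exp_pos _
  have hq1 : q < 1 := by rw [hq]; rw [← Real.exp_zero]; exact Real.exp_lt_exp.2 (by linarith)
  -- the cells
  obtain ⟨low, hlow⟩ : ∃ low : ℤ → ℕ → Set ℂ, low = fun (k : ℤ) (m : ℕ) => {t ∈ ball c σ | (‖t‖ ≤ M ∧ ¬ HypT P n t) ∧
    (κ * k ≤ n * (l t).im ∧ n * (l t).im < κ * (k + 1)) ∧ (κ * m ≤ s - v t ∧ s - v t < κ * (m + 1))} := ⟨_, rfl⟩
  obtain ⟨high, hhigh⟩ : ∃ high : ℤ → ℕ → Set ℂ, high = fun (k : ℤ) (m : ℕ) => {t ∈ ball c σ | (‖t‖ ≤ M ∧ ¬ HypT P n t) ∧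
    (κ * k ≤ n * (l t).im ∧ n * (l t).im < κ * (k + 1)) ∧ (κ * m ≤ v t - s ∧ v t - s < κ * (m + 1))} := ⟨_, rfl⟩
  have hdiam : ∀ t ∈ ball c σ, ∀ t' ∈ ball c σ, |n * (l t).im - n * (l t').im| ≤ κ → |v t - v t'| ≤ κ →
      ‖t - t'‖ ≤ 1 / n := by
    intro t ht t' ht' h1 h2
    have h3 : n * |(l t - l t').re| ≤ κ := by
      have e : v t - v t' = -(n * (l t - l t').re) := by
        rw [Complex.sub_re, (hre t ht).2, (hre t' ht').2, hv]
        ring
      rw [e, abs_neg, abs_mul, abs_of_pos hn0] at h2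
      exact h2
    have h4 : n * |(l t - l t').im| ≤ κ := by
      have e : n * (l t).im - n * (l t').im = n * (l t - l t').im := by rw [Complex.sub_im]; ring
      rw [e, abs_mul, abs_of_pos hn0] at h1
      exact h1
    have h5 := Complex.norm_le_abs_re_add_abs_im (l t - l t')
    have h6 := hsep t ht t' ht'
    rw [le_div_iff₀ hn0]
    have h7 : n * ‖l t - l t'‖ ≤ 2 * κ := by
      have := mul_le_mul_of_nonneg_left h5 hn0.le
      linarith
    calc ‖t - t'‖ * n ≤ 2 / c0 * ‖l t - l t'‖ * n := mul_le_mul_of_nonneg_right h6 hn0.le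
      _ = 2 / c0 * (n * ‖l t - l t'‖) := by ring
      _ ≤ 2 / c0 * (2 * κ) := mul_le_mul_of_nonneg_left h7 (by positivity)
      _ = 1 := by rw [hκ]; field_simp; norm_num
  have hlowd : ∀ k m, ∀ t ∈ low k m, ∀ t' ∈ low k m, ‖t - t'‖ ≤ 1 / n := by
    intro k m t ht t' ht'
    rw [hlow] at ht ht'
    obtain ⟨h0, -, ⟨h1, h2⟩, h3, h4⟩ := ht
    obtain ⟨g0, -, ⟨g1, g2⟩, g3, g4⟩ := ht'
    refine hdiam t h0 t' g0 ?_ ?_
    · rw [abs_le]; constructor <;> linarith
    · rw [abs_le]; constructor <;> linarith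
  have hhighd : ∀ k m, ∀ t ∈ high k m, ∀ t' ∈ high k m, ‖t - t'‖ ≤ 1 / n := by
    intro k m t ht t' ht'
    rw [hhigh] at ht ht'
    obtain ⟨h0, -, ⟨h1, h2⟩, h3, h4⟩ := ht
    obtain ⟨g0, -, ⟨g1, g2⟩, g3, g4⟩ := ht'
    refine hdiam t h0 t' g0 ?_ ?_
    · rw [abs_le]; constructor <;> linarith
    · rw [abs_le]; constructor <;> linarith
  have hlowv : ∀ k m, volume (low k m) ≤ ENNReal.ofReal (K1 / n ^ 2 * q ^ m) := by
    intro k m
    have hqm : 0 < q ^ m := by positivity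
    have hlog0 : 0 < Real.log n := by linarith
    have h1 : volume (low k m) ≤ ENNReal.ofReal (K1 * Real.log n / n ^ 3 / (Real.log n / n / q ^ m)) := by
      refine cell_bound (P := P) (n := n) (M := M) (by positivity) (by positivity) (hlowd k m) ?_ hloc ?_
      · intro t ht
        rw [hlow] at ht
        exact ht.2.1
      · intro t ht
        rw [hlow] at ht
        obtain ⟨h0, -, -, h3, -⟩ := ht
        rw [hvy t h0]
        have e1 : Real.log n / n / q ^ m = Real.exp (-s + κ * m) := by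
          rw [hq, ← Real.exp_nat_mul, Real.exp_add, hs, neg_sub, Real.exp_sub, Real.exp_log hlog0,
            Real.exp_log hn0, div_eq_mul_inv (Real.log n / n), ← Real.exp_neg]
          congr 2
          ring
        rw [e1]
        apply Real.exp_le_exp.2
        linarith
    refine h1.trans (le_of_eq ?_)
    congr 1
    field_simp
  have hhighv : ∀ k m, volume (high k m) ≤ ENNReal.ofReal (Real.pi / n ^ 2) := fun k m =>
    cell_triv (by omega) (hhighd k m)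
  -- ranges
  obtain ⟨N, hN⟩ : ∃ N : ℤ, N = ⌈4 * n / κ⌉ + 1 := ⟨_, rfl⟩
  obtain ⟨Nl, hNl⟩ : ∃ Nl : ℕ, Nl = ⌈(Real.log n + Real.log K1) / κ⌉₊ + 1 := ⟨_, rfl⟩
  obtain ⟨Nh, hNh⟩ : ∃ Nh : ℕ, Nh = ⌊(Real.log (Real.log n) + Real.log K1) / κ⌋₊ + 1 := ⟨_, rfl⟩
  have hcover : {t ∈ ball c σ | ‖t‖ ≤ M ∧ ¬ HypT P n t} ⊆ ⋃ k ∈ Finset.Icc (-N) N,
      ((⋃ m ∈ Finset.range Nl, low k m) ∪ ⋃ m ∈ Finset.range Nh, high k m) := by
    rintro t ⟨ht, htb⟩
    obtain ⟨hw1, hw2⟩ := hwin t htb.1 htb.2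
    rw [hvy t ht] at hw1 hw2
    have hv1 : v t ≤ Real.log n + Real.log K1 := by
      have h1 : 1 / K1 / n ≤ Real.exp (-v t) := by rw [div_le_iff₀ hn0, mul_comm]; exact hw1
      have h2 := Real.log_le_log (by positivity) h1
      rw [Real.log_exp, Real.log_div (by positivity) hn0.ne', Real.log_div one_ne_zero (by positivity),
        Real.log_one] at h2
      linarith
    have hv2 : -Real.log K1 ≤ v t := by
      have h2 := Real.log_le_log (Real.exp_pos _) hw2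
      rw [Real.log_exp] at h2
      linarith
    obtain ⟨k, hk⟩ : ∃ k : ℤ, k = ⌊n * (l t).im / κ⌋ := ⟨_, rfl⟩
    have hk1 : κ * k ≤ n * (l t).im := by
      have h1 : (k : ℝ) ≤ n * (l t).im / κ := by rw [hk]; exact Int.floor_le _
      rw [le_div_iff₀ hκ0] at h1
      linarith
    have hk2 : n * (l t).im < κ * (k + 1) := by
      have h1 : n * (l t).im / κ < k + 1 := by rw [hk]; exact Int.lt_floor_add_one _
      rw [div_lt_iff₀ hκ0] at h1
      linarith
    have him' := abs_le.1 (him t ht)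
    have hkN : k ∈ Finset.Icc (-N) N := by
      have h4 : 4 * n / κ ≤ (⌈4 * n / κ⌉ : ℝ) := Int.le_ceil _
      have h5 : 4 * (n : ℝ) = 4 * n / κ * κ := by field_simp
      rw [Finset.mem_Icc]
      constructor
      · have h6 : (-N : ℝ) ≤ k := by
          rw [hN]
          push_cast
          have h7 : -(4 * (n : ℝ)) ≤ n * (l t).im := by
            have := mul_le_mul_of_nonneg_left him'.1 hn0.le
            linarith
          have h8 : -(4 * n / κ) * κ < (k + 1) * κ := by linarith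
          have h9 := lt_of_mul_lt_mul_right h8 hκ0.le
          linarith
        exact_mod_cast h6
      · have h6 : (k : ℝ) ≤ N := by
          rw [hN]
          push_cast
          have h7 : n * (l t).im ≤ 4 * n := by
            have := mul_le_mul_of_nonneg_left him'.2 hn0.le
            linarith
          have h8 : k * κ ≤ 4 * n / κ * κ := by linarith
          have h9 := le_of_mul_le_mul_right h8 hκ0
          linarith
        exact_mod_cast h6
    rw [mem_iUnion₂]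
    refine ⟨k, hkN, ?_⟩
    rcases le_or_gt (v t) s with hc | hc
    · left
      rw [mem_iUnion₂]
      refine ⟨⌊(s - v t) / κ⌋₊, ?_, ?_⟩
      · rw [Finset.mem_range, hNl]
        have h1 : (s - v t) / κ ≤ (Real.log n + Real.log K1) / κ := by
          gcongr
          linarith
        have h2 := (Nat.floor_le_floor h1).trans (Nat.floor_le_ceil _)
        omega
      · rw [hlow]
        refine ⟨ht, htb, ⟨hk1, hk2⟩, ?_, ?_⟩
        · have h1 := Nat.floor_le (show 0 ≤ (s - v t) / κ by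
            apply div_nonneg _ hκ0.le; linarith)
          rw [le_div_iff₀ hκ0] at h1
          linarith
        · have h1 := Nat.lt_floor_add_one ((s - v t) / κ)
          rw [div_lt_iff₀ hκ0] at h1
          linarith
    · right
      rw [mem_iUnion₂]
      refine ⟨⌊(v t - s) / κ⌋₊, ?_, ?_⟩
      · rw [Finset.mem_range, hNh]
        have h1 : (v t - s) / κ ≤ (Real.log (Real.log n) + Real.log K1) / κ := by
          gcongr
          linarith
        have h2 := Nat.floor_le_floor h1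
        omega
      · rw [hhigh]
        refine ⟨ht, htb, ⟨hk1, hk2⟩, ?_, ?_⟩
        · have h1 := Nat.floor_le (show 0 ≤ (v t - s) / κ by
            apply div_nonneg _ hκ0.le; linarith)
          rw [le_div_iff₀ hκ0] at h1
          linarith
        · have h1 := Nat.lt_floor_add_one ((v t - s) / κ)
          rw [div_lt_iff₀ hκ0] at h1
          linarith
  have hsumlow : ∀ k, volume (⋃ m ∈ Finset.range Nl, low k m) ≤ ENNReal.ofReal (K1 / n ^ 2 * (1 / (1 - q))) := by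
    intro k
    refine (measure_biUnion_finset_le _ _).trans ((Finset.sum_le_sum fun m _ => hlowv k m).trans ?_)
    rw [← ENNReal.ofReal_sum_of_nonneg (fun m _ => by positivity), ← Finset.mul_sum]
    apply ENNReal.ofReal_le_ofReal
    apply mul_le_mul_of_nonneg_left _ (by positivity)
    rw [geom_sum_eq hq1.ne, ← neg_div_neg_eq, neg_sub, neg_sub]
    have h1 : 0 < 1 - q := by linarith
    have h2 : 0 ≤ q ^ Nl := by positivity
    gcongr
    linarith
  have hsumhigh : ∀ k, volume (⋃ m ∈ Finset.range Nh, high k m) ≤ ENNReal.ofReal (Nh * (Real.pi / n ^ 2)) := by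
    intro k
    refine (measure_biUnion_finset_le _ _).trans ((Finset.sum_le_card_nsmul _ _ _ fun m _ => hhighv k m).trans ?_)
    rw [Finset.card_range, nsmul_eq_mul, ENNReal.ofReal_mul (Nat.cast_nonneg _), ENNReal.ofReal_natCast]
  have hNh1 : (Nh : ℝ) ≤ 4 / c0 * (Real.log (Real.log n) + Real.log K1) + 1 := by
    rw [hNh]
    push_cast
    have h1 := Nat.floor_le (show 0 ≤ (Real.log (Real.log n) + Real.log K1) / κ by positivity)
    have h2 : (Real.log (Real.log n) + Real.log K1) / κ = 4 / c0 * (Real.log (Real.log n) + Real.log K1) := by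
      rw [hκ]; field_simp
    linarith
  have hcard : ((Finset.Icc (-N) N).card : ℝ) ≤ (40 / c0 + 5) * n := by
    have hNp : 0 ≤ N := by
      rw [hN]
      have : 0 ≤ ⌈4 * (n : ℝ) / κ⌉ := Int.ceil_nonneg (by positivity)
      linarith
    have h1 : ((Finset.Icc (-N) N).card : ℤ) = 2 * N + 1 := by
      rw [Int.card_Icc]
      have : N + 1 - -N = 2 * N + 1 := by ring
      rw [this, Int.toNat_of_nonneg (by linarith)]
    have h2 : ((Finset.Icc (-N) N).card : ℝ) = 2 * N + 1 := by exact_mod_cast h1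
    have h3 : (⌈4 * (n : ℝ) / κ⌉ : ℝ) ≤ 4 * n / κ + 1 := (Int.ceil_lt_add_one _).le
    have h4 : 4 * (n : ℝ) / κ = 16 / c0 * n := by rw [hκ]; field_simp; norm_num
    rw [h2, hN]
    push_cast
    have h5 : 0 ≤ 8 / c0 * (n : ℝ) := by positivity
    have h6 : 40 / c0 * (n : ℝ) = 2 * (16 / c0 * n) + 8 / c0 * n := by ring
    rw [add_mul, h6]
    linarith
  refine (measure_mono hcover).trans ((measure_biUnion_finset_le _ _).trans ?_)
  have hterm : ∀ k ∈ Finset.Icc (-N) N, volume ((⋃ m ∈ Finset.range Nl, low k m) ∪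
      ⋃ m ∈ Finset.range Nh, high k m) ≤ ENNReal.ofReal (K1 / n ^ 2 * (1 / (1 - q)) + Nh * (Real.pi / n ^ 2)) := by
    intro k _
    rw [ENNReal.ofReal_add (by
      have : 0 < 1 - q := by linarith
      positivity) (by positivity)]
    exact (measure_union_le _ _).trans (add_le_add (hsumlow k) (hsumhigh k))
  refine (Finset.sum_le_card_nsmul _ _ _ hterm).trans ?_
  rw [nsmul_eq_mul, ← ENNReal.ofReal_natCast, ← ENNReal.ofReal_mul (Nat.cast_nonneg _)]
  apply ENNReal.ofReal_le_ofReal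
  have hq1' : 0 < 1 - q := by linarith
  obtain ⟨G, hG⟩ : ∃ G, G = K1 / (1 - q) := ⟨_, rfl⟩
  have hG0 : 0 ≤ G := by rw [hG]; positivity
  have e1 : K1 / n ^ 2 * (1 / (1 - q)) + Nh * (Real.pi / n ^ 2) = (G + Real.pi * Nh) / n ^ 2 := by
    rw [hG]; field_simp
  have hqe : Real.exp (-(c0 / 4)) = q := by rw [hq, hκ]
  rw [e1, hqe, ← hG]
  have h1 : G + Real.pi * Nh ≤ 2 * (G + Real.pi * (4 / c0 * (1 + Real.log K1) + 2)) * Real.log (Real.log n) := by
    obtain ⟨LL, hLL⟩ : ∃ LL, LL = Real.log (Real.log n) := ⟨_, rfl⟩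
    rw [← hLL] at hll hNh1 ⊢
    have h2 : G ≤ 2 * G * LL := by
      have : G * 1 ≤ G * LL := mul_le_mul_of_nonneg_left hll hG0
      linarith
    have h3 : (Nh : ℝ) ≤ 2 * (4 / c0 * (1 + Real.log K1) + 2) * LL := by
      have h4 : 4 / c0 * Real.log K1 * 1 ≤ 4 / c0 * Real.log K1 * LL :=
        mul_le_mul_of_nonneg_left hll (by positivity)
      have h5 : 0 ≤ 4 / c0 * LL := by positivity
      have h6 : 0 ≤ 4 / c0 * Real.log K1 * LL := by positivity
      linarith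
    have h7 := mul_le_mul_of_nonneg_left h3 hpi.le
    linarith
  have h2 : 0 ≤ (G + Real.pi * Nh) / n ^ 2 := by positivity
  calc ((Finset.Icc (-N) N).card : ℝ) * ((G + Real.pi * Nh) / n ^ 2)
      ≤ ((40 / c0 + 5) * n) * ((G + Real.pi * Nh) / n ^ 2) := mul_le_mul_of_nonneg_right hcard h2
    _ ≤ ((40 / c0 + 5) * n) * ((2 * (G + Real.pi * (4 / c0 * (1 + Real.log K1) + 2)) *
        Real.log (Real.log n)) / n ^ 2) := by gcongr
    _ = (40 / c0 + 5) * 2 * (G + Real.pi * (4 / c0 * (1 + Real.log K1) + 2)) *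
        (Real.log (Real.log n) / n) := by field_simp

end Pool.Agent.Helper134.PP
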