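import Pool.Agent.Helper134_PP.Total

set_option autoImplicit false

open Polynomial Filter Topology Metric Set MeasureTheory

namespace Pool.Agent.Helper134.PP

theorem total {P : ℂ[X]} (hP : 0 < P.natDegree)
    (hcrit : ∀ y : ℂ, (derivative P).eval y = 0 → ‖P.eval y‖ ≠ 1) {M : ℝ} (hM : 0 ≤ M) :
    ∃ K : ℝ, 0 < K ∧ ∀ᶠ n : ℕ in atTop,
      volume {t : ℂ | ‖t‖ ≤ M ∧ ¬ HypT P n t} ≤ ENNReal.ofReal (K * (Real.log (Real.log n) / n)) := by
  obtain ⟨K0, hK0, hf⟩ := final hP hcrit hM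
  obtain ⟨η, c0, hη0, hη1, hc0, hc1, hlem, -⟩ := lemniscate hP hcrit
  obtain ⟨B, D⟩ := exists_dat P (M + 2)
  have hB := D.B1
  obtain ⟨K1, hK1⟩ : ∃ K1, K1 = K0 + 1 := ⟨_, rfl⟩
  have hK11 : 1 ≤ K1 := by linarith
  obtain ⟨σ, hσ⟩ : ∃ σ : ℝ, σ = c0 / (480 * B ^ 2) := ⟨_, rfl⟩
  have hσ0 : 0 < σ := by rw [hσ]; positivity
  have hσ1 : 480 * B ^ 2 * σ = c0 := by rw [hσ]; field_simp
  obtain ⟨Rg, hRg⟩ : ∃ Rg : Set ℂ, Rg = {t | ‖t‖ ≤ M ∧ |‖P.eval t‖ - 1| ≤ η} := ⟨_, rfl⟩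
  have hRc : IsCompact Rg := by
    refine (isCompact_closedBall (0 : ℂ) M).of_isClosed_subset ?_ ?_
    · rw [hRg]
      exact (isClosed_le continuous_norm continuous_const).inter
        (isClosed_le ((P.continuous.norm.sub continuous_const).abs) continuous_const)
    · rw [hRg]
      intro t ht
      simpa using ht.1
  obtain ⟨F, hFs, hFf, hF⟩ := hRc.finite_cover_balls hσ0
  obtain ⟨W, hW⟩ : ∃ W : ℝ, W = (40 / c0 + 5) * 2 * (K1 / (1 - Real.exp (-(c0 / 4))) +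
    Real.pi * (4 / c0 * (1 + Real.log K1) + 2)) := ⟨_, rfl⟩
  have hlK : 0 ≤ Real.log K1 := Real.log_nonneg hK11
  have hpi := Real.pi_pos
  have hexp1 : Real.exp (-(c0 / 4)) < 1 := by
    rw [← Real.exp_zero]; exact Real.exp_lt_exp.2 (by linarith)
  have hW0 : 0 ≤ W := by
    have h1 : 0 < 1 - Real.exp (-(c0 / 4)) := by linarith
    rw [hW]; positivity
  refine ⟨hFf.toFinset.card * W + 1, by positivity, ?_⟩
  have htop : Tendsto (fun n : ℕ => (1 + η) ^ n) atTop atTop :=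
    tendsto_pow_atTop_atTop_of_one_lt (by linarith)
  have hlogt := Real.tendsto_log_atTop.comp (tendsto_natCast_atTop_atTop (R := ℝ))
  filter_upwards [hf, eventually_ge_atTop 3, htop.eventually_gt_atTop K1, hlogt.eventually_ge_atTop (1 : ℝ),
    (Real.tendsto_log_atTop.comp hlogt).eventually_ge_atTop (1 : ℝ),
    ev_small (ρ := 1 - η) (by linarith) (by linarith) 1 (δ := 1 / (2 * K1)) (by positivity)]
    with n hf hn htopn hlog hll hq
  rw [pow_one] at hq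
  have hlog' : 1 ≤ Real.log n := hlog
  have hll' : 1 ≤ Real.log (Real.log n) := hll
  have hn0 : (0 : ℝ) < n := by exact_mod_cast (by omega : 0 < n)
  have hwin : ∀ t : ℂ, ‖t‖ ≤ M → ¬ HypT P n t → 1 / K1 ≤ n * ‖P.eval t‖ ^ n ∧ ‖P.eval t‖ ^ n ≤ K1 := by
    intro t ht hb
    obtain ⟨h1, h2⟩ := (hf t ht).1 hb
    refine ⟨le_trans ?_ h1, h2.trans (by linarith)⟩
    exact one_div_le_one_div_of_le hK0 (by linarith)
  have hloc : ∀ t₀ : ℂ, ‖t₀‖ ≤ M → volume {t ∈ closedBall t₀ (1 / n) | ¬ HypT P n t} *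
      ENNReal.ofReal (‖P.eval t₀‖ ^ n) ≤ ENNReal.ofReal (K1 * Real.log n / n ^ 3) := by
    intro t₀ ht₀
    refine (hf t₀ ht₀).2.2.trans (ENNReal.ofReal_le_ofReal ?_)
    have : 0 ≤ Real.log n := by linarith
    gcongr
    linarith
  have hpiece : ∀ c ∈ F, volume {t ∈ ball c σ | ‖t‖ ≤ M ∧ ¬ HypT P n t} ≤
      ENNReal.ofReal (W * (Real.log (Real.log n) / n)) := by
    intro c hc
    have hcR := hFs hc
    rw [hRg] at hcR
    obtain ⟨hcM, hcη⟩ := hcR
    have hdc := hlem c hcη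
    have hpc : ‖P.eval c‖ ≤ 3 / 2 ∧ 1 / 2 ≤ ‖P.eval c‖ := by
      rw [abs_le] at hcη
      constructor <;> linarith
    have hPc : P.eval c ≠ 0 := by
      intro h
      have := hpc.2
      rw [h, norm_zero] at this
      linarith
    obtain ⟨Λ, hΛ⟩ : ∃ Λ : ℂ, Λ = (derivative P).eval c / P.eval c := ⟨_, rfl⟩
    have hnear : ∀ t ∈ ball c σ, ‖P.eval t / P.eval c - 1‖ < 1 ∧
        ‖(derivative P).eval t / P.eval t - Λ‖ ≤ ‖Λ‖ / 4 := by
      intro t ht
      rw [mem_ball, dist_eq_norm] at ht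
      have h := l_near (P := P) D (z₁ := c) (z := t) (g' := 1) (D0 := 1) (Δ := σ) (by linarith) hc0 hc1 hdc
        hpc.2 hpc.1 hσ0.le hσ1.le ht.le (by simp)
      simp only [mul_one] at h
      rw [hΛ]
      exact h
    have hPt : ∀ t ∈ ball c σ, P.eval t ≠ 0 := by
      intro t ht h
      have := (hnear t ht).1
      rw [h, zero_div, zero_sub, norm_neg, norm_one] at this
      exact lt_irrefl _ this
    have hld : ∀ t ∈ ball c σ, HasDerivAt (fun z => Complex.log (P.eval z / P.eval c))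
        ((derivative P).eval t / P.eval t) t := by
      intro t ht
      have h1 : HasDerivAt (fun z => P.eval z / P.eval c) ((derivative P).eval t / P.eval c) t :=
        (P.hasDerivAt t).div_const _
      have hsl : P.eval t / P.eval c ∈ Complex.slitPlane := by
        have h3 := Complex.mem_slitPlane_of_norm_lt_one (hnear t ht).1
        rwa [add_sub_cancel] at h3
      refine (h1.clog hsl).congr_deriv ?_
      have := hPt t ht
      field_simp
    have hΛl : 2 / 3 * c0 ≤ ‖Λ‖ := by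
      rw [hΛ, norm_div, le_div_iff₀ (by linarith [hpc.2])]
      have : 2 / 3 * c0 * ‖P.eval c‖ ≤ 2 / 3 * c0 * (3 / 2) := mul_le_mul_of_nonneg_left hpc.1 (by positivity)
      linarith
    rw [hW]
    refine one_disc (l := fun z => Complex.log (P.eval z / P.eval c)) hn hc0 hK11 hlog' hll' ?_ ?_ ?_ hwin hloc
    · intro t ht t' ht'
      have h1 := (Pool.Agent.Helper134.AR.bilip (f := fun z => Complex.log (P.eval z / P.eval c))
        (convex_ball c σ) (lam := Λ) (ε := ‖Λ‖ / 4) (fun x hx => (hld x hx).differentiableAt)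
        (fun x hx => by rw [(hld x hx).deriv]; exact (hnear x hx).2) ht ht').1
      have h2 : c0 / 2 * ‖t - t'‖ ≤ (‖Λ‖ - ‖Λ‖ / 4) * ‖t - t'‖ :=
        mul_le_mul_of_nonneg_right (by linarith) (norm_nonneg _)
      have h3 := h2.trans h1
      have h4 := mul_le_mul_of_nonneg_left h3 (show 0 ≤ 2 / c0 by positivity)
      have h5 : 2 / c0 * (c0 / 2 * ‖t - t'‖) = ‖t - t'‖ := by field_simp
      linarith
    · intro t ht
      refine ⟨norm_pos_iff.2 (hPt t ht), ?_⟩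
      rw [Complex.log_re, norm_div, Real.log_div (norm_ne_zero_iff.2 (hPt t ht)) (norm_ne_zero_iff.2 hPc)]
    · intro t _
      rw [Complex.log_im]
      exact (Complex.abs_arg_le_pi _).trans Real.pi_le_four
  have hcover : {t : ℂ | ‖t‖ ≤ M ∧ ¬ HypT P n t} ⊆ ⋃ c ∈ hFf.toFinset,
      {t ∈ ball c σ | ‖t‖ ≤ M ∧ ¬ HypT P n t} := by
    rintro t ⟨ht, hb⟩
    obtain ⟨h1, h2⟩ := hwin t ht hb
    have hring : |‖P.eval t‖ - 1| ≤ η := by
      refine ring_of (norm_nonneg _) hη0 ?_ (h2.trans_lt htopn)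
      have h3 : 1 / (2 * K1) < 1 / K1 := one_div_lt_one_div_of_lt (by linarith) (by linarith)
      have h5 : (n : ℝ) * (1 - η) ^ n < n * ‖P.eval t‖ ^ n := by linarith
      exact lt_of_mul_lt_mul_left h5 hn0.le
    have h3 : t ∈ Rg := by rw [hRg]; exact ⟨ht, hring⟩
    have h4 := hF h3
    simp only [mem_iUnion, exists_prop] at h4 ⊢
    obtain ⟨c, hc, hc2⟩ := h4
    exact ⟨c, by simpa using hc, hc2, ht, hb⟩
  refine (measure_mono hcover).trans ((measure_biUnion_finset_le _ _).trans ?_)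
  refine (Finset.sum_le_card_nsmul _ _ _ (fun c hc => hpiece c (by simpa using hc))).trans ?_
  rw [nsmul_eq_mul, ← ENNReal.ofReal_natCast, ← ENNReal.ofReal_mul (Nat.cast_nonneg _)]
  apply ENNReal.ofReal_le_ofReal
  have h6 : 0 ≤ Real.log (Real.log n) / n := by
    have : 0 ≤ Real.log (Real.log n) := by linarith
    positivity
  have h7 : (hFf.toFinset.card : ℝ) * (W * (Real.log (Real.log n) / n)) =
      hFf.toFinset.card * W * (Real.log (Real.log n) / n) := by ring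
  rw [h7]
  exact mul_le_mul_of_nonneg_right (by linarith) h6

theorem final2 {P : ℂ[X]} (hP : 0 < P.natDegree)
    (hcrit : ∀ y : ℂ, (derivative P).eval y = 0 → ‖P.eval y‖ ≠ 1) {M : ℝ} (hM : 0 ≤ M) :
    ∃ K : ℝ, 0 < K ∧ ∀ᶠ n : ℕ in atTop,
      volume {t : ℂ | ‖t‖ ≤ M ∧ ¬ HypT P n t} ≤ ENNReal.ofReal (K * (Real.log (Real.log n) / n)) ∧
      ∀ t₀ : ℂ, ‖t₀‖ ≤ M →
      (¬ HypT P n t₀ → 1 / K ≤ n * ‖P.eval t₀‖ ^ n ∧ ‖P.eval t₀‖ ^ n ≤ K) ∧
      (∃ t : ℂ, ‖t - t₀‖ ≤ K / n ∧ ‖t - t₀‖ * ‖P.eval t₀‖ ^ n ≤ K * Real.log n / n ^ 2 ∧ HypT P n t) ∧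
      volume {t ∈ closedBall t₀ (1 / n) | ¬ HypT P n t} * ENNReal.ofReal (‖P.eval t₀‖ ^ n) ≤
        ENNReal.ofReal (K * Real.log n / n ^ 3) := by
  obtain ⟨K1, hK1, h1⟩ := final hP hcrit hM
  obtain ⟨K2, hK2, h2⟩ := total hP hcrit hM
  refine ⟨K1 + K2, by positivity, ?_⟩
  have hlogt := Real.tendsto_log_atTop.comp (tendsto_natCast_atTop_atTop (R := ℝ))
  filter_upwards [h1, h2, eventually_ge_atTop 1, (Real.tendsto_log_atTop.comp hlogt).eventually_ge_atTop (0 : ℝ)]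
    with n h1 h2 hn hll
  have hll' : 0 ≤ Real.log (Real.log n) := hll
  have hn1 : (1 : ℝ) ≤ n := by exact_mod_cast hn
  have hn0 : (0 : ℝ) < n := by linarith
  have hlog0 : 0 ≤ Real.log n := Real.log_nonneg hn1
  refine ⟨h2.trans (ENNReal.ofReal_le_ofReal (mul_le_mul_of_nonneg_right (by linarith) (by positivity))), ?_⟩
  intro t₀ ht₀
  obtain ⟨ha, ⟨t, hb, hc, hd⟩, he⟩ := h1 t₀ ht₀
  refine ⟨fun hh => ?_, ⟨t, hb.trans ?_, hc.trans ?_, hd⟩, he.trans ?_⟩
  · obtain ⟨h3, h4⟩ := ha hh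
    refine ⟨le_trans ?_ h3, h4.trans (by linarith)⟩
    exact one_div_le_one_div_of_le hK1 (by linarith)
  · gcongr
    linarith
  · gcongr
    linarith
  · apply ENNReal.ofReal_le_ofReal
    gcongr
    linarith

end Pool.Agent.Helper134.PP
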